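import Mathlib

set_option autoImplicit false

open MeasureTheory Set Filter Topology
open scoped Real ContDiff

namespace Pool.Agent.TH635.J187

/-- reduce `x` modulo `2π` -/
lemma exists_red (x : ℝ) : ∃ k : ℤ, 0 ≤ x - k * (2 * π) ∧ x - k * (2 * π) < 2 * π := by
  have hp : 0 < 2 * π := by positivity
  refine ⟨⌊x / (2 * π)⌋, ?_, ?_⟩
  · have := Int.floor_le (x / (2 * π))
    have h2 : (⌊x / (2 * π)⌋ : ℝ) * (2 * π) ≤ x / (2 * π) * (2 * π) :=
      mul_le_mul_of_nonneg_right this hp.le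
    rw [div_mul_cancel₀ _ hp.ne'] at h2
    linarith
  · have := Int.lt_floor_add_one (x / (2 * π))
    have h2 : x / (2 * π) * (2 * π) < ((⌊x / (2 * π)⌋ : ℝ) + 1) * (2 * π) :=
      mul_lt_mul_of_pos_right this hp
    rw [div_mul_cancel₀ _ hp.ne'] at h2
    linarith

lemma per_int {E : Type*} {f : ℝ → E} (hf : ∀ x, f (x + 2 * π) = f x) (k : ℤ) (x : ℝ) :
    f (x - k * (2 * π)) = f x := by
  have h : Function.Periodic f (2 * π) := hf
  have := h.sub_zsmul_eq k (x := x)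
  rwa [zsmul_eq_mul] at this

lemma per_bdd {E : Type*} [NormedAddCommGroup E] {f : ℝ → E} (hc : Continuous f)
    (hf : ∀ x, f (x + 2 * π) = f x) : ∃ C : ℝ, 0 < C ∧ ∀ x, ‖f x‖ ≤ C := by
  obtain ⟨C, hC⟩ := (isCompact_Icc (a := (0 : ℝ)) (b := 2 * π)).exists_bound_of_continuousOn
    hc.continuousOn
  refine ⟨max C 1, by positivity, fun x => ?_⟩
  obtain ⟨k, h1, h2⟩ := exists_red x
  rw [← per_int hf k x]
  exact le_trans (hC _ ⟨h1, h2.le⟩) (le_max_left _ _)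

lemma per_low {f : ℝ → ℝ} (hc : Continuous f) (hf : ∀ x, f (x + 2 * π) = f x)
    (hpos : ∀ x, 0 < f x) : ∃ c : ℝ, 0 < c ∧ ∀ x, c ≤ f x := by
  obtain ⟨y, hy, hmin⟩ := (isCompact_Icc (a := (0 : ℝ)) (b := 2 * π)).exists_isMinOn
    ⟨0, ⟨le_rfl, by positivity⟩⟩ hc.continuousOn
  refine ⟨f y, hpos y, fun x => ?_⟩
  obtain ⟨k, h1, h2⟩ := exists_red x
  rw [← per_int hf k x]
  exact hmin ⟨h1, h2.le⟩

lemma per_deriv {E : Type*} [NormedAddCommGroup E] [NormedSpace ℝ E] {f : ℝ → E}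
    (hf : ∀ x, f (x + 2 * π) = f x) : ∀ x, deriv f (x + 2 * π) = deriv f x := by
  intro x
  have h : (fun y => f (y + 2 * π)) = f := funext hf
  have h2 := deriv_comp_add_const f (2 * π) x
  rw [h] at h2
  exact h2.symm

/-- one integration by parts -/
lemma step (u u' : ℝ → ℂ) (w w' ψ : ℝ → ℝ) (E : ℝ → ℂ)
    (hu : ∀ x, HasDerivAt u (u' x) x) (hw : ∀ x, HasDerivAt w (w' x) x)
    (hE : ∀ x, HasDerivAt E (Complex.I * (ψ x : ℂ) * E x) x)
    (hu' : Continuous u') (hw' : Continuous w') (hψ : Continuous ψ)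
    (hψw : ∀ x, ψ x * w x = 1) (pu : u (2 * π) = u 0) (pw : w (2 * π) = w 0)
    (pE : E (2 * π) = E 0) :
    ∫ x in (0:ℝ)..(2 * π), u x * E x =
      Complex.I * ∫ x in (0:ℝ)..(2 * π), (u' x * (w x : ℂ) + u x * (w' x : ℂ)) * E x := by
  have huc : Continuous u := continuous_iff_continuousAt.mpr fun x => (hu x).continuousAt
  have hwc : Continuous w := continuous_iff_continuousAt.mpr fun x => (hw x).continuousAt
  have hEc : Continuous E := continuous_iff_continuousAt.mpr fun x => (hE x).continuousAt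
  have hwC : ∀ x, HasDerivAt (fun y => (w y : ℂ)) (w' x : ℂ) x := fun x => (hw x).ofReal_comp
  have h1 := intervalIntegral.integral_mul_deriv_eq_deriv_mul (a := (0 : ℝ)) (b := 2 * π)
    (u := fun x => u x * (w x : ℂ)) (u' := fun x => u' x * (w x : ℂ) + u x * (w' x : ℂ))
    (v := E) (v' := fun x => Complex.I * (ψ x : ℂ) * E x)
    (fun x _ => (hu x).mul (hwC x)) (fun x _ => hE x)
    (by
      apply Continuous.intervalIntegrable
      exact (hu'.mul (Complex.continuous_ofReal.comp hwc)).add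
        (huc.mul (Complex.continuous_ofReal.comp hw')))
    (by
      apply Continuous.intervalIntegrable
      exact (continuous_const.mul (Complex.continuous_ofReal.comp hψ)).mul hEc)
  rw [pu, pw, pE, sub_self, zero_sub] at h1
  have h2 : ∀ x, u x * E x = (-Complex.I) * (u x * (w x : ℂ) * (Complex.I * (ψ x : ℂ) * E x)) := by
    intro x
    have e : (ψ x : ℂ) * (w x : ℂ) = 1 := by
      rw [← Complex.ofReal_mul, hψw]; norm_num
    have e2 : (-Complex.I) * (u x * (w x : ℂ) * (Complex.I * (ψ x : ℂ) * E x)) =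
        (-(Complex.I * Complex.I)) * ((ψ x : ℂ) * (w x : ℂ)) * (u x * E x) := by ring
    rw [e2, e, Complex.I_mul_I]
    ring
  rw [intervalIntegral.integral_congr (g := fun x => (-Complex.I) *
    (u x * (w x : ℂ) * (Complex.I * (ψ x : ℂ) * E x))) (fun x _ => h2 x),
    intervalIntegral.integral_const_mul, h1]
  ring

/-- two integrations by parts -/
lemma osc (a0 a1 a2 : ℝ → ℂ) (w0 w1 w2 ψ : ℝ → ℝ) (E : ℝ → ℂ) (A K lam : ℝ)
    (ha0 : ∀ x, HasDerivAt a0 (a1 x) x) (ha1 : ∀ x, HasDerivAt a1 (a2 x) x) (ha2 : Continuous a2)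
    (hw0 : ∀ x, HasDerivAt w0 (w1 x) x) (hw1 : ∀ x, HasDerivAt w1 (w2 x) x) (hw2 : Continuous w2)
    (hE : ∀ x, HasDerivAt E (Complex.I * (ψ x : ℂ) * E x) x) (hψ : Continuous ψ)
    (hψw : ∀ x, ψ x * w0 x = 1) (pa0 : a0 (2 * π) = a0 0) (pa1 : a1 (2 * π) = a1 0)
    (pw0 : w0 (2 * π) = w0 0) (pw1 : w1 (2 * π) = w1 0) (pE : E (2 * π) = E 0)
    (hEn : ∀ x, ‖E x‖ ≤ 1) (hlam : 0 < lam) (hK : 1 ≤ K)
    (bA0 : ∀ x, ‖a0 x‖ ≤ A) (bA1 : ∀ x, ‖a1 x‖ ≤ A) (bA2 : ∀ x, ‖a2 x‖ ≤ A)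
    (bw0 : ∀ x, |w0 x| ≤ 1 / lam) (bw1 : ∀ x, |w1 x| ≤ K / lam) (bw2 : ∀ x, |w2 x| ≤ K / lam) :
    ‖∫ x in (0:ℝ)..(2 * π), a0 x * E x‖ ≤ 12 * π * A * K ^ 2 / lam ^ 2 := by
  have hA : 0 ≤ A := le_trans (norm_nonneg _) (bA0 0)
  have ha0c : Continuous a0 := continuous_iff_continuousAt.mpr fun x => (ha0 x).continuousAt
  have ha1c : Continuous a1 := continuous_iff_continuousAt.mpr fun x => (ha1 x).continuousAt
  have hw0c : Continuous w0 := continuous_iff_continuousAt.mpr fun x => (hw0 x).continuousAt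
  have hw1c : Continuous w1 := continuous_iff_continuousAt.mpr fun x => (hw1 x).continuousAt
  have hw0C : ∀ x, HasDerivAt (fun y => (w0 y : ℂ)) (w1 x : ℂ) x := fun x => (hw0 x).ofReal_comp
  have hw1C : ∀ x, HasDerivAt (fun y => (w1 y : ℂ)) (w2 x : ℂ) x := fun x => (hw1 x).ofReal_comp
  have s1 := step a0 a1 w0 w1 ψ E ha0 hw0 hE ha1c hw1c hψ hψw pa0 pw0 pE
  have hb : ∀ x, HasDerivAt (fun x => a1 x * (w0 x : ℂ) + a0 x * (w1 x : ℂ))
      ((a2 x * (w0 x : ℂ) + a1 x * (w1 x : ℂ)) + (a1 x * (w1 x : ℂ) + a0 x * (w2 x : ℂ))) x :=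
    fun x => ((ha1 x).mul (hw0C x)).add ((ha0 x).mul (hw1C x))
  have s2 := step (fun x => a1 x * (w0 x : ℂ) + a0 x * (w1 x : ℂ))
    (fun x => (a2 x * (w0 x : ℂ) + a1 x * (w1 x : ℂ)) + (a1 x * (w1 x : ℂ) + a0 x * (w2 x : ℂ)))
    w0 w1 ψ E hb hw0 hE
    (((ha2.mul (Complex.continuous_ofReal.comp hw0c)).add
      (ha1c.mul (Complex.continuous_ofReal.comp hw1c))).add
      ((ha1c.mul (Complex.continuous_ofReal.comp hw1c)).add
      (ha0c.mul (Complex.continuous_ofReal.comp hw2)))) hw1c hψ hψw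
    (by simp only [pa0, pa1, pw0, pw1]) pw0 pE
  rw [s1, s2, norm_mul, norm_mul, Complex.norm_I, one_mul, one_mul]
  have hbound : ∀ x ∈ uIoc (0:ℝ) (2 * π),
      ‖(((a2 x * (w0 x : ℂ) + a1 x * (w1 x : ℂ)) + (a1 x * (w1 x : ℂ) + a0 x * (w2 x : ℂ))) *
        (w0 x : ℂ) + (a1 x * (w0 x : ℂ) + a0 x * (w1 x : ℂ)) * (w1 x : ℂ)) * E x‖ ≤
        6 * A * K ^ 2 / lam ^ 2 := by
    intro x _
    have n0 : ‖(w0 x : ℂ)‖ ≤ 1 / lam := by rw [Complex.norm_real]; exact bw0 x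
    have n1 : ‖(w1 x : ℂ)‖ ≤ K / lam := by rw [Complex.norm_real]; exact bw1 x
    have n2 : ‖(w2 x : ℂ)‖ ≤ K / lam := by rw [Complex.norm_real]; exact bw2 x
    have hK0 : 0 ≤ K / lam := by positivity
    have h10 : 0 ≤ 1 / lam := by positivity
    have hKl : 1 / lam ≤ K / lam := by gcongr
    have n0' : ‖(w0 x : ℂ)‖ ≤ K / lam := le_trans n0 hKl
    have p : ∀ (z : ℂ) (v : ℂ), ‖z‖ ≤ A → ‖v‖ ≤ K / lam → ‖z * v‖ ≤ A * (K / lam) := by
      intro z v hz hv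
      rw [norm_mul]
      exact mul_le_mul hz hv (norm_nonneg _) hA
    have q1 : ‖(a2 x * (w0 x : ℂ) + a1 x * (w1 x : ℂ)) + (a1 x * (w1 x : ℂ) + a0 x * (w2 x : ℂ))‖
        ≤ 4 * (A * (K / lam)) := by
      refine le_trans (norm_add_le _ _) ?_
      have r1 := norm_add_le (a2 x * (w0 x : ℂ)) (a1 x * (w1 x : ℂ))
      have r2 := norm_add_le (a1 x * (w1 x : ℂ)) (a0 x * (w2 x : ℂ))
      have := p _ _ (bA2 x) n0'
      have := p _ _ (bA1 x) n1
      have := p _ _ (bA0 x) n2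
      linarith
    have q2 : ‖a1 x * (w0 x : ℂ) + a0 x * (w1 x : ℂ)‖ ≤ 2 * (A * (K / lam)) := by
      refine le_trans (norm_add_le _ _) ?_
      have := p _ _ (bA1 x) n0'
      have := p _ _ (bA0 x) n1
      linarith
    have q3 : ‖((a2 x * (w0 x : ℂ) + a1 x * (w1 x : ℂ)) + (a1 x * (w1 x : ℂ) + a0 x * (w2 x : ℂ))) *
        (w0 x : ℂ)‖ ≤ 4 * (A * (K / lam)) * (K / lam) := by
      rw [norm_mul]
      exact mul_le_mul q1 n0' (norm_nonneg _) (by positivity)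
    have q4 : ‖(a1 x * (w0 x : ℂ) + a0 x * (w1 x : ℂ)) * (w1 x : ℂ)‖ ≤
        2 * (A * (K / lam)) * (K / lam) := by
      rw [norm_mul]
      exact mul_le_mul q2 n1 (norm_nonneg _) (by positivity)
    rw [norm_mul]
    calc _ ≤ ‖((a2 x * (w0 x : ℂ) + a1 x * (w1 x : ℂ)) + (a1 x * (w1 x : ℂ) + a0 x * (w2 x : ℂ))) *
          (w0 x : ℂ) + (a1 x * (w0 x : ℂ) + a0 x * (w1 x : ℂ)) * (w1 x : ℂ)‖ * 1 :=
          mul_le_mul_of_nonneg_left (hEn x) (norm_nonneg _)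
      _ ≤ (4 * (A * (K / lam)) * (K / lam) + 2 * (A * (K / lam)) * (K / lam)) * 1 := by
          gcongr
          exact le_trans (norm_add_le _ _) (add_le_add q3 q4)
      _ = 6 * A * K ^ 2 / lam ^ 2 := by field_simp; ring
  have := intervalIntegral.norm_integral_le_of_norm_le_const hbound
  rw [sub_zero, abs_of_pos (by positivity : 0 < 2 * π)] at this
  calc _ ≤ 6 * A * K ^ 2 / lam ^ 2 * (2 * π) := this
    _ = 12 * π * A * K ^ 2 / lam ^ 2 := by ring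

end Pool.Agent.TH635.J187
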