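import Mathlib
import Pool.Agent.TH635.J187a

set_option autoImplicit false

open MeasureTheory Set Filter Topology
open scoped Real ContDiff

namespace Pool.Agent.TH635.J187

/-- the oscillatory integral -/
noncomputable def OI (h : ℝ → ℝ) (r : ℝ → ℂ) (n : ℕ) (m : ℤ) : ℂ :=
  ∫ z in (0:ℝ)..(2 * π), (r z * ((deriv h z : ℝ) : ℂ)) *
    Complex.exp (Complex.I * (((n : ℝ) * z - (m : ℝ) * h z : ℝ) : ℂ))

lemma smooth_deriv {E : Type*} [NormedAddCommGroup E] [NormedSpace ℝ E] {f : ℝ → E}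
    (hf : ContDiff ℝ ∞ f) : ContDiff ℝ ∞ (deriv f) :=
  (contDiff_infty_iff_deriv.mp hf).2

lemma smooth_hasDeriv {E : Type*} [NormedAddCommGroup E] [NormedSpace ℝ E] {f : ℝ → E}
    (hf : ContDiff ℝ ∞ f) (x : ℝ) : HasDerivAt f (deriv f x) x :=
  ((contDiff_infty_iff_deriv.mp hf).1 x).hasDerivAt

lemma OI_bound (h : ℝ → ℝ) (hh : ContDiff ℝ ∞ h) (hper : ∀ x, h (x + 2 * π) = h x + 2 * π)
    (r : ℝ → ℂ) (hr : ContDiff ℝ ∞ r) (rper : ∀ x, r (x + 2 * π) = r x) (C1 : ℝ) (hC1 : 0 < C1) :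
    ∃ K2 : ℝ, 0 < K2 ∧ ∀ (n : ℕ) (m : ℤ) (lam : ℝ), 0 < lam →
      (∀ x, lam ≤ |(n : ℝ) - m * deriv h x|) → |(m : ℝ)| ≤ C1 * lam →
      ‖OI h r n m‖ ≤ K2 / lam ^ 2 := by
  -- derivatives
  set h1 := deriv h with hh1
  set h2 := deriv h1 with hh2
  set h3 := deriv h2 with hh3
  have s1 : ContDiff ℝ ∞ h1 := smooth_deriv hh
  have s2 : ContDiff ℝ ∞ h2 := smooth_deriv s1
  have s3 : ContDiff ℝ ∞ h3 := smooth_deriv s2
  set r1 := deriv r with hr1
  set r2 := deriv r1 with hr2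
  have t1 : ContDiff ℝ ∞ r1 := smooth_deriv hr
  have t2 : ContDiff ℝ ∞ r2 := smooth_deriv t1
  have p1 : ∀ x, h1 (x + 2 * π) = h1 x := by
    intro x
    have e : (fun y => h (y + 2 * π)) = fun y => h y + 2 * π := funext hper
    have h4 := deriv_comp_add_const h (2 * π) x
    rw [e, deriv_add_const] at h4
    exact h4.symm
  have p2 : ∀ x, h2 (x + 2 * π) = h2 x := per_deriv p1
  have p3 : ∀ x, h3 (x + 2 * π) = h3 x := per_deriv p2
  have q1 : ∀ x, r1 (x + 2 * π) = r1 x := per_deriv rper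
  have q2 : ∀ x, r2 (x + 2 * π) = r2 x := per_deriv q1
  -- bounds
  set a0 : ℝ → ℂ := fun z => r z * (h1 z : ℂ) with ha0
  set a1 : ℝ → ℂ := fun z => r1 z * (h1 z : ℂ) + r z * (h2 z : ℂ) with ha1
  set a2 : ℝ → ℂ := fun z => (r2 z * (h1 z : ℂ) + r1 z * (h2 z : ℂ)) +
    (r1 z * (h2 z : ℂ) + r z * (h3 z : ℂ)) with ha2
  have c1 : Continuous fun z => (h1 z : ℂ) := Complex.continuous_ofReal.comp s1.continuous
  have c2 : Continuous fun z => (h2 z : ℂ) := Complex.continuous_ofReal.comp s2.continuous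
  have c3 : Continuous fun z => (h3 z : ℂ) := Complex.continuous_ofReal.comp s3.continuous
  have d1 : ∀ x, HasDerivAt (fun y => (h1 y : ℂ)) (h2 x : ℂ) x :=
    fun x => (smooth_hasDeriv s1 x).ofReal_comp
  have d2 : ∀ x, HasDerivAt (fun y => (h2 y : ℂ)) (h3 x : ℂ) x :=
    fun x => (smooth_hasDeriv s2 x).ofReal_comp
  have hda0 : ∀ x, HasDerivAt a0 (a1 x) x := fun x => (smooth_hasDeriv hr x).mul (d1 x)
  have hda1 : ∀ x, HasDerivAt a1 (a2 x) x := fun x =>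
    ((smooth_hasDeriv t1 x).mul (d1 x)).add ((smooth_hasDeriv hr x).mul (d2 x))
  have ca0 : Continuous a0 := hr.continuous.mul c1
  have ca1 : Continuous a1 := (t1.continuous.mul c1).add (hr.continuous.mul c2)
  have ca2 : Continuous a2 := ((t2.continuous.mul c1).add (t1.continuous.mul c2)).add
    ((t1.continuous.mul c2).add (hr.continuous.mul c3))
  have pa0 : ∀ x, a0 (x + 2 * π) = a0 x := fun x => by simp only [ha0, rper, p1]
  have pa1 : ∀ x, a1 (x + 2 * π) = a1 x := fun x => by simp only [ha1, rper, p1, p2, q1]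
  have pa2 : ∀ x, a2 (x + 2 * π) = a2 x := fun x => by simp only [ha2, rper, p1, p2, p3, q1, q2]
  obtain ⟨A0, hA0, bA0⟩ := per_bdd ca0 pa0
  obtain ⟨A1, hA1, bA1⟩ := per_bdd ca1 pa1
  obtain ⟨A2, hA2, bA2⟩ := per_bdd ca2 pa2
  obtain ⟨H2, hH2, bH2⟩ := per_bdd s2.continuous p2
  obtain ⟨H3, hH3, bH3⟩ := per_bdd s3.continuous p3
  set A := A0 + A1 + A2 with hA
  set K := 1 + C1 * H2 + (C1 * H3 + 2 * (C1 * H2) ^ 2) with hK
  have hKpos : 1 ≤ K := by
    have : 0 ≤ C1 * H2 := by positivity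
    have : 0 ≤ C1 * H3 + 2 * (C1 * H2) ^ 2 := by positivity
    linarith
  refine ⟨12 * π * A * K ^ 2, by positivity, ?_⟩
  intro n m lam hlam hl hm
  set ψ : ℝ → ℝ := fun x => (n : ℝ) - m * h1 x with hψ
  have hψne : ∀ x, ψ x ≠ 0 := by
    intro x h0
    have := hl x
    rw [show (n : ℝ) - m * h1 x = ψ x from rfl, h0, abs_zero] at this
    linarith
  have cψ : Continuous ψ := continuous_const.sub (continuous_const.mul s1.continuous)
  have dψ : ∀ x, HasDerivAt ψ (-(m * h2 x)) x := by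
    intro x
    have := ((smooth_hasDeriv s1 x).const_mul (m : ℝ)).const_sub (n : ℝ)
    exact this
  set w0 : ℝ → ℝ := fun x => (ψ x)⁻¹ with hw0
  set w1 : ℝ → ℝ := fun x => (m * h2 x) * ((ψ x)⁻¹ * (ψ x)⁻¹) with hw1
  set w2 : ℝ → ℝ := fun x => (m * h3 x) * ((ψ x)⁻¹ * (ψ x)⁻¹) +
    (m * h2 x) * (((m * h2 x) * ((ψ x)⁻¹ * (ψ x)⁻¹)) * (ψ x)⁻¹ +
      (ψ x)⁻¹ * ((m * h2 x) * ((ψ x)⁻¹ * (ψ x)⁻¹))) with hw2
  have dw0 : ∀ x, HasDerivAt w0 (w1 x) x := by
    intro x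
    have := (dψ x).inv (hψne x)
    have e : w1 x = -(-(m * h2 x)) / ψ x ^ 2 := by
      show (m * h2 x) * ((ψ x)⁻¹ * (ψ x)⁻¹) = _
      have := hψne x
      field_simp
    rw [e]
    exact this
  have dw1 : ∀ x, HasDerivAt w1 (w2 x) x := by
    intro x
    have e := ((smooth_hasDeriv s2 x).const_mul (m : ℝ)).mul ((dw0 x).mul (dw0 x))
    exact e
  have cw2 : Continuous w2 := by
    have ci : Continuous fun x => (ψ x)⁻¹ := cψ.inv₀ hψne
    have := s2.continuous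
    have := s3.continuous
    simp only [hw2]
    fun_prop
  set E : ℝ → ℂ := fun z => Complex.exp (Complex.I * (((n : ℝ) * z - (m : ℝ) * h z : ℝ) : ℂ))
    with hE
  have dE : ∀ x, HasDerivAt E (Complex.I * (ψ x : ℂ) * E x) x := by
    intro x
    have e1 : HasDerivAt (fun z : ℝ => (n : ℝ) * z - (m : ℝ) * h z) (ψ x) x := by
      have := ((hasDerivAt_id' x).const_mul (n : ℝ)).sub ((smooth_hasDeriv hh x).const_mul (m : ℝ))
      rw [mul_one] at this
      exact this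
    have e2 := (e1.ofReal_comp.const_mul Complex.I).cexp
    convert e2 using 1
    ring
  have bw0 : ∀ x, |w0 x| ≤ 1 / lam := by
    intro x
    simp only [hw0]
    rw [abs_inv, one_div]
    exact inv_anti₀ hlam (hl x)
  have bmh2 : ∀ x, |(m : ℝ) * h2 x| ≤ C1 * lam * H2 := by
    intro x
    rw [abs_mul]
    exact mul_le_mul hm (bH2 x) (abs_nonneg _) (by positivity)
  have bmh3 : ∀ x, |(m : ℝ) * h3 x| ≤ C1 * lam * H3 := by
    intro x
    rw [abs_mul]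
    exact mul_le_mul hm (bH3 x) (abs_nonneg _) (by positivity)
  have bi : ∀ x, |(ψ x)⁻¹| ≤ 1 / lam := bw0
  have bii : ∀ x, |(ψ x)⁻¹ * (ψ x)⁻¹| ≤ 1 / lam * (1 / lam) := by
    intro x
    rw [abs_mul]
    exact mul_le_mul (bi x) (bi x) (abs_nonneg _) (by positivity)
  have bw1' : ∀ x, |(m * h2 x) * ((ψ x)⁻¹ * (ψ x)⁻¹)| ≤ C1 * H2 / lam := by
    intro x
    rw [abs_mul]
    calc _ ≤ C1 * lam * H2 * (1 / lam * (1 / lam)) :=
          mul_le_mul (bmh2 x) (bii x) (abs_nonneg _) (by positivity)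
      _ = C1 * H2 / lam := by field_simp
  have bw1 : ∀ x, |w1 x| ≤ K / lam := by
    intro x
    refine le_trans (bw1' x) ?_
    gcongr
    have : 0 ≤ C1 * H3 + 2 * (C1 * H2) ^ 2 := by positivity
    linarith
  have bw2 : ∀ x, |w2 x| ≤ K / lam := by
    intro x
    have e1 : |(m * h3 x) * ((ψ x)⁻¹ * (ψ x)⁻¹)| ≤ C1 * H3 / lam := by
      rw [abs_mul]
      calc _ ≤ C1 * lam * H3 * (1 / lam * (1 / lam)) :=
            mul_le_mul (bmh3 x) (bii x) (abs_nonneg _) (by positivity)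
        _ = C1 * H3 / lam := by field_simp
    have e2 : |((m * h2 x) * ((ψ x)⁻¹ * (ψ x)⁻¹)) * (ψ x)⁻¹ +
      (ψ x)⁻¹ * ((m * h2 x) * ((ψ x)⁻¹ * (ψ x)⁻¹))| ≤ 2 * (C1 * H2 / lam * (1 / lam)) := by
      refine le_trans (abs_add_le _ _) ?_
      rw [abs_mul, abs_mul (ψ x)⁻¹]
      have := mul_le_mul (bw1' x) (bi x) (abs_nonneg _) (by positivity)
      have := mul_le_mul (bi x) (bw1' x) (abs_nonneg _) (by positivity)
      linarith
    have e3 : |(m * h2 x) * (((m * h2 x) * ((ψ x)⁻¹ * (ψ x)⁻¹)) * (ψ x)⁻¹ +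
      (ψ x)⁻¹ * ((m * h2 x) * ((ψ x)⁻¹ * (ψ x)⁻¹)))| ≤ 2 * (C1 * H2) ^ 2 / lam := by
      rw [abs_mul]
      calc _ ≤ C1 * lam * H2 * (2 * (C1 * H2 / lam * (1 / lam))) :=
            mul_le_mul (bmh2 x) e2 (abs_nonneg _) (by positivity)
        _ = 2 * (C1 * H2) ^ 2 / lam := by field_simp
    calc |w2 x| ≤ C1 * H3 / lam + 2 * (C1 * H2) ^ 2 / lam :=
          le_trans (abs_add_le _ _) (add_le_add e1 e3)
      _ = (C1 * H3 + 2 * (C1 * H2) ^ 2) / lam := by ring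
      _ ≤ K / lam := by
          gcongr
          have : 0 ≤ C1 * H2 := by positivity
          linarith
  have z2 : ∀ {F : Type} (g : ℝ → F), (∀ x, g (x + 2 * π) = g x) → g (2 * π) = g 0 := by
    intro F g hg
    have := hg 0
    rwa [zero_add] at this
  have pψ : ∀ x, ψ (x + 2 * π) = ψ x := fun x => by simp only [hψ, p1]
  have pE : E (2 * π) = E 0 := by
    simp only [hE]
    have e0 : h (2 * π) = h 0 + 2 * π := by
      have := hper 0
      rwa [zero_add] at this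
    rw [e0]
    have e1 : Complex.I * (((n : ℝ) * (2 * π) - (m : ℝ) * (h 0 + 2 * π) : ℝ) : ℂ) =
        Complex.I * (((n : ℝ) * 0 - (m : ℝ) * h 0 : ℝ) : ℂ) +
          (((n : ℤ) - m : ℤ) : ℂ) * (2 * π * Complex.I) := by
      push_cast; ring
    rw [e1, Complex.exp_add, Complex.exp_int_mul_two_pi_mul_I, mul_one]
  have key := osc a0 a1 a2 w0 w1 w2 ψ E A K lam hda0 hda1 ca2 dw0 dw1 cw2 dE cψ
    (fun x => mul_inv_cancel₀ (hψne x)) (z2 a0 pa0) (z2 a1 pa1)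
    (z2 w0 fun x => by simp only [hw0, pψ]) (z2 w1 fun x => by simp only [hw1, pψ, p2]) pE
    (fun x => by
      simp only [hE]
      rw [mul_comm, Complex.norm_exp_ofReal_mul_I])
    hlam hKpos (fun x => le_trans (bA0 x) (by linarith)) (fun x => le_trans (bA1 x) (by linarith))
    (fun x => le_trans (bA2 x) (by linarith)) bw0 bw1 bw2
  exact key

end Pool.Agent.TH635.J187
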