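import Mathlib
import Pool.Agent.TH635.J187b

set_option autoImplicit false

open MeasureTheory Set Filter Topology
open scoped Real ContDiff

namespace Pool.Agent.TH635.J187

lemma exists_inverse (h : ℝ → ℝ) (hc : Continuous h) (hper : ∀ x, h (x + 2 * π) = h x + 2 * π)
    (hpos : ∀ x, 0 < deriv h x) :
    ∃ g : ℝ → ℝ, Continuous g ∧ (∀ z, g (h z) = z) ∧ (∀ y, h (g y) = y) ∧
      ∀ y, g (y + 2 * π) = g y + 2 * π := by
  have hmono : StrictMono h := strictMono_of_deriv_pos hpos
  obtain ⟨C, hC, hb⟩ := per_bdd (f := fun x => h x - x) (hc.sub continuous_id)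
    (fun x => by simp only [hper]; ring)
  have hsurj : Function.Surjective h := by
    intro y
    apply mem_range_of_exists_le_of_exists_ge hc
    · refine ⟨y - C, ?_⟩
      have := le_trans (le_abs_self _) (hb (y - C))
      linarith
    · refine ⟨y + C, ?_⟩
      have h2 := abs_le.mp (hb (y + C))
      linarith [h2.1]
  let e := hmono.orderIsoOfSurjective h hsurj
  have he : ∀ z, e z = h z := fun z => rfl
  have hhg : ∀ y, h (e.symm y) = y := fun y => by rw [← he]; exact e.apply_symm_apply y
  refine ⟨e.symm, e.symm.continuous, fun z => ?_, hhg, fun y => ?_⟩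
  · rw [← he]; exact e.symm_apply_apply z
  · apply hmono.injective
    rw [hhg, hper, hhg]

/-- the Fourier coefficients of `(r e^{iN·}) ∘ h⁻¹` -/
lemma exists_fourier (h : ℝ → ℝ) (hh : ContDiff ℝ ∞ h) (hper : ∀ x, h (x + 2 * π) = h x + 2 * π)
    (hpos : ∀ x, 0 < deriv h x) (r : ℝ → ℂ) (hr : ContDiff ℝ ∞ r)
    (rper : ∀ x, r (x + 2 * π) = r x) (N : ℕ) (hs : Summable fun m : ℤ => ‖OI h r N m‖) :
    ∀ z : ℝ, HasSum (fun m : ℤ => ((1 / (2 * π) : ℝ) : ℂ) * OI h r N m *
      Complex.exp (Complex.I * ((m : ℂ) * (h z : ℂ))))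
      (r z * Complex.exp (Complex.I * ((N : ℂ) * (z : ℂ)))) := by
  obtain ⟨g, hgc, hgh, hhg, hgper⟩ := exists_inverse h hh.continuous hper hpos
  have : Fact (0 < 2 * π) := ⟨by positivity⟩
  set Φ : ℝ → ℂ := fun y => r (g y) * Complex.exp (Complex.I * ((N : ℂ) * (g y : ℂ))) with hΦ
  have hΦc : Continuous Φ := by
    have := hr.continuous
    simp only [hΦ]
    fun_prop
  have hΦp : Function.Periodic Φ (2 * π) := by
    intro y
    simp only [hΦ, hgper, rper]
    congr 1
    rw [show Complex.I * ((N : ℂ) * ((g y + 2 * π : ℝ) : ℂ)) =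
      Complex.I * ((N : ℂ) * (g y : ℂ)) + ((N : ℤ) : ℂ) * (2 * π * Complex.I) by push_cast; ring,
      Complex.exp_add, Complex.exp_int_mul_two_pi_mul_I, mul_one]
  let F : C(AddCircle (2 * π), ℂ) := ⟨hΦp.lift, continuous_coinduced_dom.mpr hΦc⟩
  have hF : ∀ y : ℝ, F (y : AddCircle (2 * π)) = Φ y := fun y => hΦp.lift_coe y
  have hcoef : ∀ m : ℤ, fourierCoeff F m = ((1 / (2 * π) : ℝ) : ℂ) * OI h r N m := by
    intro m
    rw [fourierCoeff_eq_intervalIntegral F m (h 0)]
    have e0 : h 0 + 2 * π = h (2 * π) := by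
      have := hper 0
      rw [zero_add] at this
      exact this.symm
    rw [e0]
    have e1 : ∀ x : ℝ, @fourier (2 * π) (-m) (x : AddCircle (2 * π)) • F (x : AddCircle (2 * π)) =
        Complex.exp (-(Complex.I * ((m : ℂ) * (x : ℂ)))) * Φ x := by
      intro x
      rw [hF, smul_eq_mul, fourier_coe_apply]
      congr 2
      have hpi : (π : ℂ) ≠ 0 := by exact_mod_cast Real.pi_ne_zero
      push_cast
      field_simp
    have e2 := intervalIntegral.integral_deriv_smul_comp (a := (0 : ℝ)) (b := 2 * π) (f := h)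
      (f' := deriv h) (g := fun x : ℝ => Complex.exp (-(Complex.I * ((m : ℂ) * (x : ℂ)))) * Φ x)
      (fun x _ => smooth_hasDeriv hh x) (smooth_deriv hh).continuous.continuousOn (by fun_prop)
    simp only [e1]
    rw [← e2, Complex.real_smul]
    congr 1
    rw [OI]
    apply intervalIntegral.integral_congr
    intro z _
    simp only [Function.comp, hΦ, hgh, Complex.real_smul]
    rw [show Complex.I * (((N : ℝ) * z - (m : ℝ) * h z : ℝ) : ℂ) =
      -(Complex.I * ((m : ℂ) * (h z : ℂ))) + Complex.I * ((N : ℂ) * (z : ℂ)) by push_cast; ring,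
      Complex.exp_add]
    ring
  have hsum : Summable (fourierCoeff F) := by
    have : Summable fun m : ℤ => ((1 / (2 * π) : ℝ) : ℂ) * OI h r N m :=
      (hs.of_norm).mul_left _
    exact this.congr fun m => (hcoef m).symm
  intro z
  have h1 := has_pointwise_sum_fourier_series_of_summable hsum ((h z : ℝ) : AddCircle (2 * π))
  rw [hF] at h1
  have h2 : Φ (h z) = r z * Complex.exp (Complex.I * ((N : ℂ) * (z : ℂ))) := by
    simp only [hΦ, hgh]
  rw [h2] at h1
  have h3 : (fun i : ℤ => fourierCoeff F i • @fourier (2 * π) i ((h z : ℝ) : AddCircle (2 * π))) =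
      fun m : ℤ => ((1 / (2 * π) : ℝ) : ℂ) * OI h r N m *
      Complex.exp (Complex.I * ((m : ℂ) * (h z : ℂ))) := by
    funext m
    rw [hcoef, smul_eq_mul, fourier_coe_apply]
    congr 2
    have hpi : (π : ℂ) ≠ 0 := by exact_mod_cast Real.pi_ne_zero
    push_cast
    field_simp
  rw [h3] at h1
  exact h1

/-- the three estimates for the coefficients -/
lemma OI_est (h : ℝ → ℝ) (hh : ContDiff ℝ ∞ h) (hper : ∀ x, h (x + 2 * π) = h x + 2 * π)
    (hpos : ∀ x, 0 < deriv h x) (r : ℝ → ℂ) (hr : ContDiff ℝ ∞ r)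
    (rper : ∀ x, r (x + 2 * π) = r x) (m0 : ℕ) :
    ∃ (c K : ℝ) (N1 : ℕ), 0 < c ∧ 0 < K ∧ 1 ≤ N1 ∧ ∀ N : ℕ, N1 ≤ N → ∀ m : ℤ,
      (m < m0 → ‖OI h r N m‖ ≤ K / ((N : ℝ) / 2 + c * |(m : ℝ)|) ^ 2) ∧
      (2 * (N : ℝ) / c ≤ m → ‖OI h r N m‖ ≤ 4 * K / c ^ 2 * (1 / (m : ℝ) ^ 2)) := by
  have p1 : ∀ x, deriv h (x + 2 * π) = deriv h x := by
    intro x
    have e : (fun y => h (y + 2 * π)) = fun y => h y + 2 * π := funext hper
    have h4 := deriv_comp_add_const h (2 * π) x
    rw [e, deriv_add_const] at h4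
    exact h4.symm
  have cd : Continuous (deriv h) := (smooth_deriv hh).continuous
  obtain ⟨c, hc, hcl⟩ := per_low cd p1 hpos
  obtain ⟨C, hC, hCu⟩ := per_bdd cd p1
  obtain ⟨K, hK, hb⟩ := OI_bound h hh hper r hr rper (2 / c) (by positivity)
  obtain ⟨N1, hN1⟩ := exists_nat_gt (max 1 (2 * (m0 * C + c * m0)))
  have hN1a : (1 : ℝ) < N1 := lt_of_le_of_lt (le_max_left _ _) hN1
  have hN1b : 2 * (m0 * C + c * m0) < (N1 : ℝ) := lt_of_le_of_lt (le_max_right _ _) hN1
  refine ⟨c, K, N1, hc, hK, by exact_mod_cast hN1a.le, fun N hN m => ⟨fun hm => ?_, fun hm => ?_⟩⟩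
  · have hNN : (N1 : ℝ) ≤ N := by exact_mod_cast hN
    have hlam : 0 < (N : ℝ) / 2 + c * |(m : ℝ)| := by
      have : 0 ≤ c * |(m : ℝ)| := by positivity
      linarith
    apply hb N m _ hlam
    · intro x
      refine le_trans ?_ (le_abs_self _)
      rcases le_or_gt m 0 with h0 | h0
      · have hm' : (m : ℝ) ≤ 0 := by exact_mod_cast h0
        rw [abs_of_nonpos hm']
        have := mul_le_mul_of_nonneg_left (hcl x) (neg_nonneg.mpr hm')
        nlinarith
      · have hm' : (0 : ℝ) < m := by exact_mod_cast h0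
        have hm2 : (m : ℝ) ≤ m0 := by exact_mod_cast hm.le
        rw [abs_of_pos hm']
        have e1 : (m : ℝ) * deriv h x ≤ m0 * C := by
          have : deriv h x ≤ C := le_trans (le_abs_self _) (hCu x)
          exact mul_le_mul hm2 this (hpos x).le (by positivity)
        have e2 : c * (m : ℝ) ≤ c * m0 := mul_le_mul_of_nonneg_left hm2 hc.le
        linarith
    · have : 2 / c * ((N : ℝ) / 2 + c * |(m : ℝ)|) = N / c + 2 * |(m : ℝ)| := by
        field_simp
      rw [this]
      have : 0 ≤ (N : ℝ) / c := by positivity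
      have : 0 ≤ |(m : ℝ)| := abs_nonneg _
      linarith
  · have hNpos : (0 : ℝ) < N := by
      have : (N1 : ℝ) ≤ N := by exact_mod_cast hN
      linarith
    have hmpos : (0 : ℝ) < m := lt_of_lt_of_le (by positivity) hm
    have hcm : 2 * (N : ℝ) ≤ c * m := by
      rw [div_le_iff₀ hc] at hm
      linarith
    have hlam : 0 < c * (m : ℝ) / 2 := by positivity
    have := hb N m (c * m / 2) hlam (by
      intro x
      rw [abs_sub_comm]
      refine le_trans ?_ (le_abs_self _)
      have := mul_le_mul_of_nonneg_left (hcl x) hmpos.le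
      linarith) (by
      rw [abs_of_pos hmpos]
      field_simp
      rfl)
    refine le_trans this (le_of_eq ?_)
    field_simp
    ring

theorem phase_lemma (h : ℝ → ℝ) (hh : ContDiff ℝ ∞ h) (hper : ∀ x, h (x + 2 * π) = h x + 2 * π)
    (hpos : ∀ x, 0 < deriv h x) (r : ℝ → ℂ) (hr : ContDiff ℝ ∞ r) (rper : ∀ x, r (x + 2 * π) = r x)
    (m0 : ℕ) (ε : ℝ) (hε : 0 < ε) :
    ∃ N0 : ℕ, ∀ N : ℕ, N0 ≤ N → ∃ P : Polynomial ℂ, (∀ j < m0, P.coeff j = 0) ∧
      ∀ z : ℝ, ‖P.eval (Complex.exp (Complex.I * (h z : ℂ)))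
        - r z * Complex.exp (Complex.I * ((N : ℂ) * (z : ℂ)))‖ ≤ ε := by
  classical
  obtain ⟨c, K, N1, hc, hK, hN11, hest⟩ := OI_est h hh hper hpos r hr rper m0
  have hsq : Summable fun m : ℤ => 1 / (m : ℝ) ^ 2 := Real.summable_one_div_int_pow.mpr (by norm_num)
  -- summability of the coefficients
  have hsummable : ∀ N : ℕ, N1 ≤ N → Summable fun m : ℤ => ‖OI h r N m‖ := by
    intro N hN
    apply Summable.of_norm_bounded_eventually (hsq.mul_left (4 * K / c ^ 2))
    rw [Filter.eventually_cofinite]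
    apply Set.Finite.subset (Set.finite_Icc (0 : ℤ) (max (m0 : ℤ) ⌈2 * (N : ℝ) / c⌉))
    intro m hm
    simp only [mem_ofPred_eq] at hm
    by_contra hcon
    apply hm
    rw [mem_Icc, not_and_or, not_le, not_le] at hcon
    rw [norm_norm]
    rcases hcon with h1 | h1
    · have h2 : (m : ℝ) < 0 := by exact_mod_cast h1
      refine le_trans ((hest N hN m).1 (by omega)) ?_
      rw [abs_of_neg h2]
      have hcm : 0 < c * -(m : ℝ) := mul_pos hc (by linarith)
      calc K / ((N : ℝ) / 2 + c * -(m : ℝ)) ^ 2 ≤ K / (c * -(m : ℝ)) ^ 2 := by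
            gcongr
            have : (0 : ℝ) ≤ (N : ℝ) / 2 := by positivity
            linarith
        _ = K / c ^ 2 * (1 / (m : ℝ) ^ 2) := by
            field_simp
        _ ≤ 4 * K / c ^ 2 * (1 / (m : ℝ) ^ 2) := by
            gcongr
            linarith
    · apply (hest N hN m).2
      have h2 : ⌈2 * (N : ℝ) / c⌉ ≤ m := le_trans (le_max_right _ _) h1.le
      exact le_trans (Int.le_ceil _) (by exact_mod_cast h2)
  -- the low frequencies
  set S : ℕ → ℤ → ℝ := fun N m => if m < m0 then ‖OI h r N m‖ else 0 with hS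
  have hS0 : Tendsto (fun N => ∑' m, S N m) atTop (𝓝 0) := by
    have hz : (∑' _ : ℤ, (0 : ℝ)) = 0 := tsum_zero
    rw [← hz]
    apply tendsto_tsum_of_dominated_convergence
      (bound := fun m : ℤ => K / c ^ 2 * (1 / (m : ℝ) ^ 2) + if m = 0 then 4 * K else 0)
    · apply (hsq.mul_left _).add
      apply summable_of_ne_finset_zero (s := {0})
      intro m hm
      rw [Finset.mem_singleton] at hm
      rw [if_neg hm]
    · intro m
      have hup : Tendsto (fun N : ℕ => 4 * K * (1 / (N : ℝ)) * (1 / (N : ℝ))) atTop (𝓝 0) := by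
        have := tendsto_one_div_atTop_nhds_zero_nat (𝕜 := ℝ)
        have := (this.const_mul (4 * K)).mul this
        simpa using this
      apply tendsto_of_tendsto_of_tendsto_of_le_of_le' tendsto_const_nhds hup
      · filter_upwards with N
        simp only [hS]
        split_ifs
        · positivity
        · exact le_rfl
      · filter_upwards [eventually_ge_atTop N1] with N hN
        have hNpos : (0 : ℝ) < N := by
          have : (1 : ℕ) ≤ N := le_trans hN11 hN
          exact_mod_cast this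
        simp only [hS]
        split_ifs with hm
        · refine le_trans ((hest N hN m).1 hm) ?_
          calc K / ((N : ℝ) / 2 + c * |(m : ℝ)|) ^ 2 ≤ K / ((N : ℝ) / 2) ^ 2 := by
                gcongr
                have : 0 ≤ c * |(m : ℝ)| := by positivity
                linarith
            _ = 4 * K * (1 / (N : ℝ)) * (1 / (N : ℝ)) := by field_simp; ring
        · positivity
    · filter_upwards [eventually_ge_atTop N1] with N hN m
      have hNpos : (1 : ℝ) ≤ N := by
        have : (1 : ℕ) ≤ N := le_trans hN11 hN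
        exact_mod_cast this
      simp only [hS]
      split_ifs with hm h0 h0
      · rw [norm_norm]
        refine le_trans ((hest N hN m).1 hm) ?_
        rw [h0]
        simp only [Int.cast_zero, abs_zero, mul_zero, add_zero]
        have e1 : K / ((N : ℝ) / 2) ^ 2 ≤ K / (1 / 2) ^ 2 := by gcongr
        have e2 : K / ((1 : ℝ) / 2) ^ 2 = 4 * K := by ring
        have e3 : (0 : ℝ) ≤ K / c ^ 2 * (1 / 0 ^ 2) := by positivity
        linarith
      · rw [norm_norm, add_zero]
        refine le_trans ((hest N hN m).1 hm) ?_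
        have hm0 : (m : ℝ) ≠ 0 := by exact_mod_cast h0
        have hmp : 0 < |(m : ℝ)| := abs_pos.mpr hm0
        calc K / ((N : ℝ) / 2 + c * |(m : ℝ)|) ^ 2 ≤ K / (c * |(m : ℝ)|) ^ 2 := by
              gcongr
              have : (0 : ℝ) ≤ (N : ℝ) / 2 := by positivity
              linarith
          _ = K / c ^ 2 * (1 / (m : ℝ) ^ 2) := by
              rw [mul_pow, sq_abs]
              field_simp
      · rw [norm_zero]; positivity
      · rw [norm_zero]; positivity
  have hev := (hS0.eventually (Iio_mem_nhds (show (0 : ℝ) < ε / 2 by positivity))).and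
    (eventually_ge_atTop N1)
  obtain ⟨N0, hN0⟩ := eventually_atTop.mp hev
  refine ⟨N0, fun N hN => ?_⟩
  obtain ⟨hT, hN1⟩ := hN0 N hN
  have hs := hsummable N hN1
  -- the high frequencies
  set G : ℤ → ℝ := fun m => if m < m0 then 0 else ‖OI h r N m‖ with hG
  have hSs : Summable (S N) := by
    apply Summable.of_nonneg_of_le _ _ hs
    · intro m; simp only [hS]; split_ifs
      · positivity
      · exact le_rfl
    · intro m; simp only [hS]; split_ifs
      · exact le_rfl
      · positivity
  have hGs : Summable G := by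
    apply Summable.of_nonneg_of_le _ _ hs
    · intro m; simp only [hG]; split_ifs
      · exact le_rfl
      · positivity
    · intro m; simp only [hG]; split_ifs
      · positivity
      · exact le_rfl
  obtain ⟨s, hs2⟩ := Metric.tendsto_atTop.mp hGs.hasSum (ε / 2) (by positivity)
  have hs3 := hs2 s le_rfl
  rw [Real.dist_eq, abs_lt] at hs3
  set Fs : Finset ℤ := s.filter (fun m => ¬ m < m0) with hFs
  have hGF : ∑ m ∈ Fs, G m = ∑ m ∈ s, G m := by
    rw [hFs, Finset.sum_filter]
    apply Finset.sum_congr rfl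
    intro m _
    simp only [hG]
    split_ifs <;> simp_all
  set cf : ℤ → ℂ := fun m => ((1 / (2 * π) : ℝ) : ℂ) * OI h r N m with hcf
  have hcfle : ∀ m, ‖cf m‖ ≤ ‖OI h r N m‖ := by
    intro m
    simp only [hcf]
    rw [norm_mul, Complex.norm_real]
    have h1 : ‖(1 / (2 * π) : ℝ)‖ ≤ 1 := by
      rw [Real.norm_eq_abs, abs_of_pos (by positivity)]
      rw [div_le_one (by positivity)]
      have := Real.pi_gt_three
      linarith
    calc _ ≤ 1 * ‖OI h r N m‖ := mul_le_mul_of_nonneg_right h1 (norm_nonneg _)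
      _ = _ := one_mul _
  refine ⟨∑ m ∈ Fs, Polynomial.C (cf m) * Polynomial.X ^ m.toNat, ?_, ?_⟩
  · intro j hj
    rw [Polynomial.finsetSum_coeff]
    apply Finset.sum_eq_zero
    intro m hm
    rw [Polynomial.coeff_C_mul, Polynomial.coeff_X_pow, if_neg, mul_zero]
    rw [hFs, Finset.mem_filter] at hm
    omega
  · intro z
    have hsum := exists_fourier h hh hper hpos r hr rper N hs z
    have heval : (∑ m ∈ Fs, Polynomial.C (cf m) * Polynomial.X ^ m.toNat).eval
        (Complex.exp (Complex.I * (h z : ℂ))) =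
        ∑ m ∈ Fs, cf m * Complex.exp (Complex.I * ((m : ℂ) * (h z : ℂ))) := by
      rw [Polynomial.eval_finsetSum]
      apply Finset.sum_congr rfl
      intro m hm
      rw [hFs, Finset.mem_filter] at hm
      have hm0 : ((m.toNat : ℤ)) = m := Int.toNat_of_nonneg (by omega)
      rw [Polynomial.eval_mul, Polynomial.eval_C, Polynomial.eval_pow, Polynomial.eval_X,
        ← Complex.exp_nat_mul]
      congr 2
      have : ((m.toNat : ℕ) : ℂ) = (m : ℂ) := by exact_mod_cast congrArg (Int.cast : ℤ → ℂ) hm0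
      rw [this]; ring
    rw [heval, norm_sub_rev]
    have hfin : HasSum (fun m : ℤ => if m ∈ Fs then cf m *
        Complex.exp (Complex.I * ((m : ℂ) * (h z : ℂ))) else 0)
        (∑ m ∈ Fs, cf m * Complex.exp (Complex.I * ((m : ℂ) * (h z : ℂ)))) := by
      have := hasSum_sum_of_ne_finset_zero (L := SummationFilter.unconditional ℤ) (s := Fs) (f := fun m : ℤ => if m ∈ Fs then cf m *
        Complex.exp (Complex.I * ((m : ℂ) * (h z : ℂ))) else 0) (fun m hm => if_neg hm)
      convert this using 1
      apply Finset.sum_congr rfl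
      intro m hm
      rw [if_pos hm]
    have hfin2 : HasSum (fun m : ℤ => if m ∈ Fs then G m else 0) (∑ m ∈ Fs, G m) := by
      have := hasSum_sum_of_ne_finset_zero (L := SummationFilter.unconditional ℤ) (s := Fs) (f := fun m : ℤ => if m ∈ Fs then G m else 0)
        (fun m hm => if_neg hm)
      convert this using 1
      apply Finset.sum_congr rfl
      intro m hm
      rw [if_pos hm]
    have hD := hsum.sub hfin
    have hB := hSs.hasSum.add (hGs.hasSum.sub hfin2)
    have hle := hD.norm_le_of_bounded hB (by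
      intro m
      by_cases hmF : m ∈ Fs
      · have hm2 := hmF
        rw [hFs, Finset.mem_filter] at hm2
        simp only [if_pos hmF, hcf, hS, if_neg hm2.2, hG, sub_self, norm_zero, add_zero]
        exact le_rfl
      · simp only [if_neg hmF, sub_zero]
        rw [norm_mul, mul_comm Complex.I, ← Complex.ofReal_intCast, ← Complex.ofReal_mul,
          Complex.norm_exp_ofReal_mul_I, mul_one]
        refine le_trans (hcfle m) ?_
        simp only [hS, hG]
        split_ifs <;> simp)
    refine le_trans hle ?_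
    rw [hGF]
    linarith [hs3.1]

end Pool.Agent.TH635.J187
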