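import Mathlib

set_option autoImplicit false

open MeasureTheory Set Filter Topology
open scoped Real ContDiff

namespace Pool.Agent.TH635.J188

lemma swap_int (F : ℝ → ℝ → ℝ) (hF : Continuous (Function.uncurry F)) {a b c d : ℝ} (hab : a ≤ b)
    (hcd : c ≤ d) :
    ∫ x in a..b, ∫ s in c..d, F x s = ∫ s in c..d, ∫ x in a..b, F x s := by
  simp only [intervalIntegral.integral_of_le hab, intervalIntegral.integral_of_le hcd]
  rw [MeasureTheory.integral_integral_swap]
  rw [Measure.prod_restrict]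
  have h := (hF.continuousOn (s := Icc a b ×ˢ Icc c d)).integrableOn_compact
    (μ := (volume : Measure ℝ).prod volume) (isCompact_Icc.prod isCompact_Icc)
  exact h.mono_set (Set.prod_mono Ioc_subset_Icc_self Ioc_subset_Icc_self)

lemma abs_int_le {f : ℝ → ℝ} {C a b : ℝ} (h : ∀ x ∈ uIoc a b, |f x| ≤ C) :
    |∫ x in a..b, f x| ≤ C * |b - a| := by
  have := intervalIntegral.norm_integral_le_of_norm_le_const (a := a) (b := b) (f := f) (C := C)
    (fun x hx => by rw [Real.norm_eq_abs]; exact h x hx)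
  rwa [Real.norm_eq_abs] at this

/-- reduce `x` modulo `2π` -/
lemma exists_red (x : ℝ) : ∃ k : ℤ, 0 ≤ x - k * (2 * π) ∧ x - k * (2 * π) < 2 * π := by
  have hp : 0 < 2 * π := by positivity
  refine ⟨⌊x / (2 * π)⌋, ?_, ?_⟩
  · have := Int.floor_le (x / (2 * π))
    have h2 : (⌊x / (2 * π)⌋ : ℝ) * (2 * π) ≤ x / (2 * π) * (2 * π) :=
      mul_le_mul_of_nonneg_right this hp.le
    rw [div_mul_cancel₀ _ hp.ne'] at h2
    linarith
  · have := Int.lt_floor_add_one (x / (2 * π))
    have h2 : x / (2 * π) * (2 * π) < ((⌊x / (2 * π)⌋ : ℝ) + 1) * (2 * π) :=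
      mul_lt_mul_of_pos_right this hp
    rw [div_mul_cancel₀ _ hp.ne'] at h2
    linarith

lemma per_int {f : ℝ → ℝ} (hf : ∀ x, f (x + 2 * π) = f x) (k : ℤ) (x : ℝ) :
    f (x - k * (2 * π)) = f x := by
  have h : Function.Periodic f (2 * π) := hf
  have := h.sub_zsmul_eq k (x := x)
  rwa [zsmul_eq_mul] at this

lemma bdd_unif (G : ℝ → ℝ → ℝ) (hG : Continuous (Function.uncurry G))
    (h1 : ∀ x θ, G (x + 2 * π) θ = G x θ) (h2 : ∀ x θ, G x (θ + 2 * π) = G x θ)
    (δ : ℝ) (hδ : 0 < δ) :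
    ∃ B η : ℝ, 0 < B ∧ 0 < η ∧ (∀ x θ, |G x θ| ≤ B) ∧
      ∀ x x' θ, |x - x'| < η → |G x θ - G x' θ| ≤ δ := by
  set K : Set (ℝ × ℝ) := Icc (-1) (2 * π + 1) ×ˢ Icc 0 (2 * π) with hK
  have hKc : IsCompact K := isCompact_Icc.prod isCompact_Icc
  obtain ⟨B, hB⟩ := hKc.exists_bound_of_continuousOn hG.continuousOn
  have huc := hKc.uniformContinuousOn_of_continuous hG.continuousOn
  rw [Metric.uniformContinuousOn_iff_le] at huc
  obtain ⟨η, hη, hu⟩ := huc δ hδ
  refine ⟨max B 1, min η 1, by positivity, by positivity, ?_, ?_⟩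
  · intro x θ
    obtain ⟨k, hk1, hk2⟩ := exists_red x
    obtain ⟨l, hl1, hl2⟩ := exists_red θ
    have e1 : G (x - k * (2 * π)) (θ - l * (2 * π)) = G x θ := by
      rw [per_int (f := fun t => G (x - k * (2 * π)) t) (fun t => h2 _ t) l θ]
      exact per_int (f := fun t => G t θ) (fun t => h1 t θ) k x
    rw [← e1]
    refine le_trans (hB (x - k * (2 * π), θ - l * (2 * π)) ?_) (le_max_left _ _)
    exact ⟨⟨by linarith, by linarith⟩, ⟨hl1, hl2.le⟩⟩
  · intro x x' θ hxx
    obtain ⟨k, hk1, hk2⟩ := exists_red x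
    obtain ⟨l, hl1, hl2⟩ := exists_red θ
    have e : ∀ y, G (y - k * (2 * π)) (θ - l * (2 * π)) = G y θ := by
      intro y
      rw [per_int (f := fun t => G (y - k * (2 * π)) t) (fun t => h2 _ t) l θ]
      exact per_int (f := fun t => G t θ) (fun t => h1 t θ) k y
    rw [← e x, ← e x']
    have hlt := lt_of_lt_of_le hxx (min_le_right _ _)
    rw [abs_lt] at hlt
    have := hu (x - k * (2 * π), θ - l * (2 * π)) ⟨⟨by linarith, by linarith⟩, ⟨hl1, hl2.le⟩⟩
      (x' - k * (2 * π), θ - l * (2 * π))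
      ⟨⟨by linarith [hlt.1, hlt.2], by linarith [hlt.1, hlt.2]⟩, ⟨hl1, hl2.le⟩⟩ ?_
    · rw [Real.dist_eq] at this
      exact this
    · rw [Prod.dist_eq, dist_self, Real.dist_eq]
      rw [show x - k * (2 * π) - (x' - k * (2 * π)) = x - x' by ring]
      exact max_le (le_of_lt (lt_of_lt_of_le hxx (min_le_left _ _))) hη.le

theorem homog (G : ℝ → ℝ → ℝ) (hG : Continuous (Function.uncurry G))
    (h1 : ∀ x θ, G (x + 2 * π) θ = G x θ) (h2 : ∀ x θ, G x (θ + 2 * π) = G x θ)
    (δ ℓ : ℝ) (hδ : 0 < δ) (hℓ : 0 < ℓ) :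
    ∃ N0 : ℕ, ∀ N : ℕ, N0 ≤ N → ∀ a b : ℝ, ℓ ≤ b - a →
      |(∫ x in a..b, G x (N * x)) - ∫ x in a..b, (1 / (2 * π)) * ∫ θ in (0:ℝ)..(2 * π), G x θ|
        ≤ δ * (b - a) := by
  have hpi : 0 < π := Real.pi_pos
  obtain ⟨B, η, hB, hη, hbd, hun⟩ := bdd_unif G hG h1 h2 (δ / 2) (by positivity)
  obtain ⟨N0, hN0⟩ := exists_nat_gt (max (2 * π / η) (max (8 * π * B / (δ * ℓ)) 1))
  refine ⟨N0, fun N hN a b hab => ?_⟩
  have hNN : max (2 * π / η) (max (8 * π * B / (δ * ℓ)) 1) < N :=
    lt_of_lt_of_le hN0 (by exact_mod_cast hN)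
  have hN1 : 2 * π / η < N := lt_of_le_of_lt (le_max_left _ _) hNN
  have hN2 : 8 * π * B / (δ * ℓ) < N :=
    lt_of_le_of_lt (le_trans (le_max_left _ _) (le_max_right _ _)) hNN
  have hN3 : (1 : ℝ) < N :=
    lt_of_le_of_lt (le_trans (le_max_right _ _) (le_max_right _ _)) hNN
  have hNpos : (0 : ℝ) < N := by linarith
  have hab' : a ≤ b := by linarith
  set F : ℝ → ℝ := fun x => G x (N * x) with hF
  have hFc : Continuous F := hG.comp (by fun_prop : Continuous fun x : ℝ => (x, (N : ℝ) * x))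
  have hFi : ∀ u v : ℝ, IntervalIntegrable F volume u v := fun u v => hFc.intervalIntegrable u v
  set J : ℝ → ℝ := fun s => ∫ x in a..b, G x (N * x + s) with hJ
  -- the shifted integrals
  have key : ∀ s ∈ Icc (0:ℝ) (2 * π), |(∫ x in a..b, F x) - J s| ≤ δ * (b - a) := by
    intro s hs
    set c : ℝ := s / N with hc
    have hc0 : 0 ≤ c := div_nonneg hs.1 hNpos.le
    have hNc : (N : ℝ) * c = s := by rw [hc]; field_simp
    have hcle : c ≤ 2 * π / N := by
      rw [hc]; gcongr; exact hs.2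
    have hcη : c < η := by
      refine lt_of_le_of_lt hcle ?_
      rw [div_lt_iff₀ hNpos]
      rw [div_lt_iff₀ hη] at hN1
      linarith
    have e1 : |(∫ x in a..b, F x) - ∫ x in a..b, F (x + c)| ≤ 2 * B * c := by
      rw [intervalIntegral.integral_comp_add_right (fun x => F x) c,
        intervalIntegral.integral_interval_sub_interval_comm (hFi _ _) (hFi _ _) (hFi _ _)]
      have b1 : |∫ x in a..a + c, F x| ≤ B * |a + c - a| :=
        abs_int_le fun x _ => hbd _ _
      have b2 : |∫ x in b..b + c, F x| ≤ B * |b + c - b| :=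
        abs_int_le fun x _ => hbd _ _
      rw [add_sub_cancel_left, abs_of_nonneg hc0] at b1 b2
      calc |(∫ x in a..a + c, F x) - ∫ x in b..b + c, F x|
          ≤ |∫ x in a..a + c, F x| + |∫ x in b..b + c, F x| := abs_sub _ _
        _ ≤ 2 * B * c := by linarith
    have e2 : |(∫ x in a..b, F (x + c)) - J s| ≤ δ / 2 * (b - a) := by
      rw [hJ]
      simp only
      rw [← intervalIntegral.integral_sub]
      · have : |∫ x in a..b, (F (x + c) - G x (N * x + s))| ≤ δ / 2 * |b - a| := by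
          apply abs_int_le
          intro x _
          rw [hF]
          simp only
          rw [mul_add, hNc]
          apply hun
          rw [add_sub_cancel_left, abs_of_nonneg hc0]
          exact hcη
        rwa [abs_of_nonneg (by linarith : 0 ≤ b - a)] at this
      · exact (hFc.comp (by fun_prop)).intervalIntegrable _ _
      · exact (hG.comp (by fun_prop :
          Continuous fun x : ℝ => (x, (N : ℝ) * x + s))).intervalIntegrable _ _
    have e3 : 2 * B * c ≤ δ / 2 * (b - a) := by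
      have : 8 * π * B < N * (δ * ℓ) := by
        rwa [div_lt_iff₀ (by positivity)] at hN2
      have h4 : 2 * B * c ≤ 2 * B * (2 * π / N) := by gcongr
      have h5 : 2 * B * (2 * π / N) ≤ δ / 2 * ℓ := by
        rw [show 2 * B * (2 * π / N) = (4 * π * B) / N by ring, div_le_iff₀ hNpos]
        nlinarith
      have h6 : δ / 2 * ℓ ≤ δ / 2 * (b - a) := by gcongr
      linarith
    calc |(∫ x in a..b, F x) - J s|
        ≤ |(∫ x in a..b, F x) - ∫ x in a..b, F (x + c)| + |(∫ x in a..b, F (x + c)) - J s| :=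
          abs_sub_le _ _ _
      _ ≤ δ * (b - a) := by linarith
  -- averaging
  have hGc2 : Continuous (Function.uncurry fun x s : ℝ => G x (N * x + s)) :=
    hG.comp (by fun_prop : Continuous fun p : ℝ × ℝ => (p.1, (N : ℝ) * p.1 + p.2))
  have hJc : Continuous J := by
    have : Continuous (Function.uncurry fun s x : ℝ => G x (N * x + s)) :=
      hG.comp (by fun_prop : Continuous fun p : ℝ × ℝ => (p.2, (N : ℝ) * p.2 + p.1))
    exact intervalIntegral.continuous_parametric_intervalIntegral_of_continuous' this a b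
  have hav : ∫ s in (0:ℝ)..(2 * π), J s = ∫ x in a..b, ∫ θ in (0:ℝ)..(2 * π), G x θ := by
    rw [hJ, ← swap_int _ hGc2 hab' (by positivity)]
    apply intervalIntegral.integral_congr
    intro x _
    simp only
    have e : ∫ s in (0:ℝ)..(2 * π), G x (N * x + s) = ∫ s in (N * x)..(N * x + 2 * π), G x s := by
      rw [intervalIntegral.integral_comp_add_left (fun t => G x t) ((N : ℝ) * x), add_zero]
    rw [e]
    have hp : Function.Periodic (fun t => G x t) (2 * π) := fun t => h2 x t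
    rw [hp.intervalIntegral_add_eq (N * x) 0, zero_add]
  have hconst : (∫ x in a..b, F x) = (1 / (2 * π)) * ∫ s in (0:ℝ)..(2 * π), (∫ x in a..b, F x) := by
    rw [intervalIntegral.integral_const, smul_eq_mul]
    field_simp
    ring
  have hfin : (∫ x in a..b, F x) - ∫ x in a..b, (1 / (2 * π)) * ∫ θ in (0:ℝ)..(2 * π), G x θ =
      (1 / (2 * π)) * ∫ s in (0:ℝ)..(2 * π), ((∫ x in a..b, F x) - J s) := by
    rw [intervalIntegral.integral_sub (by simp) (hJc.intervalIntegrable _ _), mul_sub, ← hconst,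
      hav, intervalIntegral.integral_const_mul]
  rw [hfin, abs_mul, abs_of_pos (by positivity : 0 < 1 / (2 * π))]
  have hb : |∫ s in (0:ℝ)..(2 * π), ((∫ x in a..b, F x) - J s)| ≤
      (δ * (b - a)) * |2 * π - 0| := by
    apply abs_int_le
    intro s hs
    rw [uIoc_of_le (by positivity)] at hs
    exact key s ⟨hs.1.le, hs.2⟩
  rw [sub_zero, abs_of_pos (by positivity : 0 < 2 * π)] at hb
  calc 1 / (2 * π) * |∫ s in (0:ℝ)..(2 * π), ((∫ x in a..b, F x) - J s)|
      ≤ 1 / (2 * π) * ((δ * (b - a)) * (2 * π)) := by gcongr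
    _ = δ * (b - a) := by field_simp

end Pool.Agent.TH635.J188
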