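import Mathlib
import Pool.Agent.H438R2.RZ.P9
import Pool.Agent.TH278.Defs
set_option autoImplicit false

/-! # Job 636 (MP_c7bdf0_an): the vector valued bound for the full annulus from the one for arcs -/

namespace Pool.Agent.TH635.J636

open MeasureTheory Set Complex
open scoped ENNReal RealInnerProductSpace
open Pool.Agent.H438R2.RZ (e Good ft Pl Bump mA mC Arc Win sl SL Bk gA TR)
open Pool.Agent.H438R2.RZ.P9aux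
open Pool.Agent.TH278 (mAr mV GoodF VVA VVR)

theorem sq_add_le (a b : ℝ≥0∞) : (a + b) ^ 2 ≤ 4 * (a ^ 2 + b ^ 2) := by
  rcases le_total a b with h | h
  · calc (a + b) ^ 2 ≤ (b + b) ^ 2 := by gcongr
      _ = 4 * b ^ 2 := by ring
      _ ≤ _ := by gcongr; exact le_add_self
  · calc (a + b) ^ 2 ≤ (a + a) ^ 2 := by gcongr
      _ = 4 * a ^ 2 := by ring
      _ ≤ _ := by gcongr; exact le_self_add

theorem meas_ftF {Z : Type} [MeasurableSpace Z] {G : Z → ℝ × ℝ → ℂ}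
    (hG : Measurable (Function.uncurry G)) :
    Measurable (fun p : Z × (ℝ × ℝ) => ft (G p.1) p.2) := by
  have h : Measurable (fun p : (Z × (ℝ × ℝ)) × (ℝ × ℝ) =>
      e (-(p.2.1 * p.1.2.1 + p.2.2 * p.1.2.2)) * G p.1.1 p.2) := by
    refine Measurable.mul (e_meas.comp (by fun_prop)) ?_
    exact hG.comp (g := Function.uncurry G) (f := fun p : (Z × (ℝ × ℝ)) × (ℝ × ℝ) =>
      (p.1.1, p.2)) (by fun_prop)
  exact h.stronglyMeasurable.integral_prod_right'.measurable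

theorem meas_PlF {Z : Type} [MeasurableSpace Z] {G m : Z → ℝ × ℝ → ℂ}
    (hm : Measurable (Function.uncurry m)) (hG : Measurable (Function.uncurry G)) :
    Measurable (fun p : Z × (ℝ × ℝ) => Pl (m p.1) (G p.1) p.2) := by
  have h : Measurable (fun p : (Z × (ℝ × ℝ)) × (ℝ × ℝ) =>
      m p.1.1 p.2 * ft (G p.1.1) p.2 * e (p.1.2.1 * p.2.1 + p.1.2.2 * p.2.2)) := by
    refine Measurable.mul (Measurable.mul ?_ ?_) (e_meas.comp (by fun_prop))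
    · exact hm.comp (g := Function.uncurry m) (f := fun p : (Z × (ℝ × ℝ)) × (ℝ × ℝ) =>
        (p.1.1, p.2)) (by fun_prop)
    · exact (meas_ftF hG).comp (f := fun p : (Z × (ℝ × ℝ)) × (ℝ × ℝ) =>
        (p.1.1, p.2)) (by fun_prop)
  exact h.stronglyMeasurable.integral_prod_right'.measurable

theorem vpiece (σ : (ℝ × ℝ) ≃ᵐ (ℝ × ℝ)) (hσ : MeasurePreserving σ volume volume)
    (hip : ∀ z ξ : ℝ × ℝ, (σ z).1 * (σ ξ).1 + (σ z).2 * (σ ξ).2 = z.1 * ξ.1 + z.2 * ξ.2)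
    (hb : ∀ (z : ℝ × ℝ) (B : ℝ), |z.1| ≤ B ∧ |z.2| ≤ B → |(σ z).1| ≤ B ∧ |(σ z).2| ≤ B)
    {Z : Type} [MeasurableSpace Z] (ν : Measure Z) (m : Z → ℝ × ℝ → ℂ) (K : ℝ≥0∞)
    (h : ∀ G : Z → ℝ × ℝ → ℂ, GoodF G →
      ∫⁻ z, (∫⁻ ζ, ‖Pl (m ζ) (G ζ) z‖ₑ ^ 2 ∂ν) ^ 2 ≤ K * ∫⁻ z, (∫⁻ ζ, ‖G ζ z‖ₑ ^ 2 ∂ν) ^ 2)
    (G : Z → ℝ × ℝ → ℂ) (hG : GoodF G) :
    ∫⁻ z, (∫⁻ ζ, ‖Pl (fun ξ => m ζ (σ ξ)) (G ζ) z‖ₑ ^ 2 ∂ν) ^ 2 ≤
      K * ∫⁻ z, (∫⁻ ζ, ‖G ζ z‖ₑ ^ 2 ∂ν) ^ 2 := by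
  have hG' : GoodF (fun ζ w => G ζ (σ.symm w)) := by
    obtain ⟨h1, ⟨M, hM⟩, ⟨B, hB⟩⟩ := hG
    refine ⟨?_, ⟨M, fun ζ z => hM _ _⟩, ⟨B, fun ζ z hz => ?_⟩⟩
    · exact h1.comp (g := Function.uncurry G) (f := fun p : Z × (ℝ × ℝ) => (p.1, σ.symm p.2))
        (measurable_fst.prodMk (σ.symm.measurable.comp measurable_snd))
    · have := hb _ B (hB _ _ hz)
      rwa [MeasurableEquiv.apply_symm_apply] at this
  have h1 := h _ hG'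
  simp only [Pl_sym σ hσ hip]
  have e1 : ∫⁻ z, (∫⁻ ζ, ‖Pl (m ζ) (fun w => G ζ (σ.symm w)) (σ z)‖ₑ ^ 2 ∂ν) ^ 2 =
      ∫⁻ z, (∫⁻ ζ, ‖Pl (m ζ) (fun w => G ζ (σ.symm w)) z‖ₑ ^ 2 ∂ν) ^ 2 :=
    hσ.lintegral_comp_emb σ.measurableEmbedding
      (fun z => (∫⁻ ζ, ‖Pl (m ζ) (fun w => G ζ (σ.symm w)) z‖ₑ ^ 2 ∂ν) ^ 2)
  have e2 : ∫⁻ z, (∫⁻ ζ, ‖G ζ (σ.symm z)‖ₑ ^ 2 ∂ν) ^ 2 = ∫⁻ z, (∫⁻ ζ, ‖G ζ z‖ₑ ^ 2 ∂ν) ^ 2 := by
    have h2 := hσ.lintegral_comp_emb σ.measurableEmbedding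
      (fun z => (∫⁻ ζ, ‖G ζ (σ.symm z)‖ₑ ^ 2 ∂ν) ^ 2)
    simp only [MeasurableEquiv.symm_apply_apply] at h2
    exact h2.symm
  rw [e1, ← e2]
  exact h1

/-! ### the arc multipliers of radius `r` -/

theorem mAr_int (ψ α β : ℝ → ℝ) (hψ : Bump ψ) (hα : Continuous α) (hβ : Continuous β)
    (L r : ℝ) (hr : 0 < r) (hL : 10 ≤ L * r) : Integrable (mAr ψ α β L r) := by
  obtain ⟨-, i1⟩ := piece_int ψ hψ (L * r) hL (fun ξ => α ξ.1 * β ξ.2) (by fun_prop)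
  have h := i1.comp_smul (R := r⁻¹) (inv_ne_zero hr.ne')
  refine h.congr (Filter.Eventually.of_forall fun ξ => ?_)
  show _ = mA ψ α β (L * r) (ξ.1 / r, ξ.2 / r)
  unfold mA
  simp only [Prod.smul_fst, Prod.smul_snd, smul_eq_mul, div_eq_inv_mul]

theorem mAr_meas {Z : Type} [MeasurableSpace Z] (ψ α β : ℝ → ℝ) (hψ : Bump ψ)
    (hα : Continuous α) (hβ : Continuous β) (L : ℝ) (r : Z → ℝ) (hr : Measurable r) :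
    Measurable (Function.uncurry (fun ζ => mAr ψ α β L (r ζ))) := by
  have hψc : Measurable ψ := hψ.1.continuous.measurable
  have h1 : Measurable α := hα.measurable
  have h2 : Measurable β := hβ.measurable
  have h3 : Measurable (fun p : Z × (ℝ × ℝ) => r p.1) := hr.comp measurable_fst
  have h4 : Measurable (fun p : Z × (ℝ × ℝ) => p.2.1 / r p.1) :=
    Measurable.div (by fun_prop) h3
  have h5 : Measurable (fun p : Z × (ℝ × ℝ) => p.2.2 / r p.1) :=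
    Measurable.div (by fun_prop) h3
  have h6 : Measurable (fun p : Z × (ℝ × ℝ) => (L * r p.1) ^ 2 *
      (1 - ((p.2.1 / r p.1) ^ 2 + (p.2.2 / r p.1) ^ 2))) := by
    refine Measurable.mul ((measurable_const.mul h3).pow_const 2)
      (measurable_const.sub ((h4.pow_const 2).add (h5.pow_const 2)))
  exact Complex.measurable_ofReal.comp
    (((h1.comp h4).mul (h2.comp h5)).mul (hψc.comp h6))

/-- the decomposition of the annulus -/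
theorem mV_eq (ψ : ℝ → ℝ) (hψ : Bump ψ) (L r : ℝ) (hr : 0 < r) (hL : 10 ≤ L * r) (ξ : ℝ × ℝ) :
    mV ψ L (r ^ 2) ξ = mAr ψ chi th L r ξ + mAr ψ chi th L r (rf ξ) +
      mAr ψ (fun _ => 1) u L r (sw ξ) + mAr ψ (fun _ => 1) u L r ((sw.trans rf) ξ) := by
  have e1 : mAr ψ chi th L r ξ = ((chi (ξ.1 / r) * th (ξ.2 / r) *
      ψ ((L * r) ^ 2 * (1 - ((ξ.1 / r) ^ 2 + (ξ.2 / r) ^ 2))) : ℝ) : ℂ) := rfl
  have e2 : mAr ψ chi th L r (rf ξ) = ((chi (ξ.1 / r) * th (-(ξ.2 / r)) *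
      ψ ((L * r) ^ 2 * (1 - ((ξ.1 / r) ^ 2 + (ξ.2 / r) ^ 2))) : ℝ) : ℂ) := by
    show ((chi (ξ.1 / r) * th ((-ξ.2) / r) *
      ψ ((L * r) ^ 2 * (1 - ((ξ.1 / r) ^ 2 + ((-ξ.2) / r) ^ 2))) : ℝ) : ℂ) = _
    rw [neg_div, neg_sq]
  have e3 : mAr ψ (fun _ => 1) u L r (sw ξ) = ((u (ξ.1 / r) *
      ψ ((L * r) ^ 2 * (1 - ((ξ.1 / r) ^ 2 + (ξ.2 / r) ^ 2))) : ℝ) : ℂ) := by
    show ((1 * u (ξ.1 / r) *
      ψ ((L * r) ^ 2 * (1 - ((ξ.2 / r) ^ 2 + (ξ.1 / r) ^ 2))) : ℝ) : ℂ) = _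
    rw [one_mul, add_comm ((ξ.2 / r) ^ 2)]
  have e4 : mAr ψ (fun _ => 1) u L r ((sw.trans rf) ξ) = ((u (-(ξ.1 / r)) *
      ψ ((L * r) ^ 2 * (1 - ((ξ.1 / r) ^ 2 + (ξ.2 / r) ^ 2))) : ℝ) : ℂ) := by
    show ((1 * u ((-ξ.1) / r) *
      ψ ((L * r) ^ 2 * (1 - ((ξ.2 / r) ^ 2 + ((-ξ.1) / r) ^ 2))) : ℝ) : ℂ) = _
    rw [one_mul, add_comm ((ξ.2 / r) ^ 2), neg_div, neg_sq]
  have e0 : mV ψ L (r ^ 2) ξ =
      ((ψ ((L * r) ^ 2 * (1 - ((ξ.1 / r) ^ 2 + (ξ.2 / r) ^ 2))) : ℝ) : ℂ) := by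
    show ((ψ (L ^ 2 * (r ^ 2 - (ξ.1 ^ 2 + ξ.2 ^ 2))) : ℝ) : ℂ) = _
    have h0 : L ^ 2 * (r ^ 2 - (ξ.1 ^ 2 + ξ.2 ^ 2)) =
        (L * r) ^ 2 * (1 - ((ξ.1 / r) ^ 2 + (ξ.2 / r) ^ 2)) := by
      have := hr.ne'
      field_simp
    rw [h0]
  rw [e0, e1, e2, e3, e4]
  by_cases h0 : ψ ((L * r) ^ 2 * (1 - ((ξ.1 / r) ^ 2 + (ξ.2 / r) ^ 2))) = 0
  · rw [h0]; simp
  · have h1 := part_one (mR_ne ψ hψ hL (ξ := (ξ.1 / r, ξ.2 / r)) h0).1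
    have h2 : ψ ((L * r) ^ 2 * (1 - ((ξ.1 / r) ^ 2 + (ξ.2 / r) ^ 2))) =
        chi (ξ.1 / r) * th (ξ.2 / r) *
          ψ ((L * r) ^ 2 * (1 - ((ξ.1 / r) ^ 2 + (ξ.2 / r) ^ 2))) +
        chi (ξ.1 / r) * th (-(ξ.2 / r)) *
          ψ ((L * r) ^ 2 * (1 - ((ξ.1 / r) ^ 2 + (ξ.2 / r) ^ 2))) +
        u (ξ.1 / r) * ψ ((L * r) ^ 2 * (1 - ((ξ.1 / r) ^ 2 + (ξ.2 / r) ^ 2))) +
        u (-(ξ.1 / r)) * ψ ((L * r) ^ 2 * (1 - ((ξ.1 / r) ^ 2 + (ξ.2 / r) ^ 2))) := by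
      have h3 : chi (ξ.1 / r) * th (ξ.2 / r) + chi (ξ.1 / r) * th (-(ξ.2 / r)) +
        u (ξ.1 / r) + u (-(ξ.1 / r)) = 1 := h1
      linear_combination (-ψ ((L * r) ^ 2 * (1 - ((ξ.1 / r) ^ 2 + (ξ.2 / r) ^ 2)))) * h3
    conv_lhs => rw [h2]
    push_cast
    rfl

theorem Pl_add4 (m1 m2 m3 m4 g : ℝ × ℝ → ℂ) (i1 : Integrable m1) (i2 : Integrable m2)
    (i3 : Integrable m3) (i4 : Integrable m4) (hg : Measurable g) (m : ℝ × ℝ → ℂ)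
    (hm : ∀ ξ, m ξ = m1 ξ + m2 ξ + m3 ξ + m4 ξ) (z : ℝ × ℝ) :
    Pl m g z = Pl m1 g z + Pl m2 g z + (Pl m3 g z + Pl m4 g z) := by
  have j1 := Pl_int m1 g i1 hg z
  have j2 := Pl_int m2 g i2 hg z
  have j3 := Pl_int m3 g i3 hg z
  have j4 := Pl_int m4 g i4 hg z
  have k12 := j1.add j2
  have k34 := j3.add j4
  have k := integral_add k12 k34
  have k1 : ∫ ξ, ((fun ξ : ℝ × ℝ => m1 ξ * ft g ξ * e (z.1 * ξ.1 + z.2 * ξ.2)) +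
      fun ξ => m2 ξ * ft g ξ * e (z.1 * ξ.1 + z.2 * ξ.2)) ξ = Pl m1 g z + Pl m2 g z :=
    integral_add j1 j2
  have k2 : ∫ ξ, ((fun ξ : ℝ × ℝ => m3 ξ * ft g ξ * e (z.1 * ξ.1 + z.2 * ξ.2)) +
      fun ξ => m4 ξ * ft g ξ * e (z.1 * ξ.1 + z.2 * ξ.2)) ξ = Pl m3 g z + Pl m4 g z :=
    integral_add j3 j4
  rw [k1, k2] at k
  rw [← k]
  unfold Pl
  refine integral_congr_ae (Filter.Eventually.of_forall fun ξ => ?_)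
  simp only [hm, Pi.add_apply]
  ring

theorem norm4 (a b c d : ℂ) : ‖a + b + (c + d)‖ₑ ^ 2 ≤
    16 * ((‖a‖ₑ ^ 2 + ‖b‖ₑ ^ 2) + (‖c‖ₑ ^ 2 + ‖d‖ₑ ^ 2)) := by
  calc ‖a + b + (c + d)‖ₑ ^ 2
      ≤ ((‖a‖ₑ + ‖b‖ₑ) + (‖c‖ₑ + ‖d‖ₑ)) ^ 2 := by
        gcongr
        exact (enorm_add_le _ _).trans (add_le_add (enorm_add_le _ _) (enorm_add_le _ _))
    _ ≤ 4 * ((‖a‖ₑ + ‖b‖ₑ) ^ 2 + (‖c‖ₑ + ‖d‖ₑ) ^ 2) := sq_add_le _ _
    _ ≤ 4 * (4 * (‖a‖ₑ ^ 2 + ‖b‖ₑ ^ 2) + 4 * (‖c‖ₑ ^ 2 + ‖d‖ₑ ^ 2)) := by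
        gcongr
        · exact sq_add_le _ _
        · exact sq_add_le _ _
    _ = _ := by ring

theorem lint4 {X : Type*} [MeasurableSpace X] (μ : Measure X) (c : ℝ≥0∞)
    (a1 a2 a3 a4 : X → ℝ≥0∞) (h1 : Measurable a1) (h2 : Measurable a2) (h3 : Measurable a3)
    (h4 : Measurable a4) :
    ∫⁻ x, c * ((a1 x + a2 x) + (a3 x + a4 x)) ∂μ =
      c * (((∫⁻ x, a1 x ∂μ) + (∫⁻ x, a2 x ∂μ)) + ((∫⁻ x, a3 x ∂μ) + (∫⁻ x, a4 x ∂μ))) := by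
  rw [lintegral_const_mul _ (by fun_prop), lintegral_add_left (by fun_prop),
    lintegral_add_left (by fun_prop), lintegral_add_left (by fun_prop)]

theorem VVR_of (h : ∀ ψ α β : ℝ → ℝ, Bump ψ → Arc α β → ∃ C : ℝ, 0 < C ∧ VVA ψ α β C)
    (ψ : ℝ → ℝ) (hψ : Bump ψ) : ∃ C : ℝ, 0 < C ∧ VVR ψ C := by
  obtain ⟨C1, hC1, H1⟩ := h ψ chi th hψ arc1
  obtain ⟨C2, hC2, H2⟩ := h ψ (fun _ => 1) u hψ arc2
  refine ⟨8192 * (C1 + C2), by positivity, ?_⟩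
  intro L hL Z _ ν _ r hrm hr G hG
  have uc : Continuous u := u_smooth.continuous
  have tc : Continuous th := th_smooth.continuous
  have cc : Continuous chi := chi_smooth.continuous
  have hr0 : ∀ ζ, 0 < r ζ := fun ζ => by linarith [(hr ζ).1]
  have hLr : ∀ ζ, 10 ≤ L * r ζ := fun ζ => by nlinarith [(hr ζ).1]
  set K1 : ℝ≥0∞ := ENNReal.ofReal (C1 * (1 + Real.log L) ^ 2) with hK1
  set K2 : ℝ≥0∞ := ENNReal.ofReal (C2 * (1 + Real.log L) ^ 2) with hK2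
  set m1 : Z → ℝ × ℝ → ℂ := fun ζ ξ => mAr ψ chi th L (r ζ) ξ with hm1
  set m2 : Z → ℝ × ℝ → ℂ := fun ζ ξ => mAr ψ chi th L (r ζ) (rf ξ) with hm2
  set m3 : Z → ℝ × ℝ → ℂ := fun ζ ξ => mAr ψ (fun _ => 1) u L (r ζ) (sw ξ) with hm3
  set m4 : Z → ℝ × ℝ → ℂ := fun ζ ξ => mAr ψ (fun _ => 1) u L (r ζ) ((sw.trans rf) ξ) with hm4
  set J := ∫⁻ z, (∫⁻ ζ, ‖G ζ z‖ₑ ^ 2 ∂ν) ^ 2 with hJ
  have p1 : ∫⁻ z, (∫⁻ ζ, ‖Pl (m1 ζ) (G ζ) z‖ₑ ^ 2 ∂ν) ^ 2 ≤ K1 * J :=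
    H1 L hL Z ν r hrm hr G hG
  have p2 : ∫⁻ z, (∫⁻ ζ, ‖Pl (m2 ζ) (G ζ) z‖ₑ ^ 2 ∂ν) ^ 2 ≤ K1 * J :=
    vpiece rf rf_mp
      (fun z ξ => by
        show z.1 * ξ.1 + (-z.2) * (-ξ.2) = _
        ring)
      (fun z B hz => by
        show |z.1| ≤ B ∧ |-z.2| ≤ B
        rwa [abs_neg])
      ν (fun ζ => mAr ψ chi th L (r ζ)) K1 (H1 L hL Z ν r hrm hr) G hG
  have p3 : ∫⁻ z, (∫⁻ ζ, ‖Pl (m3 ζ) (G ζ) z‖ₑ ^ 2 ∂ν) ^ 2 ≤ K2 * J :=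
    vpiece sw sw_mp
      (fun z ξ => by
        show z.2 * ξ.2 + z.1 * ξ.1 = _
        ring)
      (fun z B hz => by
        show |z.2| ≤ B ∧ |z.1| ≤ B
        exact hz.symm)
      ν (fun ζ => mAr ψ (fun _ => 1) u L (r ζ)) K2 (H2 L hL Z ν r hrm hr) G hG
  have p4 : ∫⁻ z, (∫⁻ ζ, ‖Pl (m4 ζ) (G ζ) z‖ₑ ^ 2 ∂ν) ^ 2 ≤ K2 * J :=
    vpiece (sw.trans rf) (rf_mp.comp sw_mp)
      (fun z ξ => by
        show z.2 * ξ.2 + (-z.1) * (-ξ.1) = _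
        ring)
      (fun z B hz => by
        show |z.2| ≤ B ∧ |-z.1| ≤ B
        rw [abs_neg]
        exact hz.symm)
      ν (fun ζ => mAr ψ (fun _ => 1) u L (r ζ)) K2 (H2 L hL Z ν r hrm hr) G hG
  -- integrability and measurability
  have i1 : ∀ ζ, Integrable (m1 ζ) := fun ζ => mAr_int ψ chi th hψ cc tc L (r ζ) (hr0 ζ) (hLr ζ)
  have i2 : ∀ ζ, Integrable (m2 ζ) := fun ζ =>
    rf_mp.integrable_comp_of_integrable (mAr_int ψ chi th hψ cc tc L (r ζ) (hr0 ζ) (hLr ζ))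
  have i3 : ∀ ζ, Integrable (m3 ζ) := fun ζ =>
    sw_mp.integrable_comp_of_integrable
      (mAr_int ψ (fun _ => 1) u hψ continuous_const uc L (r ζ) (hr0 ζ) (hLr ζ))
  have i4 : ∀ ζ, Integrable (m4 ζ) := fun ζ =>
    (rf_mp.comp sw_mp).integrable_comp_of_integrable
      (mAr_int ψ (fun _ => 1) u hψ continuous_const uc L (r ζ) (hr0 ζ) (hLr ζ))
  have n1 : Measurable (Function.uncurry m1) := mAr_meas ψ chi th hψ cc tc L r hrm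
  have n2 : Measurable (Function.uncurry m2) := by
    exact (mAr_meas ψ chi th hψ cc tc L r hrm).comp (f := fun p : Z × (ℝ × ℝ) => (p.1, rf p.2))
      (measurable_fst.prodMk (rf.measurable.comp measurable_snd))
  have n3 : Measurable (Function.uncurry m3) := by
    exact (mAr_meas ψ (fun _ => 1) u hψ continuous_const uc L r hrm).comp
      (f := fun p : Z × (ℝ × ℝ) => (p.1, sw p.2))
      (measurable_fst.prodMk (sw.measurable.comp measurable_snd))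
  have n4 : Measurable (Function.uncurry m4) := by
    exact (mAr_meas ψ (fun _ => 1) u hψ continuous_const uc L r hrm).comp
      (f := fun p : Z × (ℝ × ℝ) => (p.1, (sw.trans rf) p.2))
      (measurable_fst.prodMk ((sw.trans rf).measurable.comp measurable_snd))
  have q1 := (meas_PlF n1 hG.1)
  have q2 := (meas_PlF n2 hG.1)
  have q3 := (meas_PlF n3 hG.1)
  have q4 := (meas_PlF n4 hG.1)
  have hsec : ∀ (m : Z → ℝ × ℝ → ℂ),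
      Measurable (fun p : Z × (ℝ × ℝ) => Pl (m p.1) (G p.1) p.2) →
      ∀ z, Measurable (fun ζ => ‖Pl (m ζ) (G ζ) z‖ₑ ^ 2) := by
    intro m hm z
    have h1 : Measurable (fun ζ => Pl (m ζ) (G ζ) z) :=
      hm.comp (f := fun ζ : Z => (ζ, z)) (by fun_prop)
    exact h1.enorm.pow_const 2
  have hout : ∀ (m : Z → ℝ × ℝ → ℂ),
      Measurable (fun p : Z × (ℝ × ℝ) => Pl (m p.1) (G p.1) p.2) →
      Measurable (fun z => (∫⁻ ζ, ‖Pl (m ζ) (G ζ) z‖ₑ ^ 2 ∂ν) ^ 2) := by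
    intro m hm
    have h1 : Measurable (fun p : (ℝ × ℝ) × Z => ‖Pl (m p.2) (G p.2) p.1‖ₑ ^ 2) := by
      have h2 : Measurable (fun p : (ℝ × ℝ) × Z => Pl (m p.2) (G p.2) p.1) :=
        hm.comp (f := fun p : (ℝ × ℝ) × Z => (p.2, p.1)) (by fun_prop)
      exact h2.enorm.pow_const 2
    exact (h1.lintegral_prod_right').pow_const 2
  set A1 : ℝ × ℝ → ℝ≥0∞ := fun z => ∫⁻ ζ, ‖Pl (m1 ζ) (G ζ) z‖ₑ ^ 2 ∂ν with hA1
  set A2 : ℝ × ℝ → ℝ≥0∞ := fun z => ∫⁻ ζ, ‖Pl (m2 ζ) (G ζ) z‖ₑ ^ 2 ∂ν with hA2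
  set A3 : ℝ × ℝ → ℝ≥0∞ := fun z => ∫⁻ ζ, ‖Pl (m3 ζ) (G ζ) z‖ₑ ^ 2 ∂ν with hA3
  set A4 : ℝ × ℝ → ℝ≥0∞ := fun z => ∫⁻ ζ, ‖Pl (m4 ζ) (G ζ) z‖ₑ ^ 2 ∂ν with hA4
  have o1 : Measurable (fun z => A1 z ^ 2) := hout m1 q1
  have o2 : Measurable (fun z => A2 z ^ 2) := hout m2 q2
  have o3 : Measurable (fun z => A3 z ^ 2) := hout m3 q3
  have o4 : Measurable (fun z => A4 z ^ 2) := hout m4 q4
  have hinner : ∀ z, ∫⁻ ζ, ‖Pl (mV ψ L (r ζ ^ 2)) (G ζ) z‖ₑ ^ 2 ∂ν ≤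
      16 * ((A1 z + A2 z) + (A3 z + A4 z)) := by
    intro z
    have s1 := hsec m1 q1 z
    have s2 := hsec m2 q2 z
    have s3 := hsec m3 q3 z
    have s4 := hsec m4 q4 z
    calc ∫⁻ ζ, ‖Pl (mV ψ L (r ζ ^ 2)) (G ζ) z‖ₑ ^ 2 ∂ν
        ≤ ∫⁻ ζ, 16 * ((‖Pl (m1 ζ) (G ζ) z‖ₑ ^ 2 + ‖Pl (m2 ζ) (G ζ) z‖ₑ ^ 2) +
            (‖Pl (m3 ζ) (G ζ) z‖ₑ ^ 2 + ‖Pl (m4 ζ) (G ζ) z‖ₑ ^ 2)) ∂ν := by
          refine lintegral_mono fun ζ => ?_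
          simp only
          rw [Pl_add4 (m1 ζ) (m2 ζ) (m3 ζ) (m4 ζ) (G ζ) (i1 ζ) (i2 ζ) (i3 ζ) (i4 ζ)
            (hG.1.comp (f := fun z : ℝ × ℝ => (ζ, z)) (by fun_prop))
            (mV ψ L (r ζ ^ 2)) (fun ξ => mV_eq ψ hψ L (r ζ) (hr0 ζ) (hLr ζ) ξ) z]
          exact norm4 _ _ _ _
      _ = 16 * ((A1 z + A2 z) + (A3 z + A4 z)) := by
          exact lint4 ν 16 _ _ _ _ s1 s2 s3 s4
  calc ∫⁻ z, (∫⁻ ζ, ‖Pl (mV ψ L (r ζ ^ 2)) (G ζ) z‖ₑ ^ 2 ∂ν) ^ 2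
      ≤ ∫⁻ z, 4096 * ((A1 z ^ 2 + A2 z ^ 2) + (A3 z ^ 2 + A4 z ^ 2)) := by
        refine lintegral_mono fun z => ?_
        calc (∫⁻ ζ, ‖Pl (mV ψ L (r ζ ^ 2)) (G ζ) z‖ₑ ^ 2 ∂ν) ^ 2
            ≤ (16 * ((A1 z + A2 z) + (A3 z + A4 z))) ^ 2 := by
              gcongr
              exact hinner z
          _ = 256 * ((A1 z + A2 z) + (A3 z + A4 z)) ^ 2 := by ring
          _ ≤ 256 * (4 * ((A1 z + A2 z) ^ 2 + (A3 z + A4 z) ^ 2)) := by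
              gcongr
              exact sq_add_le _ _
          _ ≤ 256 * (4 * (4 * (A1 z ^ 2 + A2 z ^ 2) + 4 * (A3 z ^ 2 + A4 z ^ 2))) := by
              gcongr
              · exact sq_add_le _ _
              · exact sq_add_le _ _
          _ = 4096 * ((A1 z ^ 2 + A2 z ^ 2) + (A3 z ^ 2 + A4 z ^ 2)) := by ring
    _ = 4096 * (((∫⁻ z, A1 z ^ 2) + (∫⁻ z, A2 z ^ 2)) +
          ((∫⁻ z, A3 z ^ 2) + (∫⁻ z, A4 z ^ 2))) := by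
        exact lint4 volume 4096 _ _ _ _ o1 o2 o3 o4
    _ ≤ 4096 * ((K1 * J + K1 * J) + (K2 * J + K2 * J)) := by
        gcongr
    _ = ENNReal.ofReal (8192 * (C1 + C2) * (1 + Real.log L) ^ 2) * J := by
        have hlog : 0 ≤ (1 + Real.log L) ^ 2 := sq_nonneg _
        rw [hK1, hK2]
        have h4096 : (4096 : ℝ≥0∞) = ENNReal.ofReal 4096 := by norm_num
        rw [show (4096 : ℝ≥0∞) * ((ENNReal.ofReal (C1 * (1 + Real.log L) ^ 2) * J +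
          ENNReal.ofReal (C1 * (1 + Real.log L) ^ 2) * J) +
          (ENNReal.ofReal (C2 * (1 + Real.log L) ^ 2) * J +
          ENNReal.ofReal (C2 * (1 + Real.log L) ^ 2) * J)) =
          (4096 * ((ENNReal.ofReal (C1 * (1 + Real.log L) ^ 2) +
          ENNReal.ofReal (C1 * (1 + Real.log L) ^ 2)) +
          (ENNReal.ofReal (C2 * (1 + Real.log L) ^ 2) +
          ENNReal.ofReal (C2 * (1 + Real.log L) ^ 2)))) * J by ring]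
        rw [h4096, ← ENNReal.ofReal_add (by positivity) (by positivity),
          ← ENNReal.ofReal_add (by positivity) (by positivity),
          ← ENNReal.ofReal_add (by positivity) (by positivity),
          ← ENNReal.ofReal_mul (by norm_num)]
        congr 2
        ring

end Pool.Agent.TH635.J636
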