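import Pool.Agent.TH635.J554

set_option autoImplicit false

open Pool.Agent.TH60.LR

namespace Pool.Agent.TH635.J553

theorem adjConnected : AdjConnected := by
  classical
  intro Γ V _ _ N d u v
  set Y : Set V := {w | Relation.ReflTransGen d.adj u w} with hY
  let χ : (V →₀ ℤ) →+ ℤ := Finsupp.liftAddHom fun w => if w ∈ Y then AddMonoidHom.id ℤ else 0
  have hχ : ∀ (w : V) (c : ℤ), χ (Finsupp.single w c) = if w ∈ Y then c else 0 := by
    intro w c
    show (Finsupp.liftAddHom fun w => if w ∈ Y then AddMonoidHom.id ℤ else 0) _ = _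
    rw [Finsupp.liftAddHom_apply_single]
    split_ifs <;> rfl
  have hY2 : ∀ e : d.E, (d.t e ∈ Y ↔ d.o e ∈ Y) := by
    intro e
    constructor
    · intro h
      exact Relation.ReflTransGen.tail h ⟨1, e, Or.inr ⟨(one_smul _ _).symm, (one_smul _ _).symm⟩⟩
    · intro h
      exact Relation.ReflTransGen.tail h ⟨1, e, Or.inl ⟨(one_smul _ _).symm, (one_smul _ _).symm⟩⟩
  have h0 : χ.comp (J554.dd d) = 0 := by
    apply Finsupp.addHom_ext
    intro e c
    show χ (J554.dd d (Finsupp.single e c)) = 0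
    rw [J554.dd_single, map_sub, hχ, hχ]
    by_cases h : d.o e ∈ Y
    · rw [if_pos h, if_pos ((hY2 e).2 h), sub_self]
    · rw [if_neg h, if_neg (fun h' => h ((hY2 e).1 h')), sub_self]
  have h1 : χ (J554.dd d (d.D u v)) = 0 := DFunLike.congr_fun h0 (d.D u v)
  rw [J554.dd_D, map_sub, hχ, hχ] at h1
  have hu : u ∈ Y := Relation.ReflTransGen.refl
  rw [if_pos hu] at h1
  by_contra hv
  have hv' : v ∉ Y := hv
  rw [if_neg hv'] at h1
  exact absurd h1 (by norm_num)

theorem levelBound : LevelBound := by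
  classical
  intro Γ V _ _ N _ d F hF hFN
  haveI : Fintype (Γ ⧸ N) := Fintype.ofFinite _
  -- representatives of the right cosets
  let rr : Γ ⧸ N → Γ := fun q => (q.out)⁻¹
  have hrr : ∀ g : Γ, ∃ (n : N) (q : Γ ⧸ N), g = (n : Γ) * rr q := by
    intro g
    obtain ⟨h, hh⟩ := QuotientGroup.mk_out_eq_mul N g⁻¹
    refine ⟨h, (g⁻¹ : Γ), ?_⟩
    show g = (h : Γ) * ((g⁻¹ : Γ) : Γ ⧸ N).out⁻¹
    rw [hh]
    group
  let I0 : Finset ((Γ ⧸ N) × d.E × Bool) :=
    Finset.univ ×ˢ (hF.toFinset ×ˢ Finset.univ)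
  let I : Finset (Σ _ : (Γ ⧸ N) × d.E × Bool, d.E) :=
    I0.sigma fun i => (d.D (rr i.1 • d.o i.2.1) (rr i.1 • d.t i.2.1)).support
  refine ⟨I.card, ?_⟩
  intro w e k
  let φ : (Σ _ : (Γ ⧸ N) × d.E × Bool, d.E) → V × V := fun p =>
    if h : ∃ n : N, n⁻¹ • e = p.2 then
      (if p.1.2.2 then ((h.choose : Γ) • rr p.1.1 • d.o p.1.2.1, (h.choose : Γ) • rr p.1.1 • d.t p.1.2.1)
        else ((h.choose : Γ) • rr p.1.1 • d.t p.1.2.1, (h.choose : Γ) • rr p.1.1 • d.o p.1.2.1))
    else (w, w)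
  have hsub : bdry d.adj {v | d.D v w e = k} ⊆ φ '' (I : Set _) := by
    rintro ⟨x, y⟩ ⟨hadj, hx, hy⟩
    have hne : d.D x y e ≠ 0 := by
      have h1 := J554.D_add' d x w y e
      have h2 := J554.D_anti d y w e
      have hx' : d.D x w e = k := hx
      have hy' : d.D y w e ≠ k := hy
      intro h
      apply hy'
      linarith
    -- normal form of the edge
    have hnf : ∀ (g : Γ) (e' : d.E), ∃ (n : N) (q : Γ ⧸ N) (f : d.E), f ∈ F ∧
        g • d.o e' = (n : Γ) • rr q • d.o f ∧ g • d.t e' = (n : Γ) • rr q • d.t f := by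
      intro g e'
      obtain ⟨m, hm⟩ := hFN e'
      obtain ⟨n, q, hnq⟩ := hrr (g * (m : Γ)⁻¹)
      refine ⟨n, q, m • e', hm, ?_, ?_⟩
      · rw [← mul_smul, ← hnq, d.o_smul]
        show g • d.o e' = (g * (m : Γ)⁻¹) • ((m : Γ) • d.o e')
        rw [mul_smul, inv_smul_smul]
      · rw [← mul_smul, ← hnq, d.t_smul]
        show g • d.t e' = (g * (m : Γ)⁻¹) • ((m : Γ) • d.t e')
        rw [mul_smul, inv_smul_smul]
    have hmain : ∀ (n : N) (q : Γ ⧸ N) (f : d.E) (b : Bool), f ∈ F →
        d.D ((n : Γ) • rr q • d.o f) ((n : Γ) • rr q • d.t f) e ≠ 0 →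
        (if b then ((n : Γ) • rr q • d.o f, (n : Γ) • rr q • d.t f)
          else ((n : Γ) • rr q • d.t f, (n : Γ) • rr q • d.o f)) ∈ φ '' (I : Set _) := by
      intro n q f b hf hD
      refine ⟨⟨(q, f, b), n⁻¹ • e⟩, ?_, ?_⟩
      · rw [Finset.mem_coe, Finset.mem_sigma]
        refine ⟨?_, ?_⟩
        · simp only [I0, Finset.mem_product, Finset.mem_univ, true_and, and_true,
            Set.Finite.mem_toFinset]
          exact hf
        · rw [Finsupp.mem_support_iff]
          have h1 := J554.D_smul' d n (rr q • d.o f) (rr q • d.t f) e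
          show d.D (rr q • d.o f) (rr q • d.t f) (n⁻¹ • e) ≠ 0
          rw [← h1]
          exact hD
      · have hex : ∃ m : N, m⁻¹ • e = n⁻¹ • e := ⟨n, rfl⟩
        have hch : hex.choose = n := by
          have h1 := hex.choose_spec
          have h2 : (n * hex.choose⁻¹) • e = e := by
            rw [mul_smul, h1, smul_inv_smul]
          have h3 := d.free _ _ h2
          rw [mul_inv_eq_one] at h3
          exact h3.symm
        show (if h : ∃ m : N, m⁻¹ • e = n⁻¹ • e then
          (if b then ((h.choose : Γ) • rr q • d.o f, (h.choose : Γ) • rr q • d.t f)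
            else ((h.choose : Γ) • rr q • d.t f, (h.choose : Γ) • rr q • d.o f)) else (w, w)) = _
        rw [dif_pos hex, hch]
    obtain ⟨g, e', h | h⟩ := hadj
    · simp only at h
      obtain ⟨n, q, f, hf, h1, h2⟩ := hnf g e'
      have h3 := hmain n q f true hf (by
        rw [← h1, ← h2, ← h.1, ← h.2]; exact hne)
      rw [← h1, ← h2, ← h.1, ← h.2] at h3
      exact h3
    · simp only at h
      obtain ⟨n, q, f, hf, h1, h2⟩ := hnf g e'
      have h3 := hmain n q f false hf (by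
        rw [← h1, ← h2, ← h.1, ← h.2, J554.D_anti]
        intro h4
        apply hne
        linarith)
      rw [← h1, ← h2, ← h.1, ← h.2] at h3
      exact h3
  have hfinI : (φ '' (I : Set _)).Finite := I.finite_toSet.image φ
  refine ⟨hfinI.subset hsub, ?_⟩
  refine (Set.ncard_le_ncard hsub hfinI).trans ?_
  refine (Set.ncard_image_le I.finite_toSet).trans ?_
  rw [Set.ncard_coe_finset]

end Pool.Agent.TH635.J553
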