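import Pool.Agent.TH60.LR.Defs

set_option autoImplicit false

open Pool.Agent.TH60.LR

namespace Pool.Agent.TH635.J554

theorem ev_const (s : ℕ → ℤ) (h : {i | s (i + 1) ≠ s i}.Finite) :
    ∃ K, ∀ᶠ i in Filter.atTop, s i = K := by
  obtain ⟨M, hM⟩ := h.bddAbove
  refine ⟨s (M + 1), Filter.eventually_atTop.2 ⟨M + 1, fun i hi => ?_⟩⟩
  induction i, hi using Nat.le_induction with
  | base => rfl
  | succ i hi ih =>
    rw [← ih]
    by_contra hcon
    have := hM (show i ∈ {i | s (i + 1) ≠ s i} from hcon)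
    omega

section
variable {N V : Type} [Group N] [MulAction N V] (d : SplitData N V)

theorem D_self (u : V) (e : d.E) : d.D u u e = 0 := by
  have h := congrArg (fun x => x e) (d.D_add u u u)
  simp only [Finsupp.add_apply] at h
  linarith

theorem D_add' (u v w : V) (e : d.E) : d.D u v e + d.D v w e = d.D u w e := by
  have h := congrArg (fun x => x e) (d.D_add u v w)
  simpa only [Finsupp.add_apply] using h

theorem D_anti (u v : V) (e : d.E) : d.D v u e = - d.D u v e := by
  have h := D_add' d u v u e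
  rw [D_self] at h
  linarith

theorem D_smul' (n : N) (u v : V) (e : d.E) : d.D (n • u) (n • v) e = d.D u v (n⁻¹ • e) := by
  have h := d.D_smul n u v (n⁻¹ • e)
  rwa [smul_inv_smul] at h

/-- the boundary map -/
noncomputable def dd : (d.E →₀ ℤ) →+ (V →₀ ℤ) :=
  Finsupp.liftAddHom fun e => Finsupp.singleAddHom (d.t e) - Finsupp.singleAddHom (d.o e)

theorem dd_single (e : d.E) (c : ℤ) :
    dd d (Finsupp.single e c) = Finsupp.single (d.t e) c - Finsupp.single (d.o e) c := by
  unfold dd
  rw [Finsupp.liftAddHom_apply_single]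
  rfl

theorem dd_D (u v : V) : dd d (d.D u v) = Finsupp.single u (1 : ℤ) - Finsupp.single v (1 : ℤ) := by
  rw [← d.bd u v]
  rfl

theorem dd_equiv (n : N) (x : d.E →₀ ℤ) :
    dd d (Finsupp.mapDomain (fun e => n • e) x) = Finsupp.mapDomain (fun v => n • v) (dd d x) := by
  have h : (dd d).comp (Finsupp.mapDomain.addMonoidHom (fun e : d.E => n • e)) =
      (Finsupp.mapDomain.addMonoidHom (fun v : V => n • v)).comp (dd d) := by
    apply Finsupp.addHom_ext
    intro e c
    show dd d (Finsupp.mapDomain (fun e => n • e) (Finsupp.single e c)) =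
      Finsupp.mapDomain (fun v => n • v) (dd d (Finsupp.single e c))
    rw [Finsupp.mapDomain_single, dd_single, dd_single, d.t_smul, d.o_smul]
    have e1 : Finsupp.mapDomain (fun v : V => n • v)
        (Finsupp.single (d.t e) c - Finsupp.single (d.o e) c) =
        Finsupp.mapDomain (fun v : V => n • v) (Finsupp.single (d.t e) c) -
        Finsupp.mapDomain (fun v : V => n • v) (Finsupp.single (d.o e) c) :=
      map_sub (Finsupp.mapDomain.addMonoidHom (fun v : V => n • v)) _ _
    rw [e1, Finsupp.mapDomain_single, Finsupp.mapDomain_single]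
  exact DFunLike.congr_fun h x

/-- the augmentation -/
noncomputable def aug : (V →₀ ℤ) →+ ℤ := Finsupp.liftAddHom fun _ => AddMonoidHom.id ℤ

theorem aug_single (v : V) (c : ℤ) : aug (Finsupp.single v c) = c := by
  unfold aug
  rw [Finsupp.liftAddHom_apply_single]
  rfl

theorem aug_dd (x : d.E →₀ ℤ) : aug (dd d x) = 0 := by
  have h : aug.comp (dd d) = 0 := by
    apply Finsupp.addHom_ext
    intro e c
    show aug (dd d (Finsupp.single e c)) = 0
    rw [dd_single, map_sub, aug_single, aug_single, sub_self]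
  exact DFunLike.congr_fun h x

end

theorem endsSeparated : EndsSeparated := by
  intro N V _ _ d n hn v
  -- infinite order
  have hpow : ∀ i j : ℕ, n ^ i = n ^ j → i = j := by
    intro i j h
    by_contra hne
    rcases Nat.lt_or_gt_of_ne hne with h1 | h1
    · refine hn (j - i) (by omega) v ?_
      have h2 : n ^ (j - i) = 1 := by
        rw [pow_sub n h1.le, ← h, mul_inv_cancel]
      rw [h2, one_smul]
    · refine hn (i - j) (by omega) v ?_
      have h2 : n ^ (i - j) = 1 := by
        rw [pow_sub n h1.le, h, mul_inv_cancel]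
      rw [h2, one_smul]
  have hfree : ∀ (e : d.E) (i j : ℕ), n ^ i • e = n ^ j • e → i = j := by
    intro e i j h
    apply hpow
    have h1 : ((n ^ j)⁻¹ * n ^ i) • e = e := by
      rw [mul_smul, h, inv_smul_smul]
    have h2 := d.free _ _ h1
    rw [inv_mul_eq_one] at h2
    exact h2.symm
  have hfree' : ∀ (e : d.E) (i j : ℕ), (n ^ i)⁻¹ • e = (n ^ j)⁻¹ • e → i = j := by
    intro e i j h
    apply hpow
    have h1 : (n ^ j * (n ^ i)⁻¹) • e = e := by
      rw [mul_smul, h, smul_inv_smul]
    have h2 := d.free _ _ h1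
    rw [mul_inv_eq_one] at h2
    exact h2.symm
  set c := d.D (n • v) v with hc
  have hAp : ∀ (i : ℕ) (e : d.E), d.D (n ^ (i + 1) • v) v e - d.D (n ^ i • v) v e =
      c ((n ^ i)⁻¹ • e) := by
    intro i e
    have h1 := D_add' d (n ^ (i + 1) • v) (n ^ i • v) v e
    rw [← h1, add_sub_cancel_right, pow_succ, mul_smul, D_smul']
  have hAm : ∀ (i : ℕ) (e : d.E), d.D (n⁻¹ ^ i • v) v e - d.D (n⁻¹ ^ (i + 1) • v) v e =
      c (n ^ (i + 1) • e) := by
    intro i e
    have h1 := D_add' d (n⁻¹ ^ i • v) (n⁻¹ ^ (i + 1) • v) v e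
    rw [← h1, add_sub_cancel_right]
    have h2 : n⁻¹ ^ i • v = n⁻¹ ^ (i + 1) • (n • v) := by
      rw [pow_succ, mul_smul, inv_smul_smul]
    rw [h2, D_smul', inv_pow, inv_inv]
  have hfin : ∀ (f : ℕ → d.E), Function.Injective f → {i | c (f i) ≠ 0}.Finite := by
    intro f hf
    have h1 : {i | c (f i) ≠ 0} = f ⁻¹' (c.support : Set d.E) := by
      ext i; simp
    rw [h1]
    exact Set.Finite.preimage hf.injOn c.support.finite_toSet
  have hp : ∀ e, ∃ K, ∀ᶠ i in Filter.atTop, d.D (n ^ i • v) v e = K := by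
    intro e
    apply ev_const
    refine (hfin (fun i => (n ^ i)⁻¹ • e) (fun i j h => hfree' e i j h)).subset ?_
    intro i hi h
    apply hi
    have h1 := hAp i e
    rw [h] at h1
    linarith
  have hm : ∀ e, ∃ K, ∀ᶠ i in Filter.atTop, d.D (n⁻¹ ^ i • v) v e = K := by
    intro e
    apply ev_const
    refine (hfin (fun i => n ^ (i + 1) • e) (fun i j h => by
      have := hfree e _ _ h
      omega)).subset ?_
    intro i hi h
    apply hi
    have h1 := hAm i e
    rw [h] at h1
    linarith
  choose kp hkp using hp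
  choose km hkm using hm
  by_contra hcon
  push Not at hcon
  have hkk : ∀ e, kp e = km e := by
    intro e
    by_contra hne
    have h1 := hcon e (kp e) (hkp e)
    apply h1
    filter_upwards [hkm e] with i hi
    rw [hi]
    exact fun h => hne h.symm
  -- cocycle relation
  have hrel : ∀ e, c e = km e - km (n⁻¹ • e) := by
    intro e
    obtain ⟨i, h1, h2⟩ := ((hkm e).and ((Filter.tendsto_add_atTop_nat 1).eventually
      (hkm (n⁻¹ • e)))).exists
    rw [← h1, ← h2]
    have h3 : n⁻¹ ^ i • v = n • (n⁻¹ ^ (i + 1) • v) := by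
      rw [pow_succ', mul_smul, smul_inv_smul]
    have h4 : d.D (n⁻¹ ^ (i + 1) • v) v (n⁻¹ • e) = d.D (n⁻¹ ^ i • v) (n • v) e := by
      rw [h3, D_smul']
    rw [h4]
    have h5 := D_add' d (n⁻¹ ^ i • v) (n • v) v e
    rw [← h5, hc]
    ring
  have hkm0 : ∀ e, km e ≠ 0 → ∃ i : ℕ, c (n ^ i • e) ≠ 0 := by
    intro e he
    by_contra h
    push Not at h
    apply he
    have h1 : ∀ i : ℕ, d.D (n⁻¹ ^ i • v) v e = 0 := by
      intro i
      induction i with
      | zero => rw [pow_zero, one_smul, D_self]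
      | succ i ih =>
        have h2 := hAm i e
        rw [ih, h] at h2
        linarith
    obtain ⟨i, hi⟩ := (hkm e).exists
    rw [← hi, h1]
  have hkp0 : ∀ e, km e ≠ 0 → ∃ i : ℕ, c ((n ^ i)⁻¹ • e) ≠ 0 := by
    intro e he
    rw [← hkk e] at he
    by_contra h
    push Not at h
    apply he
    have h1 : ∀ i : ℕ, d.D (n ^ i • v) v e = 0 := by
      intro i
      induction i with
      | zero => rw [pow_zero, one_smul, D_self]
      | succ i ih =>
        have h2 := hAp i e
        rw [ih, h] at h2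
        linarith
    obtain ⟨i, hi⟩ := (hkp e).exists
    rw [← hi, h1]
  have hsupp : (Function.support km).Finite := by
    have h1 : Function.support km ⊆ ⋃ e1 ∈ c.support, ⋃ e2 ∈ c.support,
        {e : d.E | ∃ i j : ℕ, (n ^ i)⁻¹ • e = e1 ∧ n ^ j • e = e2} := by
      intro e he
      obtain ⟨j, hj⟩ := hkm0 e he
      obtain ⟨i, hi⟩ := hkp0 e he
      simp only [Set.mem_iUnion]
      exact ⟨(n ^ i)⁻¹ • e, Finsupp.mem_support_iff.2 hi, n ^ j • e,
        Finsupp.mem_support_iff.2 hj, i, j, rfl, rfl⟩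
    refine Set.Finite.subset ?_ h1
    refine c.support.finite_toSet.biUnion fun e1 _ => c.support.finite_toSet.biUnion fun e2 _ => ?_
    by_cases hne : ∃ i j : ℕ, ∃ e : d.E, (n ^ i)⁻¹ • e = e1 ∧ n ^ j • e = e2
    · obtain ⟨i0, j0, e0, h2, h3⟩ := hne
      have h4 : n ^ (i0 + j0) • e1 = e2 := by
        rw [← h2, ← h3, add_comm, pow_add, mul_smul, smul_inv_smul]
      refine ((Set.finite_le_nat (i0 + j0)).image fun i => n ^ i • e1).subset ?_
      rintro e ⟨i, j, h5, h6⟩
      have h7 : n ^ (i + j) • e1 = e2 := by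
        rw [← h5, ← h6, add_comm, pow_add, mul_smul, smul_inv_smul]
      have h8 := hfree e1 _ _ (h7.trans h4.symm)
      refine ⟨i, by show i ≤ i0 + j0; omega, ?_⟩
      show n ^ i • e1 = e
      rw [← h5, smul_inv_smul]
    · convert Set.finite_empty
      ext e
      simp only [Set.mem_ofPred_eq, Set.mem_empty_iff_false, iff_false]
      rintro ⟨i, j, h5, h6⟩
      exact hne ⟨i, j, e, h5, h6⟩
  set K : d.E →₀ ℤ := Finsupp.ofSupportFinite km hsupp with hK
  have hKe : ∀ e, K e = km e := fun e => rfl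
  have hcK : c = K - Finsupp.mapDomain (fun e => n • e) K := by
    ext e
    rw [Finsupp.sub_apply, hKe, hrel e]
    congr 1
    have h1 : e = n • (n⁻¹ • e) := (smul_inv_smul n e).symm
    conv_rhs => rw [h1]
    have h2 := Finsupp.mapDomain_apply (MulAction.injective n) K (n⁻¹ • e)
    rw [← hKe]
    exact h2.symm
  have hbd : Finsupp.single (n • v) (1 : ℤ) - Finsupp.single v (1 : ℤ) =
      dd d K - Finsupp.mapDomain (fun v => n • v) (dd d K) := by
    rw [← dd_D d, ← hc, hcK, map_sub, dd_equiv]
  set z : V →₀ ℤ := Finsupp.single v (1 : ℤ) + dd d K with hz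
  have hzn : Finsupp.mapDomain (fun v => n • v) z = z := by
    rw [hz, Finsupp.mapDomain_add, Finsupp.mapDomain_single]
    have h1 := hbd
    rw [sub_eq_iff_eq_add] at h1
    rw [h1]
    abel
  have hz0 : z ≠ 0 := by
    intro h
    have h1 : aug z = 1 := by
      rw [hz, map_add, aug_single, aug_dd, add_zero]
    rw [h, map_zero] at h1
    exact one_ne_zero h1.symm
  obtain ⟨x, hx⟩ := Finsupp.support_nonempty_iff.2 hz0
  have hstep : ∀ y ∈ z.support, n • y ∈ z.support := by
    intro y hy
    rw [Finsupp.mem_support_iff] at hy ⊢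
    have h2 := Finsupp.mapDomain_apply (MulAction.injective n) z y
    have h3 : z (n • y) = z y := by
      conv_lhs => rw [← hzn]
      exact h2
    rwa [h3]
  have hall : ∀ i : ℕ, n ^ i • x ∈ z.support := by
    intro i
    induction i with
    | zero => rwa [pow_zero, one_smul]
    | succ i ih => rw [pow_succ', mul_smul]; exact hstep _ ih
  have hnotinj : ¬ Function.Injective (fun i : ℕ => (⟨n ^ i • x, hall i⟩ : z.support)) := by
    intro hinj
    exact not_injective_infinite_finite _ hinj
  unfold Function.Injective at hnotinj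
  push Not at hnotinj
  obtain ⟨i, j, h1, h2⟩ := hnotinj
  have h3 : n ^ i • x = n ^ j • x := congrArg Subtype.val h1
  rcases Nat.lt_or_gt_of_ne h2 with h4 | h4
  · refine hn (j - i) (by omega) x ?_
    have h5 : n ^ j = n ^ i * n ^ (j - i) := by
      rw [← pow_add]; congr 1; omega
    rw [h5, mul_smul] at h3
    exact (MulAction.injective (n ^ i) h3).symm
  · refine hn (i - j) (by omega) x ?_
    have h5 : n ^ i = n ^ j * n ^ (i - j) := by
      rw [← pow_add]; congr 1; omega
    rw [h5, mul_smul] at h3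
    exact MulAction.injective (n ^ j) h3

end Pool.Agent.TH635.J554
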