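import Pool.Agent.TH336.KR.Defs
set_option autoImplicit false
open MeasureTheory Polynomial

/-! Job KR-START for helper336 (MP_dd438b_an). -/

namespace Pool.Agent.TH635.J355

open Pool.Agent.TH336.KR

section alg

variable (Φ Ψ Η : ℝ[X] →ₗ[ℝ] ℝ) (p : ℕ → ℝ[X])

/-- the form `Ψ(f'g') + Η(f''g'')` -/
noncomputable def SS (f g : ℝ[X]) : ℝ :=
  Ψ (derivative f * derivative g) + Η (derivative (derivative f) * derivative (derivative g))

variable {p}

theorem coeff_p (hdeg : ∀ n : ℕ, (p n).degree = ((n : ℕ) : WithBot ℕ)) (n : ℕ) :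
    (p n).coeff n ≠ 0 ∧ ∀ m, n < m → (p n).coeff m = 0 := by
  refine ⟨?_, ?_⟩
  · exact Polynomial.coeff_ne_zero_of_eq_degree (hdeg n)
  · intro m hm
    apply Polynomial.coeff_eq_zero_of_degree_lt
    rw [hdeg]
    exact_mod_cast hm

theorem reduce (hdeg : ∀ n : ℕ, (p n).degree = ((n : ℕ) : WithBot ℕ)) (n : ℕ) (f : ℝ[X])
    (hf : ∀ m, n + 1 ≤ m → f.coeff m = 0) :
    ∃ (c : ℝ) (f' : ℝ[X]), c = f.coeff n / (p n).coeff n ∧ f = c • p n + f' ∧
      ∀ m, n ≤ m → f'.coeff m = 0 := by
  obtain ⟨h1, h2⟩ := coeff_p hdeg n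
  refine ⟨f.coeff n / (p n).coeff n, f - (f.coeff n / (p n).coeff n) • p n, rfl, by ring, ?_⟩
  intro m hm
  rw [coeff_sub, coeff_smul, smul_eq_mul]
  rcases hm.eq_or_lt with h | h
  · subst h
    rw [div_mul_cancel₀ _ h1, sub_self]
  · rw [h2 m h, hf m h, mul_zero, sub_zero]

theorem lin_zero (hdeg : ∀ n : ℕ, (p n).degree = ((n : ℕ) : WithBot ℕ)) (T : ℝ[X] →ₗ[ℝ] ℝ)
    (N : ℕ) (hT : ∀ m < N, T (p m) = 0) (f : ℝ[X]) (hf : ∀ m, N ≤ m → f.coeff m = 0) :
    T f = 0 := by
  induction N generalizing f with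
  | zero =>
    have : f = 0 := by
      ext m
      rw [hf m (Nat.zero_le _), coeff_zero]
    rw [this, map_zero]
  | succ n ih =>
    obtain ⟨c, f', -, h1, h2⟩ := reduce hdeg n f hf
    rw [h1, map_add, map_smul, hT n (Nat.lt_succ_self n),
      ih (fun m hm => hT m (hm.trans (Nat.lt_succ_self n))) f' h2, smul_zero, add_zero]

theorem lin_zero' (hdeg : ∀ n : ℕ, (p n).degree = ((n : ℕ) : WithBot ℕ)) (T : ℝ[X] →ₗ[ℝ] ℝ)
    (hT : ∀ m, T (p m) = 0) (f : ℝ[X]) : T f = 0 := by
  refine lin_zero hdeg T (f.natDegree + 1) (fun m _ => hT m) f ?_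
  intro m hm
  exact coeff_eq_zero_of_natDegree_lt hm

theorem alg (hdeg : ∀ n : ℕ, (p n).degree = ((n : ℕ) : WithBot ℕ))
    (hpos : ∀ f : ℝ[X], f ≠ 0 → 0 < Φ (f * f))
    (hΨ : ∀ f : ℝ[X], 0 ≤ Ψ (f * f)) (hΗ : ∀ f : ℝ[X], 0 ≤ Η (f * f)) (hΗ1 : 0 < Η 1)
    (ho : ∀ n m : ℕ, n ≠ m → Φ (p n * p m) = 0)
    (hs : ∀ n m : ℕ, n ≠ m → SS Ψ Η (p n) (p m) = 0) :
    ∃ A B K E : ℝ[X], Sys Φ A B K E := by
  -- the eigenvalues
  have hp0 : ∀ n, p n ≠ 0 := by
    intro n h
    have h1 := (coeff_p hdeg n).1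
    rw [h, coeff_zero] at h1
    exact h1 rfl
  let lam : ℕ → ℝ := fun n => SS Ψ Η (p n) (p n) / Φ (p n * p n)
  have hlam : ∀ n, ∀ g : ℝ[X], SS Ψ Η (p n) g = lam n * Φ (p n * g) := by
    intro n g
    let T : ℝ[X] →ₗ[ℝ] ℝ :=
      { toFun := fun g => SS Ψ Η (p n) g - lam n * Φ (p n * g)
        map_add' := by
          intro x y
          simp only [SS, derivative_add, mul_add, map_add]
          ring
        map_smul' := by
          intro t x
          simp only [SS, derivative_smul, mul_smul_comm, map_smul, smul_eq_mul, RingHom.id_apply]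
          ring }
    have h1 : T g = 0 := by
      refine lin_zero' hdeg T ?_ g
      intro m
      show SS Ψ Η (p n) (p m) - lam n * Φ (p n * p m) = 0
      by_cases h : n = m
      · subst h
        have h2 := (hpos (p n) (hp0 n)).ne'
        simp only [lam]
        rw [div_mul_cancel₀ _ h2, sub_self]
      · rw [hs n m h, ho n m h, mul_zero, sub_zero]
    have h2 : SS Ψ Η (p n) g - lam n * Φ (p n * g) = 0 := h1
    linarith
  -- the operator
  have hL : ∀ N : ℕ, ∀ f : ℝ[X], (∀ m, N ≤ m → f.coeff m = 0) →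
      ∃ l : ℝ[X], (∀ m, N ≤ m → l.coeff m = 0) ∧ ∀ g, Φ (l * g) = SS Ψ Η f g := by
    intro N
    induction N with
    | zero =>
      intro f hf
      have : f = 0 := by
        ext m
        rw [hf m (Nat.zero_le _), coeff_zero]
      subst this
      exact ⟨0, by simp, by simp [SS]⟩
    | succ n ih =>
      intro f hf
      obtain ⟨c, f', -, h1, h2⟩ := reduce hdeg n f hf
      obtain ⟨l', h3, h4⟩ := ih f' h2
      refine ⟨(c * lam n) • p n + l', ?_, ?_⟩
      · intro m hm
        rw [coeff_add, coeff_smul, (coeff_p hdeg n).2 m hm, h3 m (by omega), smul_zero, add_zero]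
      · intro g
        rw [add_mul, map_add, h4, h1, smul_mul_assoc, map_smul]
        have h5 := hlam n g
        unfold SS at h5 ⊢
        simp only [derivative_add, derivative_smul, add_mul, smul_mul_assoc, map_add, map_smul,
          smul_eq_mul] at h5 ⊢
        linear_combination (-c) * h5
  obtain ⟨L1, hL1, hS1⟩ := hL 2 X (by
    intro m hm
    rw [coeff_X, if_neg (by omega)])
  obtain ⟨L2, hL2, hS2⟩ := hL 3 (X ^ 2) (by
    intro m hm
    rw [coeff_X_pow, if_neg (by omega)])
  obtain ⟨L3, hL3, hS3⟩ := hL 4 (X ^ 3) (by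
    intro m hm
    rw [coeff_X_pow, if_neg (by omega)])
  obtain ⟨L4, hL4, hS4⟩ := hL 5 (X ^ 4) (by
    intro m hm
    rw [coeff_X_pow, if_neg (by omega)])
  have dL1 : L1.natDegree ≤ 1 := natDegree_le_iff_coeff_eq_zero.2 fun N hN => hL1 N hN
  have dL2 : L2.natDegree ≤ 2 := natDegree_le_iff_coeff_eq_zero.2 fun N hN => hL2 N hN
  have dL3 : L3.natDegree ≤ 3 := natDegree_le_iff_coeff_eq_zero.2 fun N hN => hL3 N hN
  have dL4 : L4.natDegree ≤ 4 := natDegree_le_iff_coeff_eq_zero.2 fun N hN => hL4 N hN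
  set E : ℝ[X] := L1 with hE
  set K : ℝ[X] := (1 / 2 : ℝ) • (L2 - (2 : ℝ) • (X * L1)) with hK
  set B : ℝ[X] := (1 / 12 : ℝ) • (L3 - (3 : ℝ) • (X * L2) + (3 : ℝ) • (X ^ 2 * L1)) with hB
  set A : ℝ[X] := (1 / 24 : ℝ) • (L4 - (4 : ℝ) • (X * L3) + (6 : ℝ) • (X ^ 2 * L2)
    - (4 : ℝ) • (X ^ 3 * L1)) with hA
  have fE : ∀ g, Φ (E * g) = Ψ (derivative g) := by
    intro g
    rw [hS1]
    simp [SS]
  have c2 : (C (2 : ℝ) : ℝ[X]) = 2 := rfl
  have c3 : (C (3 : ℝ) : ℝ[X]) = 3 := rfl
  have c4 : (C (4 : ℝ) : ℝ[X]) = 4 := rfl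
  have c6 : (C (6 : ℝ) : ℝ[X]) = 6 := rfl
  have c12 : (C (12 : ℝ) : ℝ[X]) = 12 := rfl
  have c24 : (C (24 : ℝ) : ℝ[X]) = 24 := rfl
  have d2 : derivative (X ^ 2 : ℝ[X]) = 2 * X := by
    rw [pow_two, derivative_mul, derivative_X]; ring
  have d3 : derivative (X ^ 3 : ℝ[X]) = 3 * X ^ 2 := by
    rw [pow_succ, derivative_mul, derivative_X, d2]; ring
  have d4 : derivative (X ^ 4 : ℝ[X]) = 4 * X ^ 3 := by
    rw [pow_succ, derivative_mul, derivative_X, d3]; ring
  have n2 : derivative (2 : ℝ[X]) = 0 := derivative_ofNat 2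
  have n3 : derivative (3 : ℝ[X]) = 0 := derivative_ofNat 3
  have n4 : derivative (4 : ℝ[X]) = 0 := derivative_ofNat 4
  have dd2 : derivative (derivative (X ^ 2 : ℝ[X])) = 2 := by
    rw [d2, derivative_mul, n2, derivative_X]; ring
  have dd3 : derivative (derivative (X ^ 3 : ℝ[X])) = 6 * X := by
    rw [d3, derivative_mul, n3, d2]; ring
  have dd4 : derivative (derivative (X ^ 4 : ℝ[X])) = 12 * X ^ 2 := by
    rw [d4, derivative_mul, n4, d3]; ring
  have g1 : ∀ g : ℝ[X], derivative (X * g) = g + X * derivative g := by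
    intro g; rw [derivative_mul, derivative_X, one_mul]
  have g11 : ∀ g : ℝ[X], derivative (derivative (X * g)) =
      2 * derivative g + X * derivative (derivative g) := by
    intro g; rw [g1, derivative_add, g1]; ring
  have g2 : ∀ g : ℝ[X], derivative (X ^ 2 * g) = 2 * X * g + X ^ 2 * derivative g := by
    intro g; rw [derivative_mul, d2]
  have g22 : ∀ g : ℝ[X], derivative (derivative (X ^ 2 * g)) =
      2 * g + 4 * X * derivative g + X ^ 2 * derivative (derivative g) := by
    intro g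
    rw [g2, derivative_add, g2, mul_assoc, derivative_mul, n2, g1]; ring
  have g3 : ∀ g : ℝ[X], derivative (X ^ 3 * g) = 3 * X ^ 2 * g + X ^ 3 * derivative g := by
    intro g; rw [derivative_mul, d3]
  have dd1 : derivative (derivative (X : ℝ[X])) = 0 := by
    rw [derivative_X, derivative_one]
  have fK : ∀ g, Φ (K * g) = Η (derivative (derivative g)) - Ψ g := by
    intro g
    have e : K * g = (1 / 2 : ℝ) • (L2 * g - (2 : ℝ) • (L1 * (X * g))) := by
      rw [hK]
      simp only [smul_eq_C_mul]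
      ring
    rw [e, map_smul, map_sub, map_smul, hS1, hS2]
    unfold SS
    have h1 := congrArg Ψ (show derivative (X ^ 2 : ℝ[X]) * derivative g
      - (2 : ℝ) • (derivative (X : ℝ[X]) * derivative (X * g)) = -((2 : ℝ) • g) by
        simp only [smul_eq_C_mul, d2, derivative_X, g1, c2]
        ring)
    have h2 := congrArg Η (show derivative (derivative (X ^ 2 : ℝ[X])) * derivative (derivative g)
      - (2 : ℝ) • (derivative (derivative (X : ℝ[X])) * derivative (derivative (X * g))) =
        (2 : ℝ) • derivative (derivative g) by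
        simp only [smul_eq_C_mul, dd2, dd1, g11, c2]
        ring)
    simp only [map_sub, map_smul, map_neg, smul_eq_mul] at h1 h2 ⊢
    linear_combination (1 / 2) * h1 + (1 / 2) * h2
  have fB : ∀ g, Φ (B * g) = - Η (derivative g) := by
    intro g
    have e : B * g = (1 / 12 : ℝ) • (L3 * g - (3 : ℝ) • (L2 * (X * g))
        + (3 : ℝ) • (L1 * (X ^ 2 * g))) := by
      rw [hB]
      simp only [smul_eq_C_mul]
      ring
    rw [e, map_smul, map_add, map_sub, map_smul, map_smul, hS1, hS2, hS3]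
    unfold SS
    have h1 := congrArg Ψ (show derivative (X ^ 3 : ℝ[X]) * derivative g
      - (3 : ℝ) • (derivative (X ^ 2 : ℝ[X]) * derivative (X * g))
      + (3 : ℝ) • (derivative (X : ℝ[X]) * derivative (X ^ 2 * g)) = 0 by
        simp only [smul_eq_C_mul, d2, d3, derivative_X, g1, g2, c3]
        ring)
    have h2 := congrArg Η (show derivative (derivative (X ^ 3 : ℝ[X])) * derivative (derivative g)
      - (3 : ℝ) • (derivative (derivative (X ^ 2 : ℝ[X])) * derivative (derivative (X * g)))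
      + (3 : ℝ) • (derivative (derivative (X : ℝ[X])) * derivative (derivative (X ^ 2 * g))) =
        -((12 : ℝ) • derivative g) by
        simp only [smul_eq_C_mul, dd2, dd1, dd3, g11, g22, c3, c12]
        ring)
    simp only [map_sub, map_add, map_smul, map_neg, map_zero, smul_eq_mul] at h1 h2 ⊢
    linear_combination (1 / 12) * h1 + (1 / 12) * h2
  have fA : ∀ g, Φ (A * g) = Η g := by
    intro g
    have e : A * g = (1 / 24 : ℝ) • (L4 * g - (4 : ℝ) • (L3 * (X * g))
        + (6 : ℝ) • (L2 * (X ^ 2 * g)) - (4 : ℝ) • (L1 * (X ^ 3 * g))) := by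
      rw [hA]
      simp only [smul_eq_C_mul]
      ring
    rw [e, map_smul, map_sub, map_add, map_sub, map_smul, map_smul, map_smul, hS1, hS2, hS3, hS4]
    unfold SS
    have h1 := congrArg Ψ (show derivative (X ^ 4 : ℝ[X]) * derivative g
      - (4 : ℝ) • (derivative (X ^ 3 : ℝ[X]) * derivative (X * g))
      + (6 : ℝ) • (derivative (X ^ 2 : ℝ[X]) * derivative (X ^ 2 * g))
      - (4 : ℝ) • (derivative (X : ℝ[X]) * derivative (X ^ 3 * g)) = 0 by
        simp only [smul_eq_C_mul, d2, d3, d4, derivative_X, g1, g2, g3, c4, c6]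
        ring)
    have h2 := congrArg Η (show derivative (derivative (X ^ 4 : ℝ[X])) * derivative (derivative g)
      - (4 : ℝ) • (derivative (derivative (X ^ 3 : ℝ[X])) * derivative (derivative (X * g)))
      + (6 : ℝ) • (derivative (derivative (X ^ 2 : ℝ[X])) * derivative (derivative (X ^ 2 * g)))
      - (4 : ℝ) • (derivative (derivative (X : ℝ[X])) * derivative (derivative (X ^ 3 * g))) =
        (24 : ℝ) • g by
        simp only [smul_eq_C_mul, dd2, dd1, dd3, dd4, g11, g22, c4, c6, c24]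
        ring)
    simp only [map_sub, map_add, map_smul, map_neg, map_zero, smul_eq_mul] at h1 h2 ⊢
    linear_combination (1 / 24) * h1 + (1 / 24) * h2
  have hzero : ∀ d : ℝ[X], (∀ g, Φ (d * g) = 0) → d = 0 := by
    intro d hd
    by_contra h
    exact (hpos d h).ne' (hd d)
  have hA0 : A ≠ 0 := by
    intro h
    have h1 := fA 1
    rw [h, zero_mul, map_zero] at h1
    exact hΗ1.ne h1
  -- the eigenvalue equation
  have heig : ∀ n, (lam n) • p n = A * derivative (derivative (derivative (derivative (p n))))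
      + (2 : ℝ) • (B * derivative (derivative (derivative (p n))))
      + K * derivative (derivative (p n)) + E * derivative (p n) := by
    intro n
    rw [← sub_eq_zero]
    apply hzero
    intro g
    have e : (lam n • p n - (A * derivative (derivative (derivative (derivative (p n))))
      + (2 : ℝ) • (B * derivative (derivative (derivative (p n))))
      + K * derivative (derivative (p n)) + E * derivative (p n))) * g =
      lam n • (p n * g) - A * (derivative (derivative (derivative (derivative (p n)))) * g)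
      - (2 : ℝ) • (B * (derivative (derivative (derivative (p n))) * g))
      - K * (derivative (derivative (p n)) * g) - E * (derivative (p n) * g) := by
      simp only [smul_eq_C_mul]
      ring
    rw [e]
    simp only [map_sub, map_smul, smul_eq_mul]
    rw [← hlam, fA, fB, fK, fE]
    unfold SS
    simp only [derivative_mul, derivative_add, map_add]
    ring
  -- Cauchy-Schwarz for Η
  have hCS : ∀ f : ℝ[X], Η (f * f) = 0 → ∀ g, Η (f * g) = 0 := by
    intro f hf g
    by_contra hne
    set x : ℝ := Η (f * g) with hx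
    have h1 := hΗ ((-(Η (g * g) + 1) / (2 * x)) • f + g)
    have e : ((-(Η (g * g) + 1) / (2 * x)) • f + g) * ((-(Η (g * g) + 1) / (2 * x)) • f + g) =
        (-(Η (g * g) + 1) / (2 * x)) ^ 2 • (f * f) +
        (2 * (-(Η (g * g) + 1) / (2 * x))) • (f * g) + g * g := by
      simp only [smul_eq_C_mul, C_mul, C_pow, c2]
      ring
    rw [e, map_add, map_add, map_smul, map_smul, hf, ← hx, smul_eq_mul, smul_eq_mul] at h1
    have h2 : 2 * (-(Η (g * g) + 1) / (2 * x)) * x = -(Η (g * g) + 1) := by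
      field_simp
    rw [h2] at h1
    linarith
  have hlam0 : ∀ n, 2 ≤ n → lam n ≠ 0 := by
    intro n hn h0
    have h1 : SS Ψ Η (p n) (p n) = 0 := by
      rw [hlam, h0, zero_mul]
    have h2 : Η (derivative (derivative (p n)) * derivative (derivative (p n))) = 0 := by
      unfold SS at h1
      have h3 := hΨ (derivative (p n))
      have h4 := hΗ (derivative (derivative (p n)))
      linarith
    have h3 := hCS _ h2
    have h4 : A * derivative (derivative (p n)) = 0 := by
      apply hzero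
      intro g
      rw [mul_assoc, fA, h3]
    have h5 : derivative (derivative (p n)) = 0 := (mul_eq_zero.1 h4).resolve_left hA0
    have h6 := congrArg (fun q => coeff q (n - 2)) h5
    simp only [coeff_derivative, coeff_zero] at h6
    have e : n - 2 + 1 + 1 = n := by omega
    rw [e] at h6
    have h7 := (coeff_p hdeg n).1
    rcases mul_eq_zero.1 h6 with h | h
    · rcases mul_eq_zero.1 h with h | h
      · exact h7 h
      · have : (0 : ℝ) < ((n - 2 + 1 : ℕ) : ℝ) + 1 := by positivity
        exact this.ne' h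
    · have : (0 : ℝ) < ((n - 2 : ℕ) : ℝ) + 1 := by positivity
      exact this.ne' h
  -- orthogonality
  have horth : ∀ n, ∀ g : ℝ[X], (∀ m, n ≤ m → g.coeff m = 0) → Φ (p n * g) = 0 := by
    intro n g hg
    let T : ℝ[X] →ₗ[ℝ] ℝ := Φ ∘ₗ LinearMap.mulLeft ℝ (p n)
    exact lin_zero hdeg T n (fun m hm => ho n m hm.ne') g hg
  refine ⟨A, B, K, E, hpos, hA0, ?_, ?_, ?_, dL1, ?_, ?_, ?_⟩
  · rw [hA]
    refine (natDegree_smul_le _ _).trans ?_
    refine (natDegree_sub_le_of_le (natDegree_add_le_of_le (natDegree_sub_le_of_le dL4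
      ((natDegree_smul_le _ _).trans (natDegree_mul_le_of_le natDegree_X_le dL3)))
      ((natDegree_smul_le _ _).trans (natDegree_mul_le_of_le (natDegree_X_pow_le 2) dL2)))
      ((natDegree_smul_le _ _).trans (natDegree_mul_le_of_le (natDegree_X_pow_le 3) dL1))).trans ?_
    simp
  · rw [hB]
    refine (natDegree_smul_le _ _).trans ?_
    refine (natDegree_add_le_of_le (natDegree_sub_le_of_le dL3
      ((natDegree_smul_le _ _).trans (natDegree_mul_le_of_le natDegree_X_le dL2)))
      ((natDegree_smul_le _ _).trans (natDegree_mul_le_of_le (natDegree_X_pow_le 2) dL1))).trans ?_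
    simp
  · rw [hK]
    refine (natDegree_smul_le _ _).trans ?_
    refine (natDegree_sub_le_of_le dL2
      ((natDegree_smul_le _ _).trans (natDegree_mul_le_of_le natDegree_X_le dL1))).trans ?_
    simp
  · intro f
    rw [map_add, fA, fB]
    ring
  · intro f
    rw [map_add, map_add, fB, fK, fE]
    ring
  · intro D hDA hDB hDK hDE
    by_contra hk
    have hD0 : D ≠ 0 := by
      rintro rfl
      exact hA0 (zero_dvd_iff.1 hDA)
    have hdvd : ∀ n, 2 ≤ n → D ∣ p n := by
      intro n hn
      have h1 : D ∣ (lam n) • p n := by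
        rw [heig n]
        refine dvd_add (dvd_add (dvd_add (Dvd.dvd.mul_right hDA _) ?_) (Dvd.dvd.mul_right hDK _))
          (Dvd.dvd.mul_right hDE _)
        rw [smul_eq_C_mul]
        exact Dvd.dvd.mul_left (Dvd.dvd.mul_right hDB _) _
      have h2 : p n = (lam n)⁻¹ • (lam n • p n) := by
        rw [smul_smul, inv_mul_cancel₀ (hlam0 n hn), one_smul]
      rw [h2, smul_eq_C_mul]
      exact Dvd.dvd.mul_left h1 _
    set k := D.natDegree with hkd
    obtain ⟨u, hu⟩ := hdvd 2 le_rfl
    obtain ⟨v, hv⟩ := hdvd (2 + k) (by omega)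
    have hu0 : u ≠ 0 := by
      rintro rfl
      exact hp0 2 (by rw [hu, mul_zero])
    have hv0 : v ≠ 0 := by
      rintro rfl
      exact hp0 (2 + k) (by rw [hv, mul_zero])
    have hdu : k + u.natDegree = 2 := by
      have h1 := natDegree_mul hD0 hu0
      rw [← hu, natDegree_eq_of_degree_eq_some (hdeg 2)] at h1
      exact h1.symm
    have hdv : v.natDegree = 2 := by
      have h1 := natDegree_mul hD0 hv0
      rw [← hv, natDegree_eq_of_degree_eq_some (hdeg (2 + k))] at h1
      omega
    have h1 : Φ (p 2 * v) = 0 := by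
      have e : p 2 * v = p (2 + k) * u := by
        rw [hu, hv]; ring
      rw [e]
      refine horth (2 + k) u ?_
      intro m hm
      exact coeff_eq_zero_of_natDegree_lt (by omega)
    obtain ⟨c, v', hc, h2, h3⟩ := reduce hdeg 2 v (by
      intro m hm
      exact coeff_eq_zero_of_natDegree_lt (by omega))
    have hc0 : c ≠ 0 := by
      rw [hc]
      refine div_ne_zero ?_ (coeff_p hdeg 2).1
      rw [← hdv]
      exact leadingCoeff_ne_zero.2 hv0
    rw [h2, mul_add, mul_smul_comm, map_add, map_smul, horth 2 v' h3, add_zero, smul_eq_mul] at h1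
    rcases mul_eq_zero.1 h1 with h | h
    · exact hc0 h
    · exact (hpos (p 2) (hp0 2)).ne' h

end alg

theorem integrable_poly (μ : Measure ℝ) (h : ∀ k : ℕ, Integrable (fun x : ℝ => x ^ k) μ)
    (f : ℝ[X]) : Integrable (fun x => f.eval x) μ := by
  simp only [eval_eq_sum_range]
  exact integrable_finset_sum _ fun i _ => (h i).const_mul _

/-- integration of polynomials -/
noncomputable def intL (μ : Measure ℝ) (h : ∀ k : ℕ, Integrable (fun x : ℝ => x ^ k) μ) :
    ℝ[X] →ₗ[ℝ] ℝ where
  toFun f := ∫ x, f.eval x ∂μ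
  map_add' f g := by
    simp only [eval_add]
    exact integral_add (integrable_poly μ h f) (integrable_poly μ h g)
  map_smul' c f := by
    simp only [eval_smul, smul_eq_mul, RingHom.id_apply]
    exact integral_const_mul _ _

theorem start (φ ψ η : Measure ℝ) (p : ℕ → ℝ[X])
    (hφ : ∀ k : ℕ, Integrable (fun x : ℝ => x ^ k) φ)
    (hψ : ∀ k : ℕ, Integrable (fun x : ℝ => x ^ k) ψ)
    (hη : ∀ k : ℕ, Integrable (fun x : ℝ => x ^ k) η)
    (hinf : ∀ s : Finset ℝ, φ ((↑s : Set ℝ)ᶜ) ≠ 0)
    (hη0 : η ≠ 0)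
    (hdeg : ∀ n : ℕ, (p n).degree = ((n : ℕ) : WithBot ℕ))
    (ho : ∀ n m : ℕ, n ≠ m → ∫ x, (p n).eval x * (p m).eval x ∂φ = 0)
    (hs : ∀ n m : ℕ, n ≠ m →
      (∫ x, (p n).eval x * (p m).eval x ∂φ)
        + (∫ x, (Polynomial.derivative (p n)).eval x
              * (Polynomial.derivative (p m)).eval x ∂ψ)
        + (∫ x, (Polynomial.derivative (Polynomial.derivative (p n))).eval x
              * (Polynomial.derivative (Polynomial.derivative (p m))).eval x ∂η) = 0) :
    ∃ (Φ : ℝ[X] →ₗ[ℝ] ℝ) (A B K E : ℝ[X]),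
      (∀ f : ℝ[X], Φ f = ∫ x, f.eval x ∂φ) ∧ Sys Φ A B K E := by
  have hnn : ∀ (μ : Measure ℝ) (h : ∀ k : ℕ, Integrable (fun x : ℝ => x ^ k) μ) (f : ℝ[X]),
      0 ≤ intL μ h (f * f) := by
    intro μ h f
    show 0 ≤ ∫ x, (f * f).eval x ∂μ
    refine integral_nonneg fun x => ?_
    simp only [eval_mul]
    exact mul_self_nonneg _
  have hpos : ∀ f : ℝ[X], f ≠ 0 → 0 < intL φ hφ (f * f) := by
    intro f hf
    refine lt_of_le_of_ne (hnn φ hφ f) ?_
    intro h0
    have h1 : ∫ x, (f * f).eval x ∂φ = 0 := h0.symm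
    rw [integral_eq_zero_iff_of_nonneg (fun x => by
      simp only [eval_mul]
      exact mul_self_nonneg _) (integrable_poly φ hφ _)] at h1
    apply hinf f.roots.toFinset
    refine measure_mono_null ?_ h1
    intro x hx h2
    apply hx
    have h3 : f.eval x = 0 := by
      have h4 : (f * f).eval x = 0 := h2
      rw [eval_mul] at h4
      exact mul_self_eq_zero.1 h4
    rw [Finset.mem_coe, Multiset.mem_toFinset, mem_roots hf]
    exact h3
  have hη1 : 0 < intL η hη 1 := by
    show 0 < ∫ x, (1 : ℝ[X]).eval x ∂η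
    haveI : IsFiniteMeasure η := by
      have h1 := hη 0
      simp only [pow_zero] at h1
      rw [integrable_const_iff] at h1
      rcases h1 with h1 | h1
      · exact absurd h1 one_ne_zero
      · exact h1
    simp only [eval_one, integral_const, smul_eq_mul, mul_one]
    rw [measureReal_def]
    exact ENNReal.toReal_pos (by rwa [Ne, Measure.measure_univ_eq_zero]) (measure_ne_top _ _)
  have ho' : ∀ n m : ℕ, n ≠ m → intL φ hφ (p n * p m) = 0 := by
    intro n m hnm
    have h1 := ho n m hnm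
    show ∫ x, (p n * p m).eval x ∂φ = 0
    simpa only [eval_mul] using h1
  have hs' : ∀ n m : ℕ, n ≠ m → SS (intL ψ hψ) (intL η hη) (p n) (p m) = 0 := by
    intro n m hnm
    have h1 := hs n m hnm
    rw [ho n m hnm, zero_add] at h1
    show ∫ x, (derivative (p n) * derivative (p m)).eval x ∂ψ +
      ∫ x, (derivative (derivative (p n)) * derivative (derivative (p m))).eval x ∂η = 0
    simpa only [eval_mul] using h1
  obtain ⟨A, B, K, E, h⟩ := alg (intL φ hφ) (intL ψ hψ) (intL η hη) hdeg hpos (hnn ψ hψ)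
    (hnn η hη) hη1 ho' hs'
  exact ⟨intL φ hφ, A, B, K, E, fun f => rfl, h⟩

end Pool.Agent.TH635.J355
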