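import Mathlib
import Pool.Agent.TH255.CR_CB

set_option autoImplicit false

/-! Job CR-ABS for helper722 (MP_97bde0_lc). -/

namespace Pool.Agent.TH635.CRAbs

open Set MeasureTheory

/-- class preserving Cantor-Bernstein (the conclusion of job CR-CB) -/
def CBProp : Prop :=
  ∀ {X Y : Type} [MeasurableSpace X] [StandardBorelSpace X]
    [MeasurableSpace Y] [StandardBorelSpace Y] (E : X → X → Prop) (F : Y → Y → Prop)
    (_ : Equivalence F) (f : X → Y) (g : Y → X) (_ : Measurable f) (_ : Measurable g)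
    (_ : Function.Injective f) (_ : Function.Injective g)
    (_ : ∀ x x', E x x' ↔ F (f x) (f x')) (_ : ∀ y, F (f (g y)) y),
    ∃ h : X ≃ᵐ Y, (∀ x, F (f x) (h x)) ∧ ∀ x x', E x x' ↔ F (h x) (h x')

/-- a coding of triples -/
noncomputable def tri : ℕ × ℕ × ℕ ≃ ℕ := (Denumerable.eqv (ℕ × ℕ × ℕ))

open Classical in
/-- the coding of `(w, k)` in the Cantor space -/
noncomputable def i0 {W : Type} (c : W → ℕ → ℕ) (p : W × ℕ) : ℕ → Bool := fun i =>
  decide (c p.1 (tri.symm i).1 = (tri.symm i).2.1 ∧ (tri.symm i).2.2 = p.2)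

theorem i0_tri {W : Type} (c : W → ℕ → ℕ) (p : W × ℕ) (n a k : ℕ) :
    i0 c p (tri (n, a, k)) = true ↔ c p.1 n = a ∧ k = p.2 := by
  unfold i0
  rw [tri.symm_apply_apply]
  simp

theorem i0_inj {W : Type} (c : W → ℕ → ℕ) (hci : Function.Injective c) :
    Function.Injective (i0 c) := by
  intro p q h
  have key : ∀ n, c q.1 n = c p.1 n ∧ p.2 = q.2 := by
    intro n
    have h1 : i0 c p (tri (n, c p.1 n, p.2)) = true := (i0_tri c p _ _ _).2 ⟨rfl, rfl⟩
    rw [h] at h1
    exact (i0_tri c q _ _ _).1 h1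
  refine Prod.ext ?_ (key 0).2
  apply hci
  funext n
  exact (key n).1.symm

theorem i0_meas {W : Type} [MeasurableSpace W] (c : W → ℕ → ℕ) (hc : Measurable c) :
    Measurable (i0 c) := by
  rw [measurable_pi_iff]
  intro i
  refine measurable_to_bool ?_
  have e : (fun p => i0 c p i) ⁻¹' {true} =
      {p : W × ℕ | c p.1 (tri.symm i).1 = (tri.symm i).2.1} ∩
      {p : W × ℕ | (tri.symm i).2.2 = p.2} := by
    ext p
    simp [i0]
  rw [e]
  have h1 : Measurable fun p : W × ℕ => c p.1 (tri.symm i).1 :=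
    (measurable_pi_iff.1 hc _).comp measurable_fst
  refine MeasurableSet.inter ?_ ?_
  · exact h1 (measurableSet_singleton (tri.symm i).2.1)
  · have h2 : Measurable fun p : W × ℕ => p.2 := measurable_snd
    have h3 := h2 (measurableSet_singleton (tri.symm i).2.2)
    convert h3 using 1
    ext p
    simp [eq_comm]

/-- only finitely many codes are small -/
theorem tri_large (N : ℕ) (f : ℕ → ℕ) (k : ℕ) : ∃ M, ∀ n, M ≤ n → N ≤ tri (n, f n, k) := by
  have h1 : {n | tri (n, f n, k) < N}.Finite := by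
    refine Set.Finite.of_finite_image (f := fun n => tri (n, f n, k)) ?_ ?_
    · exact (Set.finite_lt_nat N).subset (by rintro _ ⟨n, hn, rfl⟩; exact hn)
    · intro a _ b _ h
      have := tri.injective h
      exact (Prod.ext_iff.1 this).1
  obtain ⟨M, hM⟩ := h1.bddAbove
  refine ⟨M + 1, fun n hn => ?_⟩
  by_contra hcon
  have := hM (show n ∈ {n | tri (n, f n, k) < N} from not_le.1 hcon)
  omega

theorem i0_red {W : Type} (c : W → ℕ → ℕ) (p q : W × ℕ) :
    (∃ N, ∀ i, N ≤ i → i0 c p i = i0 c q i) ↔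
      (p.2 = q.2 ∧ ∃ N, ∀ n, N ≤ n → c p.1 n = c q.1 n) := by
  constructor
  · rintro ⟨N, hN⟩
    obtain ⟨M, hM⟩ := tri_large N (c p.1) p.2
    have key : ∀ n, M ≤ n → c q.1 n = c p.1 n ∧ p.2 = q.2 := by
      intro n hn
      have h1 : i0 c p (tri (n, c p.1 n, p.2)) = true := (i0_tri c p _ _ _).2 ⟨rfl, rfl⟩
      rw [hN _ (hM n hn)] at h1
      exact (i0_tri c q _ _ _).1 h1
    exact ⟨(key M le_rfl).2, M, fun n hn => (key n hn).1.symm⟩
  · rintro ⟨h2, N, hN⟩
    have hfin : {i | i0 c p i ≠ i0 c q i}.Finite := by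
      refine (((Set.finite_lt_nat N).image fun n => tri (n, c p.1 n, p.2)).union
        ((Set.finite_lt_nat N).image fun n => tri (n, c q.1 n, p.2))).subset ?_
      intro i hi
      obtain ⟨⟨n, a, k⟩, rfl⟩ := tri.surjective i
      have h3 : ¬ ((c p.1 n = a ∧ k = p.2) ↔ (c q.1 n = a ∧ k = q.2)) := by
        intro h
        apply hi
        rw [← i0_tri, ← i0_tri] at h
        exact Bool.eq_iff_iff.2 h
      have h4 : n < N := by
        by_contra h
        apply h3
        rw [hN n (not_lt.1 h), h2]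
      rw [← h2] at h3
      by_cases h5 : c p.1 n = a ∧ k = p.2
      · left
        exact ⟨n, h4, by show tri (n, c p.1 n, p.2) = _; rw [h5.1, h5.2]⟩
      · right
        have h6 : c q.1 n = a ∧ k = p.2 := by tauto
        exact ⟨n, h4, by show tri (n, c q.1 n, p.2) = _; rw [h6.1, h6.2]⟩
    obtain ⟨M, hM⟩ := hfin.bddAbove
    refine ⟨M + 1, fun i hi => ?_⟩
    by_contra hcon
    have := hM (show i ∈ {i | i0 c p i ≠ i0 c q i} from hcon)
    omega

theorem absorb_of_cb (hCB : CBProp)
    {X W : Type} [MeasurableSpace X] [StandardBorelSpace X] [MeasurableSpace W]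
    [StandardBorelSpace W] (s : ℕ → X → X) (hs : ∀ n, Measurable (s n))
    (hinv : ∀ n x, s n (s n x) = x) (E : X → X → Prop) (hE : Equivalence E)
    (hsE : ∀ x y, E x y ↔ ∃ n, s n x = y)
    (j : (ℕ → Bool) → X) (hj : Measurable j) (hji : Function.Injective j)
    (hjE : ∀ a b, E (j a) (j b) ↔ ∃ N, ∀ n, N ≤ n → a n = b n)
    (T : W → W → Prop) (c : W → ℕ → ℕ) (hc : Measurable c) (hci : Function.Injective c)
    (hcT : ∀ w w', T w w' ↔ ∃ N, ∀ n, N ≤ n → c w n = c w' n)
    (st : W → ℕ → W) (hst : ∀ n, Measurable fun w => st w n) (hstT : ∀ w n, T w (st w n))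
    (hsti : ∀ w w' n n', st w n = st w' n' → w = w' ∧ n = n') :
    ∃ h : (X ⊕ W) ≃ᵐ X, ∀ a b, Sum.LiftRel E T a b ↔ E (h a) (h b) := by
  classical
  rcases isEmpty_or_nonempty W with hW | hW
  · let e : X ⊕ W ≃ᵐ X :=
      { toFun := Sum.elim id isEmptyElim
        invFun := Sum.inl
        left_inv := by
          rintro (x | w)
          · rfl
          · exact isEmptyElim w
        right_inv := fun x => rfl
        measurable_toFun := measurable_id.sumElim (measurable_of_empty _)
        measurable_invFun := measurable_inl }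
    refine ⟨e, ?_⟩
    rintro (a | a) (b | b)
    · rw [Sum.liftRel_inl_inl]
      rfl
    · exact isEmptyElim b
    · exact isEmptyElim a
    · exact isEmptyElim a
  -- the embedding
  set ι : W × ℕ → X := fun p => j (i0 c p) with hι
  have hιm : Measurable ι := hj.comp (i0_meas c hc)
  have hιi : Function.Injective ι := hji.comp (i0_inj c hci)
  have hιe : MeasurableEmbedding ι := hιm.measurableEmbedding hιi
  set E1 : W × ℕ → W × ℕ → Prop := fun p q => p.2 = q.2 ∧ T p.1 q.1 with hE1
  have hιE : ∀ p q, E1 p q ↔ E (ι p) (ι q) := by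
    intro p q
    rw [hι]
    simp only
    rw [hjE, i0_red, ← hcT]
  obtain ⟨κ, hκm, hκ⟩ := hιe.exists_measurable_extend measurable_id (fun _ => inferInstance)
  have hκ' : ∀ p, κ (ι p) = p := fun p => congrFun hκ p
  -- the saturation
  set S : Set X := {x | ∃ n, s n x ∈ range ι} with hS
  have hSm : MeasurableSet S := by
    have : S = ⋃ n, (s n) ⁻¹' (range ι) := by
      ext x; simp [hS]
    rw [this]
    exact MeasurableSet.iUnion fun n => (hs n) hιe.measurableSet_range
  have hSinv : ∀ x y, E x y → x ∈ S → y ∈ S := by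
    rintro x y hxy ⟨n, p, hp⟩
    have h1 : E x (s n x) := (hsE _ _).2 ⟨n, rfl⟩
    obtain ⟨m, hm⟩ := (hsE _ _).1 (hE.trans (hE.symm hxy) h1)
    exact ⟨m, p, by rw [hp, hm]⟩
  have hιS : ∀ p, ι p ∈ S := by
    intro p
    obtain ⟨n, hn⟩ := (hsE (ι p) (ι p)).1 (hE.refl _)
    exact ⟨n, p, hn.symm⟩
  haveI : StandardBorelSpace S := hSm.standardBorel
  -- the map back
  have hfind : Measurable fun x : S => Nat.find x.2 := by
    refine measurable_find (p := fun (x : S) n => s n x.1 ∈ range ι) (fun x => x.2) ?_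
    intro n
    exact ((hs n).comp measurable_subtype_coe) hιe.measurableSet_range
  set g : S → W × ℕ := fun x =>
    (st (κ (s (Nat.find x.2) x.1)).1 (Nat.find x.2), (κ (s (Nat.find x.2) x.1)).2) with hg
  have hgm : Measurable g := by
    have h1 : Measurable fun q : S × ℕ =>
        ((st (κ (s q.2 q.1.1)).1 q.2, (κ (s q.2 q.1.1)).2) : W × ℕ) := by
      refine measurable_from_prod_countable_left fun n => ?_
      have h2 : Measurable fun x : S => κ (s n x.1) := hκm.comp ((hs n).comp measurable_subtype_coe)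
      exact ((hst n).comp (measurable_fst.comp h2)).prodMk (measurable_snd.comp h2)
    exact h1.comp (measurable_id.prodMk hfind)
  have hgi : Function.Injective g := by
    intro x y h
    obtain ⟨p, hp⟩ := Nat.find_spec x.2
    obtain ⟨q, hq⟩ := Nat.find_spec y.2
    rw [hg] at h
    simp only [Prod.mk.injEq] at h
    rw [← hp, ← hq, hκ', hκ'] at h
    obtain ⟨h1, h2⟩ := h
    obtain ⟨h3, h4⟩ := hsti _ _ _ _ h1
    have h5 : p = q := Prod.ext h3 h2
    apply Subtype.ext
    rw [← hinv (Nat.find x.2) x.1, ← hp, h5, hq, h4, hinv]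
  have hgE : ∀ x : S, E (ι (g x)) x.1 := by
    intro x
    obtain ⟨p, hp⟩ := Nat.find_spec x.2
    have h1 : g x = (st p.1 (Nat.find x.2), p.2) := by
      rw [hg]
      simp only
      rw [← hp, hκ']
    have h2 : E (ι p) (ι (g x)) := by
      rw [← hιE, h1]
      exact ⟨rfl, hstT _ _⟩
    have h3 : E x.1 (ι p) := (hsE _ _).2 ⟨_, hp.symm⟩
    exact hE.symm (hE.trans h3 h2)
  obtain ⟨h1, -, hh1⟩ := hCB (X := W × ℕ) (Y := S) E1 (fun x y => E x.1 y.1)
    ⟨fun x => hE.refl _, fun h => hE.symm h, fun h h' => hE.trans h h'⟩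
    (fun p => ⟨ι p, hιS p⟩) g (hιm.subtype_mk) hgm
    (fun p q h => hιi (Subtype.ext_iff.1 h)) hgi hιE hgE
  -- the final map
  set hl : X → X := fun x => if hx : x ∈ S then
    (h1 ((h1.symm ⟨x, hx⟩).1, (h1.symm ⟨x, hx⟩).2 + 1) : X) else x with hhl
  set hr : W → X := fun w => (h1 (w, 0) : X) with hhr
  have hlm : Measurable hl := by
    refine Measurable.dite (f := fun y : S => (h1 ((h1.symm y).1, (h1.symm y).2 + 1) : X))
      (g := fun y : (Sᶜ : Set X) => (y : X)) ?_ measurable_subtype_coe hSm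
    refine measurable_subtype_coe.comp (h1.measurable.comp ?_)
    exact (measurable_fst.comp h1.symm.measurable).prodMk
      ((measurable_from_top (f := fun n : ℕ => n + 1)).comp
        (measurable_snd.comp h1.symm.measurable))
  have hrm : Measurable hr :=
    measurable_subtype_coe.comp (h1.measurable.comp (measurable_id.prodMk measurable_const))
  have hlS : ∀ p : W × ℕ, hl (h1 p) = h1 (p.1, p.2 + 1) := by
    intro p
    rw [hhl]
    simp only
    rw [dif_pos (h1 p).2]
    simp
  have hlnS : ∀ x, x ∉ S → hl x = x := by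
    intro x hx
    rw [hhl]
    simp only
    rw [dif_neg hx]
  have hsurjS : ∀ x, x ∈ S → ∃ p, (h1 p : X) = x := fun x hx => ⟨h1.symm ⟨x, hx⟩, by simp⟩
  have hli : Function.Injective hl := by
    intro x y hxy
    by_cases hx : x ∈ S
    · obtain ⟨p, rfl⟩ := hsurjS x hx
      by_cases hy : y ∈ S
      · obtain ⟨q, rfl⟩ := hsurjS y hy
        rw [hlS, hlS] at hxy
        have h3 := h1.injective (Subtype.ext hxy)
        simp only [Prod.mk.injEq, Nat.add_right_cancel_iff] at h3
        rw [Prod.ext h3.1 h3.2]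
      · rw [hlS, hlnS y hy] at hxy
        exact absurd (hxy ▸ (h1 _).2) hy
    · by_cases hy : y ∈ S
      · obtain ⟨q, rfl⟩ := hsurjS y hy
        rw [hlS, hlnS x hx] at hxy
        exact absurd (hxy ▸ (h1 _).2) hx
      · rwa [hlnS x hx, hlnS y hy] at hxy
  have hri : Function.Injective hr := by
    intro w w' h
    have h3 := h1.injective (Subtype.ext h)
    simp only [Prod.mk.injEq, and_true] at h3
    exact h3
  have hdis : ∀ x w, hl x ≠ hr w := by
    intro x w h
    by_cases hx : x ∈ S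
    · obtain ⟨p, rfl⟩ := hsurjS x hx
      rw [hlS] at h
      have h3 := h1.injective (Subtype.ext h)
      simp at h3
    · rw [hlnS x hx] at h
      exact hx (h ▸ (h1 _).2)
  have hbij : Function.Bijective (Sum.elim hl hr) := by
    constructor
    · rintro (x | w) (y | w') h
      · exact congrArg Sum.inl (hli h)
      · exact absurd h (hdis x w')
      · exact absurd h.symm (hdis y w)
      · exact congrArg Sum.inr (hri h)
    · intro x
      by_cases hx : x ∈ S
      · obtain ⟨⟨w, k⟩, rfl⟩ := hsurjS x hx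
        rcases k with _ | k
        · exact ⟨Sum.inr w, rfl⟩
        · exact ⟨Sum.inl (h1 (w, k)), hlS _⟩
      · exact ⟨Sum.inl x, hlnS x hx⟩
  have hle := hlm.measurableEmbedding hli
  have hre := hrm.measurableEmbedding hri
  let eq0 : X ⊕ W ≃ X := Equiv.ofBijective _ hbij
  let e : X ⊕ W ≃ᵐ X :=
    { toEquiv := eq0
      measurable_toFun := hlm.sumElim hrm
      measurable_invFun := by
        intro t ht
        have h3 : eq0.symm ⁻¹' t = eq0 '' t := (eq0.image_eq_preimage_symm t).symm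
        show MeasurableSet (eq0.symm ⁻¹' t)
        rw [h3]
        have h4 : eq0 '' t = hl '' (Sum.inl ⁻¹' t) ∪ hr '' (Sum.inr ⁻¹' t) := by
          ext x
          constructor
          · rintro ⟨(y | w), hy, rfl⟩
            · exact Or.inl ⟨y, hy, rfl⟩
            · exact Or.inr ⟨w, hy, rfl⟩
          · rintro (⟨y, hy, rfl⟩ | ⟨w, hw, rfl⟩)
            · exact ⟨Sum.inl y, hy, rfl⟩
            · exact ⟨Sum.inr w, hw, rfl⟩
        rw [h4]
        exact (hle.measurableSet_image.2 (measurable_inl ht)).union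
          (hre.measurableSet_image.2 (measurable_inr ht)) }
  refine ⟨e, ?_⟩
  rintro (x | w) (y | w')
  · rw [Sum.liftRel_inl_inl]
    show E x y ↔ E (hl x) (hl y)
    by_cases hx : x ∈ S
    · obtain ⟨p, rfl⟩ := hsurjS x hx
      by_cases hy : y ∈ S
      · obtain ⟨q, rfl⟩ := hsurjS y hy
        rw [hlS, hlS, ← hh1, ← hh1]
        simp [hE1]
      · rw [hlS, hlnS y hy]
        constructor
        · intro h; exact absurd (hSinv _ _ h (h1 _).2) hy
        · intro h; exact absurd (hSinv _ _ h (h1 _).2) hy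
    · by_cases hy : y ∈ S
      · obtain ⟨q, rfl⟩ := hsurjS y hy
        rw [hlS, hlnS x hx]
        constructor
        · intro h; exact absurd (hSinv _ _ (hE.symm h) (h1 _).2) hx
        · intro h; exact absurd (hSinv _ _ (hE.symm h) (h1 _).2) hx
      · rw [hlnS x hx, hlnS y hy]
  · refine iff_of_false (fun h => by cases h) ?_
    show ¬ E (hl x) (h1 (w', 0))
    by_cases hx : x ∈ S
    · obtain ⟨p, rfl⟩ := hsurjS x hx
      rw [hlS, ← hh1]
      simp [hE1]
    · rw [hlnS x hx]
      intro h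
      exact hx (hSinv _ _ (hE.symm h) (h1 _).2)
  · refine iff_of_false (fun h => by cases h) ?_
    show ¬ E (h1 (w, 0)) (hl y)
    by_cases hy : y ∈ S
    · obtain ⟨q, rfl⟩ := hsurjS y hy
      rw [hlS, ← hh1]
      simp [hE1]
    · rw [hlnS y hy]
      intro h
      exact hy (hSinv _ _ h (h1 _).2)
  · rw [Sum.liftRel_inr_inr]
    show T w w' ↔ E (h1 (w, 0)) (h1 (w', 0))
    rw [← hh1]
    simp [hE1]

/-- JOB ABS: absorption of a tame relation. -/
theorem absorb {X W : Type} [MeasurableSpace X] [StandardBorelSpace X] [MeasurableSpace W]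
    [StandardBorelSpace W] (s : ℕ → X → X) (hs : ∀ n, Measurable (s n))
    (hinv : ∀ n x, s n (s n x) = x) (E : X → X → Prop) (hE : Equivalence E)
    (hsE : ∀ x y, E x y ↔ ∃ n, s n x = y)
    (j : (ℕ → Bool) → X) (hj : Measurable j) (hji : Function.Injective j)
    (hjE : ∀ a b, E (j a) (j b) ↔ ∃ N, ∀ n, N ≤ n → a n = b n)
    (T : W → W → Prop) (c : W → ℕ → ℕ) (hc : Measurable c) (hci : Function.Injective c)
    (hcT : ∀ w w', T w w' ↔ ∃ N, ∀ n, N ≤ n → c w n = c w' n)
    (st : W → ℕ → W) (hst : ∀ n, Measurable fun w => st w n) (hstT : ∀ w n, T w (st w n))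
    (hsti : ∀ w w' n n', st w n = st w' n' → w = w' ∧ n = n') :
    ∃ h : (X ⊕ W) ≃ᵐ X, ∀ a b, Sum.LiftRel E T a b ↔ E (h a) (h b) :=
  absorb_of_cb (fun E F hF f g hf hg hfi hgi hEF hgf =>
    Pool.Agent.TH255.CR.cantor_bernstein E F hF f g hf hg hfi hgi hEF hgf)
    s hs hinv E hE hsE j hj hji hjE T c hc hci hcT st hst hstT hsti

end Pool.Agent.TH635.CRAbs
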