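import Pool.Agent.H695R3.PP.Stmts

set_option autoImplicit false

open scoped BigOperators ENNReal
open MeasureTheory

namespace Pool.Agent.TH635.J20
open Pool.Agent.H695R3.PP

/-- extension by zero of a function on the box -/
noncomputable def ext (a b : ℤ) (g : {x // x ∈ Finset.Icc a b} → ℝ) (n : ℤ) : ℝ :=
  if h : n ∈ Finset.Icc a b then g ⟨n, h⟩ else 0

/-- the matrix of the box operator -/
noncomputable def mat (V : ℤ → ℝ) (a b : ℤ) :
    Matrix {x // x ∈ Finset.Icc a b} {x // x ∈ Finset.Icc a b} ℝ :=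
  fun i j => (if (j : ℤ) = i + 1 then 1 else 0) + (if (j : ℤ) = i - 1 then 1 else 0) +
    (if (j : ℤ) = i then V i else 0)

lemma ext_coe (a b : ℤ) (g : {x // x ∈ Finset.Icc a b} → ℝ) (i : {x // x ∈ Finset.Icc a b}) :
    ext a b g i = g i := by
  simp [ext]

lemma ext_out (a b : ℤ) (g : {x // x ∈ Finset.Icc a b} → ℝ) (n : ℤ) (h : n < a ∨ b < n) :
    ext a b g n = 0 := by
  rw [ext, dif_neg]
  rw [Finset.mem_Icc]; omega

lemma sum_ite_ext (a b : ℤ) (g : {x // x ∈ Finset.Icc a b} → ℝ) (n : ℤ) (c : ℝ) :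
    ∑ j : {x // x ∈ Finset.Icc a b}, (if (j : ℤ) = n then c else 0) * g j = c * ext a b g n := by
  by_cases h : n ∈ Finset.Icc a b
  · rw [Finset.sum_eq_single ⟨n, h⟩]
    · simp [ext, h]
    · intro j _ hj
      rw [if_neg, zero_mul]
      intro h'
      exact hj (Subtype.ext h')
    · simp
  · rw [ext, dif_neg h, mul_zero]
    apply Finset.sum_eq_zero
    intro j _
    rw [if_neg, zero_mul]
    rintro rfl
    exact h j.2

lemma mat_mulVec (V : ℤ → ℝ) (a b : ℤ) (g : {x // x ∈ Finset.Icc a b} → ℝ)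
    (i : {x // x ∈ Finset.Icc a b}) :
    (mat V a b).mulVec g i = ext a b g (i + 1) + ext a b g (i - 1) + V i * ext a b g i := by
  simp only [Matrix.mulVec, dotProduct, mat, add_mul, Finset.sum_add_distrib, sum_ite_ext, one_mul]

lemma mat_herm (V : ℤ → ℝ) (a b : ℤ) : (mat V a b).IsHermitian := by
  ext i j
  rw [Matrix.conjTranspose_apply, star_trivial, mat, mat]
  have h1 : ((i : ℤ) = j + 1) ↔ ((j : ℤ) = i - 1) := by omega
  have h2 : ((i : ℤ) = j - 1) ↔ ((j : ℤ) = i + 1) := by omega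
  by_cases h : (i : ℤ) = j
  · simp [h]
  · have h' : ¬ ((j : ℤ) = i) := fun e => h e.symm
    simp only [h1, h2, h, h', if_false]
    ring

lemma exists_basis (V : ℤ → ℝ) (a b : ℤ) :
    ∃ (e : {x // x ∈ Finset.Icc a b} → ℝ) (ψ : {x // x ∈ Finset.Icc a b} → ℤ → ℝ),
      (∀ j, IsEig V a b (e j) (ψ j)) ∧
      (∀ i j, ∑ k ∈ Finset.Icc a b, ψ i k * ψ j k = if i = j then 1 else 0) ∧
      (∀ f : ℤ → ℝ, (∀ n, n < a ∨ b < n → f n = 0) →
        ∀ n, f n = ∑ j, (∑ k ∈ Finset.Icc a b, ψ j k * f k) * ψ j n) := by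
  classical
  set hA := mat_herm V a b
  have horth : ∀ i j, ∑ k ∈ Finset.Icc a b, ext a b (hA.eigenvectorBasis i) k *
      ext a b (hA.eigenvectorBasis j) k = if i = j then 1 else 0 := by
    intro i j
    have h := (orthonormal_iff_ite.mp hA.eigenvectorBasis.orthonormal) i j
    rw [← h, ← Finset.sum_coe_sort]
    simp only [ext_coe]
    rw [PiLp.inner_apply]
    apply Finset.sum_congr rfl
    intro k _
    simp [mul_comm]
  refine ⟨hA.eigenvalues, fun j => ext a b (hA.eigenvectorBasis j), ?_, horth, ?_⟩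
  · intro j
    refine ⟨fun n hn => ext_out a b _ n hn, ?_, ?_⟩
    · have := horth j j
      rw [if_pos rfl] at this
      rw [nsq, ← this]
      apply Finset.sum_congr rfl
      intro k _
      ring
    · intro n h1 h2
      have hn : n ∈ Finset.Icc a b := Finset.mem_Icc.mpr ⟨h1, h2⟩
      have h := congrFun (hA.mulVec_eigenvectorBasis j) ⟨n, hn⟩
      rw [mat_mulVec] at h
      rw [h]
      simp [ext, hn]
  · intro f hf n
    by_cases hn : n ∈ Finset.Icc a b
    · have h := hA.eigenvectorBasis.sum_repr' (WithLp.toLp 2 (fun i : {x // x ∈ Finset.Icc a b} => f i))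
      have h' := congrFun (congrArg WithLp.ofLp h) ⟨n, hn⟩
      simp only [WithLp.ofLp_sum, WithLp.ofLp_smul, Finset.sum_apply, Pi.smul_apply, smul_eq_mul] at h'
      rw [← h']
      apply Finset.sum_congr rfl
      intro j _
      rw [← Finset.sum_coe_sort]
      congr 1
      · rw [PiLp.inner_apply]
        apply Finset.sum_congr rfl
        intro k _
        simp [ext_coe, mul_comm]
      · simp [ext, hn]
    · rw [hf n (by rw [Finset.mem_Icc] at hn; omega)]
      symm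
      apply Finset.sum_eq_zero
      intro j _
      beta_reduce
      rw [ext_out a b _ n (by rw [Finset.mem_Icc] at hn; omega), mul_zero]

lemma parseval {ι : Type} [Fintype ι] [DecidableEq ι] {a b : ℤ} {ψ : ι → ℤ → ℝ}
    (h : ∀ i j, ∑ k ∈ Finset.Icc a b, ψ i k * ψ j k = if i = j then 1 else 0) (c : ι → ℝ) :
    ∑ n ∈ Finset.Icc a b, (∑ j, c j * ψ j n) ^ 2 = ∑ j, c j ^ 2 := by
  calc ∑ n ∈ Finset.Icc a b, (∑ j, c j * ψ j n) ^ 2
      = ∑ n ∈ Finset.Icc a b, ∑ i, ∑ j, (c i * c j) * (ψ i n * ψ j n) := by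
        apply Finset.sum_congr rfl
        intro n _
        rw [sq, Finset.sum_mul_sum]
        apply Finset.sum_congr rfl
        intro i _
        apply Finset.sum_congr rfl
        intro j _
        ring
    _ = ∑ i, ∑ j, (c i * c j) * ∑ n ∈ Finset.Icc a b, ψ i n * ψ j n := by
        rw [Finset.sum_comm]
        apply Finset.sum_congr rfl
        intro i _
        rw [Finset.sum_comm]
        apply Finset.sum_congr rfl
        intro j _
        rw [Finset.mul_sum]
    _ = ∑ j, c j ^ 2 := by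
        apply Finset.sum_congr rfl
        intro i _
        simp [h, sq]

/-- approximate eigenvalues are close to one of the `e j` -/
lemma core {ι : Type} [Fintype ι] [DecidableEq ι] {V : ℤ → ℝ} {a b : ℤ} {e : ι → ℝ}
    {ψ : ι → ℤ → ℝ} (h1 : ∀ j, IsEig V a b (e j) (ψ j))
    (h2 : ∀ i j, ∑ k ∈ Finset.Icc a b, ψ i k * ψ j k = if i = j then 1 else 0)
    (h3 : ∀ f : ℤ → ℝ, (∀ n, n < a ∨ b < n → f n = 0) →
        ∀ n, f n = ∑ j, (∑ k ∈ Finset.Icc a b, ψ j k * f k) * ψ j n)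
    (E δ : ℝ) (f : ℤ → ℝ) (hδ : 0 ≤ δ) (hf : ∀ n, n < a ∨ b < n → f n = 0)
    (hpos : 0 < nsq a b f)
    (hres : ∑ n ∈ Finset.Icc a b, (f (n + 1) + f (n - 1) + V n * f n - E * f n) ^ 2 ≤
      δ ^ 2 * nsq a b f) : ∃ j, |e j - E| ≤ δ := by
  by_contra hcon
  push Not at hcon
  set c : ι → ℝ := fun j => ∑ k ∈ Finset.Icc a b, ψ j k * f k with hc
  have hfe : ∀ n, f n = ∑ j, c j * ψ j n := h3 f hf
  have hn : nsq a b f = ∑ j, c j ^ 2 := by
    rw [← parseval h2 c, nsq]
    apply Finset.sum_congr rfl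
    intro n _
    rw [← hfe n]
  have hr : ∑ n ∈ Finset.Icc a b, (f (n + 1) + f (n - 1) + V n * f n - E * f n) ^ 2 =
      ∑ j, (c j * (e j - E)) ^ 2 := by
    rw [← parseval h2 (fun j => c j * (e j - E))]
    apply Finset.sum_congr rfl
    intro n hn
    rw [Finset.mem_Icc] at hn
    congr 1
    rw [hfe (n + 1), hfe (n - 1), hfe n, Finset.mul_sum, Finset.mul_sum,
      ← Finset.sum_add_distrib, ← Finset.sum_add_distrib, ← Finset.sum_sub_distrib]
    apply Finset.sum_congr rfl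
    intro j _
    have := (h1 j).2.2 n hn.1 hn.2
    linear_combination (c j) * this
  rw [hr, hn, Finset.mul_sum] at hres
  rw [hn] at hpos
  obtain ⟨j, _, hj⟩ : ∃ j ∈ Finset.univ, 0 < c j ^ 2 := by
    by_contra hno
    push Not at hno
    exact absurd hpos (not_lt.mpr (Finset.sum_nonpos hno))
  have hlt : ∑ i, δ ^ 2 * c i ^ 2 < ∑ i, (c i * (e i - E)) ^ 2 := by
    apply Finset.sum_lt_sum
    · intro i _
      rw [mul_pow, mul_comm]
      apply mul_le_mul_of_nonneg_left _ (sq_nonneg _)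
      rw [← sq_abs (e i - E)]
      exact pow_le_pow_left₀ hδ (hcon i).le 2
    · refine ⟨j, Finset.mem_univ _, ?_⟩
      rw [mul_pow, mul_comm]
      apply mul_lt_mul_of_pos_left _ hj
      rw [← sq_abs (e j - E)]
      exact pow_lt_pow_left₀ (hcon j) hδ (by norm_num)
  exact absurd hres (not_le.mpr hlt)

theorem taskApprox : TaskApprox := by
  classical
  intro V a b E δ f hδ hf hpos hres
  obtain ⟨e, ψ, h1, h2, h3⟩ := exists_basis V a b
  obtain ⟨j, hj⟩ := core h1 h2 h3 E δ f hδ hf hpos hres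
  exact ⟨e j, ψ j, h1 j, hj⟩

theorem taskCard : TaskCard := by
  classical
  intro V a b hab
  obtain ⟨e, ψ, h1, h2, h3⟩ := exists_basis V a b
  refine ⟨Finset.univ.image e, ?_, ?_⟩
  · have h : (Finset.univ.image e).card ≤ (Finset.univ : Finset {x // x ∈ Finset.Icc a b}).card :=
      Finset.card_image_le
    rw [Finset.card_univ, Fintype.card_coe, Int.card_Icc] at h
    omega
  · intro E φ hφ
    obtain ⟨j, hj⟩ := core h1 h2 h3 E 0 φ le_rfl hφ.1 (by rw [hφ.2.1]; norm_num) (by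
      rw [Finset.sum_eq_zero]
      · norm_num
      · intro n hn
        rw [Finset.mem_Icc] at hn
        rw [hφ.2.2 n hn.1 hn.2]
        ring)
    rw [Finset.mem_image]
    refine ⟨j, Finset.mem_univ _, ?_⟩
    have := abs_nonpos_iff.mp hj
    linarith

/-- the eigenbasis of a symmetric box -/
theorem compl2 : ∀ (V : ℤ → ℝ) (L : ℕ), ∃ (e : Fin (2 * L + 1) → ℝ) (ψ : Fin (2 * L + 1) → ℤ → ℝ),
    (∀ j, IsEig V (-(L : ℤ)) L (e j) (ψ j)) ∧
    (∀ i j, ∑ n ∈ Finset.Icc (-(L : ℤ)) L, ψ i n * ψ j n = if i = j then 1 else 0) ∧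
    ∀ f : ℤ → ℝ, (∀ n, n < -(L : ℤ) ∨ (L : ℤ) < n → f n = 0) → ∀ n, f n =
      ∑ j, (∑ k ∈ Finset.Icc (-(L : ℤ)) L, ψ j k * f k) * ψ j n := by
  classical
  intro V L
  obtain ⟨e, ψ, h1, h2, h3⟩ := exists_basis V (-(L : ℤ)) L
  have hcard : Fintype.card {x // x ∈ Finset.Icc (-(L : ℤ)) L} = 2 * L + 1 := by
    rw [Fintype.card_coe, Int.card_Icc]
    omega
  let eq : Fin (2 * L + 1) ≃ {x // x ∈ Finset.Icc (-(L : ℤ)) L} :=
    (Fintype.equivFinOfCardEq hcard).symm
  refine ⟨fun j => e (eq j), fun j => ψ (eq j), fun j => h1 _, ?_, ?_⟩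
  · intro i j
    rw [h2]
    simp
  · intro f hf n
    rw [h3 f hf n]
    exact (Equiv.sum_comp eq (fun j => (∑ k ∈ Finset.Icc (-(L : ℤ)) L, ψ j k * f k) * ψ j n)).symm

theorem taskCompl : TaskCompl := by
  intro V L
  obtain ⟨e, ψ, h1, h2, h3⟩ := compl2 V L
  refine ⟨e, ψ, h1, ?_, fun c => parseval h2 c⟩
  intro n
  have h := h3 (fun n => if n = 0 then 1 else 0) (by
    intro n hn
    rw [if_neg]
    omega) n
  rw [h]
  apply Finset.sum_congr rfl
  intro j _
  congr 1
  rw [Finset.sum_eq_single (0 : ℤ)]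
  · simp
  · intro k _ hk
    simp [hk]
  · intro h0
    exfalso
    apply h0
    rw [Finset.mem_Icc]
    omega

end Pool.Agent.TH635.J20
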