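import Pool.Agent.H695R3.PP.Stmts

set_option autoImplicit false

open scoped BigOperators ENNReal
open MeasureTheory

namespace Pool.Agent.TH635.J21
open Pool.Agent.H695R3.PP

lemma telescope (w : ℤ → ℝ) (a b : ℤ) (hab : a ≤ b) :
    ∑ n ∈ Finset.Icc a b, (w n - w (n - 1)) = w b - w (a - 1) := by
  induction b, hab using Int.leInduction with
  | base => simp
  | succ n hn ih =>
    have : Finset.Icc a (n + 1) = insert (n + 1) (Finset.Icc a n) := by
      ext k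
      rw [Finset.mem_insert, Finset.mem_Icc, Finset.mem_Icc]
      omega
    rw [this, Finset.sum_insert (by rw [Finset.mem_Icc]; omega), ih]
    rw [show n + 1 - 1 = n by ring]
    ring

lemma orth {V : ℤ → ℝ} {a b : ℤ} {E E' : ℝ} {ψ φ : ℤ → ℝ} (hab : a ≤ b) (h1 : IsEig V a b E ψ)
    (h2 : IsEig V a b E' φ) (hne : E ≠ E') : ∑ n ∈ Finset.Icc a b, ψ n * φ n = 0 := by
  have ht := telescope (fun n => ψ (n + 1) * φ n - ψ n * φ (n + 1)) a b hab
  have e1 : ψ (b + 1) = 0 := h1.1 _ (by omega)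
  have e2 : φ (b + 1) = 0 := h2.1 _ (by omega)
  have e3 : ψ (a - 1) = 0 := h1.1 _ (by omega)
  have e4 : φ (a - 1) = 0 := h2.1 _ (by omega)
  rw [e1, e2, e3, e4] at ht
  have hs : ∑ n ∈ Finset.Icc a b, ((fun n => ψ (n + 1) * φ n - ψ n * φ (n + 1)) n -
      (fun n => ψ (n + 1) * φ n - ψ n * φ (n + 1)) (n - 1)) =
      (E - E') * ∑ n ∈ Finset.Icc a b, ψ n * φ n := by
    rw [Finset.mul_sum]
    apply Finset.sum_congr rfl
    intro n hn
    rw [Finset.mem_Icc] at hn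
    have g1 := h1.2.2 n hn.1 hn.2
    have g2 := h2.2.2 n hn.1 hn.2
    simp only
    rw [show n - 1 + 1 = n by ring]
    linear_combination (φ n) * g1 - (ψ n) * g2
  rw [hs] at ht
  have : (E - E') * ∑ n ∈ Finset.Icc a b, ψ n * φ n = 0 := by rw [ht]; ring
  rcases mul_eq_zero.mp this with h | h
  · exact absurd (sub_eq_zero.mp h) hne
  · exact h

lemma nsq_split (a m b : ℤ) (φ : ℤ → ℝ) (h1 : a ≤ m) (h2 : m ≤ b + 1) :
    nsq a b φ = nsq a (m - 1) φ + nsq m b φ := by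
  rw [nsq, nsq, nsq, ← Finset.sum_union]
  · apply Finset.sum_congr _ (fun _ _ => rfl)
    ext k
    rw [Finset.mem_union, Finset.mem_Icc, Finset.mem_Icc, Finset.mem_Icc]
    omega
  · rw [Finset.disjoint_left]
    intro k hk hk'
    rw [Finset.mem_Icc] at hk hk'
    omega

lemma nsq_comb {a b : ℤ} {ψ φ : ℤ → ℝ} (h1 : nsq a b ψ = 1) (h2 : nsq a b φ = 1)
    (h3 : ∑ n ∈ Finset.Icc a b, ψ n * φ n = 0) (α β : ℝ) :
    nsq a b (fun n => α * ψ n + β * φ n) = α ^ 2 + β ^ 2 := by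
  have : nsq a b (fun n => α * ψ n + β * φ n) =
      α ^ 2 * nsq a b ψ + β ^ 2 * nsq a b φ + 2 * α * β * ∑ n ∈ Finset.Icc a b, ψ n * φ n := by
    rw [nsq, nsq, nsq, Finset.mul_sum, Finset.mul_sum, Finset.mul_sum, ← Finset.sum_add_distrib,
      ← Finset.sum_add_distrib]
    apply Finset.sum_congr rfl
    intro n _
    ring
  rw [this, h1, h2, h3]
  ring

lemma exists_coef (x y : ℝ) : ∃ α β : ℝ, α ^ 2 + β ^ 2 = 1 ∧ α * x + β * y = 0 := by
  by_cases h : x ^ 2 + y ^ 2 = 0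
  · have hx : x = 0 := by nlinarith [sq_nonneg x, sq_nonneg y]
    have hy : y = 0 := by nlinarith [sq_nonneg x, sq_nonneg y]
    exact ⟨1, 0, by norm_num, by rw [hx, hy]; ring⟩
  · have hp : 0 < x ^ 2 + y ^ 2 := lt_of_le_of_ne (by positivity) (Ne.symm h)
    have hs : Real.sqrt (x ^ 2 + y ^ 2) ^ 2 = x ^ 2 + y ^ 2 := Real.sq_sqrt hp.le
    have hs0 : Real.sqrt (x ^ 2 + y ^ 2) ≠ 0 := (Real.sqrt_pos.mpr hp).ne'
    refine ⟨y / Real.sqrt (x ^ 2 + y ^ 2), -x / Real.sqrt (x ^ 2 + y ^ 2), ?_, ?_⟩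
    · rw [div_pow, div_pow, hs]
      field_simp
      ring
    · field_simp
      ring

lemma resid {V : ℤ → ℝ} {a b : ℤ} {E E' d : ℝ} {ψ ψ' : ℤ → ℝ}
    (h1 : IsEig V a b E ψ) (h2 : IsEig V a b E' ψ')
    (h3 : ∑ n ∈ Finset.Icc a b, ψ n * ψ' n = 0) (hd : |E - E'| ≤ d) (α β : ℝ)
    (hαβ : α ^ 2 + β ^ 2 = 1) (s : Finset ℤ) (hs : s ⊆ Finset.Icc a b) (f : ℤ → ℝ)
    (hf : ∀ n ∈ s, f n = α * ψ n + β * ψ' n ∧ f (n + 1) = α * ψ (n + 1) + β * ψ' (n + 1) ∧
      f (n - 1) = α * ψ (n - 1) + β * ψ' (n - 1)) :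
    ∑ n ∈ s, (f (n + 1) + f (n - 1) + V n * f n - (E + E') / 2 * f n) ^ 2 ≤ (d / 2) ^ 2 := by
  have hd0 : 0 ≤ d := le_trans (abs_nonneg _) hd
  have e1 : ∑ n ∈ s, (f (n + 1) + f (n - 1) + V n * f n - (E + E') / 2 * f n) ^ 2 =
      ∑ n ∈ s, ((E - E') / 2 * α * ψ n + (-((E - E') / 2) * β) * ψ' n) ^ 2 := by
    apply Finset.sum_congr rfl
    intro n hn
    obtain ⟨g1, g2, g3⟩ := hf n hn
    have hn' := hs hn
    rw [Finset.mem_Icc] at hn'
    have k1 := h1.2.2 n hn'.1 hn'.2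
    have k2 := h2.2.2 n hn'.1 hn'.2
    congr 1
    rw [g1, g2, g3]
    linear_combination α * k1 + β * k2
  rw [e1]
  calc ∑ n ∈ s, ((E - E') / 2 * α * ψ n + (-((E - E') / 2) * β) * ψ' n) ^ 2
      ≤ ∑ n ∈ Finset.Icc a b, ((E - E') / 2 * α * ψ n + (-((E - E') / 2) * β) * ψ' n) ^ 2 :=
        Finset.sum_le_sum_of_subset_of_nonneg hs fun _ _ _ => sq_nonneg _
    _ = ((E - E') / 2 * α) ^ 2 + (-((E - E') / 2) * β) ^ 2 :=
        nsq_comb h1.2.1 h2.2.1 h3 _ _
    _ = ((E - E') / 2) ^ 2 := by linear_combination ((E - E') / 2) ^ 2 * hαβ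
    _ ≤ (d / 2) ^ 2 := by
        apply sq_le_sq'
        · have := neg_abs_le (E - E'); linarith
        · have := le_abs_self (E - E'); linarith

theorem taskSplit (h : TaskApprox) : TaskSplit := by
  intro V a b E E' d ψ ψ' hab h1 h2 hne hd
  have h3 := orth hab h1 h2 hne
  have hd0 : 0 ≤ d := le_trans (abs_nonneg _) hd
  choose α β hαβ hz using fun m : ℤ => exists_coef (ψ m) (ψ' m)
  set Φ : ℤ → ℤ → ℝ := fun m n => α m * ψ n + β m * ψ' n with hΦ
  have hΦ1 : ∀ m, nsq a b (Φ m) = 1 := fun m => by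
    rw [← hαβ m]; exact nsq_comb h1.2.1 h2.2.1 h3 _ _
  have hΦ0 : ∀ m, Φ m m = 0 := hz
  have hΦs : ∀ m n, n < a ∨ b < n → Φ m n = 0 := fun m n hn => by
    simp only [hΦ]; rw [h1.1 n hn, h2.1 n hn]; ring
  obtain ⟨m, hm1, hm2, hm3, hm4⟩ : ∃ m, a < m ∧ m ≤ b ∧ nsq a (m - 1 - 1) (Φ (m - 1)) < 1 / 9 ∧
      1 / 9 ≤ nsq a (m - 1) (Φ m) := by
    by_contra hcon
    push Not at hcon
    have hall : ∀ m, a ≤ m → m ≤ b → nsq a (m - 1) (Φ m) < 1 / 9 := by
      intro m hm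
      induction m, hm using Int.leInduction with
      | base =>
        intro _
        rw [nsq, Finset.Icc_eq_empty (by omega)]
        norm_num
      | succ n hn ih =>
        intro hnb
        have := hcon (n + 1) (by omega) hnb
        rw [show n + 1 - 1 = n by ring] at this
        rw [show n + 1 - 1 = n by ring]
        exact this (ih (by omega))
    have hb := hall b hab le_rfl
    have hs := nsq_split a b b (Φ b) hab (by omega)
    rw [hΦ1 b] at hs
    have : nsq b b (Φ b) = 0 := by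
      rw [nsq, Finset.Icc_self, Finset.sum_singleton, hΦ0]; norm_num
    rw [this] at hs
    linarith
  have key : ∀ δ : ℝ, δ = 3 * d / 2 → (d / 2) ^ 2 ≤ δ ^ 2 * (1 / 9) := by
    intro δ hδ; rw [hδ]; nlinarith
  -- left box
  set fl : ℤ → ℝ := fun n => if n < m then Φ m n else 0 with hfl
  have flp : ∀ n, n < m → fl n = Φ m n := fun n hn => if_pos hn
  have flm : ∀ n, ¬ n < m → fl n = 0 := fun n hn => if_neg hn
  have hL : nsq a (m - 1) fl = nsq a (m - 1) (Φ m) := by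
    rw [nsq, nsq]
    apply Finset.sum_congr rfl
    intro n hn
    rw [Finset.mem_Icc] at hn
    rw [flp n (by omega)]
  have hLs : ∀ n, n < a ∨ m - 1 < n → fl n = 0 := by
    intro n hn
    by_cases hnm : n < m
    · rw [flp n hnm]; exact hΦs m n (by omega)
    · exact flm n hnm
  have hLr : ∑ n ∈ Finset.Icc a (m - 1), (fl (n + 1) + fl (n - 1) + V n * fl n -
      (E + E') / 2 * fl n) ^ 2 ≤ (d / 2) ^ 2 := by
    apply resid h1 h2 h3 hd (α m) (β m) (hαβ m) (Finset.Icc a (m - 1)) _ fl _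
    · intro n hn
      rw [Finset.mem_Icc] at hn ⊢
      omega
    · intro n hn
      rw [Finset.mem_Icc] at hn
      refine ⟨flp n (by omega), ?_, flp (n - 1) (by omega)⟩
      by_cases hn1 : n + 1 < m
      · exact flp _ hn1
      · have : n + 1 = m := by omega
        rw [flm _ hn1, this]
        exact (hΦ0 m).symm
  obtain ⟨lam, φ, hφ, hl⟩ := h V a (m - 1) ((E + E') / 2) (3 * d / 2) fl (by positivity) hLs
    (by rw [hL]; linarith)
    (by
      rw [hL]
      exact le_trans hLr (le_trans (key _ rfl) (mul_le_mul_of_nonneg_left hm4 (sq_nonneg _))))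
  -- right box
  set fr : ℤ → ℝ := fun n => if m ≤ n then Φ (m - 1) n else 0 with hfr
  have frp : ∀ n, m ≤ n → fr n = Φ (m - 1) n := fun n hn => if_pos hn
  have frm : ∀ n, ¬ m ≤ n → fr n = 0 := fun n hn => if_neg hn
  have hR : nsq m b fr = nsq m b (Φ (m - 1)) := by
    rw [nsq, nsq]
    apply Finset.sum_congr rfl
    intro n hn
    rw [Finset.mem_Icc] at hn
    rw [frp n (by omega)]
  have hRs : ∀ n, n < m ∨ b < n → fr n = 0 := by
    intro n hn
    by_cases hnm : m ≤ n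
    · rw [frp n hnm]; exact hΦs _ n (by omega)
    · exact frm n hnm
  have hRr : ∑ n ∈ Finset.Icc m b, (fr (n + 1) + fr (n - 1) + V n * fr n -
      (E + E') / 2 * fr n) ^ 2 ≤ (d / 2) ^ 2 := by
    apply resid h1 h2 h3 hd (α (m - 1)) (β (m - 1)) (hαβ (m - 1)) (Finset.Icc m b) _ fr _
    · intro n hn
      rw [Finset.mem_Icc] at hn ⊢
      omega
    · intro n hn
      rw [Finset.mem_Icc] at hn
      refine ⟨frp n (by omega), frp (n + 1) (by omega), ?_⟩
      by_cases hn1 : m ≤ n - 1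
      · exact frp _ hn1
      · have : n - 1 = m - 1 := by omega
        rw [frm _ hn1, this]
        exact (hΦ0 (m - 1)).symm
  have hR2 : 1 / 9 ≤ nsq m b (Φ (m - 1)) := by
    have s1 := nsq_split a m b (Φ (m - 1)) (by omega) (by omega)
    have s2 := nsq_split a (m - 1) (m - 1) (Φ (m - 1)) (by omega) (by omega)
    have s3 : nsq (m - 1) (m - 1) (Φ (m - 1)) = 0 := by
      rw [nsq, Finset.Icc_self, Finset.sum_singleton, hΦ0]; norm_num
    rw [hΦ1] at s1
    linarith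
  obtain ⟨lam', φ', hφ', hl'⟩ := h V m b ((E + E') / 2) (3 * d / 2) fr (by positivity) hRs
    (by rw [hR]; linarith)
    (by
      rw [hR]
      exact le_trans hRr (le_trans (key _ rfl) (mul_le_mul_of_nonneg_left hR2 (sq_nonneg _))))
  refine ⟨m, hm1, hm2, lam, φ, lam', φ', hφ, hφ', ?_⟩
  have := abs_sub_le lam ((E + E') / 2) lam'
  rw [abs_sub_comm ((E + E') / 2) lam'] at this
  linarith

end Pool.Agent.TH635.J21
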