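import Pool.Agent.H695R3.PP.Stmts
import Pool.Agent.TH635.J20

set_option autoImplicit false

open scoped BigOperators ENNReal
open MeasureTheory

namespace Pool.Agent.TH635.J22
open Pool.Agent.H695R3.PP

/-- eigenbasis of any box (for TaskStep), may be assumed -/
def Compl2 : Prop := ∀ (V : ℤ → ℝ) (L : ℕ), ∃ (e : Fin (2 * L + 1) → ℝ) (ψ : Fin (2 * L + 1) → ℤ → ℝ),
    (∀ j, IsEig V (-(L : ℤ)) L (e j) (ψ j)) ∧
    (∀ i j, i ≠ j → ∑ n ∈ Finset.Icc (-(L : ℤ)) L, ψ i n * ψ j n = 0) ∧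
    ∀ f : ℤ → ℝ, (∀ n, n < -(L : ℤ) ∨ (L : ℤ) < n → f n = 0) → ∀ n, f n = ∑ j, (∑ k ∈ Finset.Icc (-(L : ℤ)) L, ψ j k * f k) * ψ j n

lemma zero_sol (V χ : ℤ → ℝ) (a b : ℤ) (E : ℝ) (h0 : ∀ n, n < a → χ n = 0) (ha : χ a = 0)
    (h : ∀ n, a ≤ n → n ≤ b → χ (n + 1) + χ (n - 1) + V n * χ n = E * χ n) :
    ∀ n, n ≤ b → χ n = 0 := by
  have key : ∀ k : ℕ, a + k ≤ b → χ (a + k) = 0 ∧ χ (a + k - 1) = 0 := by
    intro k
    induction k with
    | zero =>
      intro _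
      simp only [Nat.cast_zero, add_zero]
      exact ⟨ha, h0 _ (by omega)⟩
    | succ k ih =>
      intro hk
      push_cast at hk ⊢
      obtain ⟨h1, h2⟩ := ih (by omega)
      have h3 := h (a + k) (by omega) (by omega)
      rw [h1, h2] at h3
      have h4 : a + (k : ℤ) + 1 = a + (k + 1) := by ring
      rw [h4] at h3
      refine ⟨by linarith, ?_⟩
      have h5 : a + ((k : ℤ) + 1) - 1 = a + k := by ring
      rw [h5]; exact h1
  intro n hn
  rcases lt_or_ge n a with h1 | h1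
  · exact h0 n h1
  · obtain ⟨k, hk⟩ := Int.eq_ofNat_of_zero_le (show 0 ≤ n - a by omega)
    have hk' : n = a + k := by omega
    rw [hk']
    exact (key k (by omega)).1

lemma eig_ne_zero {V : ℤ → ℝ} {a b : ℤ} {E : ℝ} {ψ : ℤ → ℝ} (h : IsEig V a b E ψ) : ψ a ≠ 0 := by
  intro h0
  have h1 := zero_sol V ψ a b E (fun n hn => h.1 n (Or.inl hn)) h0 h.2.2
  have h2 := h.2.1
  rw [nsq, Finset.sum_eq_zero] at h2
  · norm_num at h2
  · intro n hn
    rw [Finset.mem_Icc] at hn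
    rw [h1 n hn.2]
    norm_num

lemma simple {V : ℤ → ℝ} {a b : ℤ} {E : ℝ} {ψ φ : ℤ → ℝ} (h1 : IsEig V a b E ψ)
    (h2 : IsEig V a b E φ) (horth : ∑ n ∈ Finset.Icc a b, ψ n * φ n = 0) : False := by
  have h3 := zero_sol V (fun n => φ a * ψ n - ψ a * φ n) a b E
    (fun n hn => by simp [h1.1 n (Or.inl hn), h2.1 n (Or.inl hn)]) (by ring)
    (fun n hn hn' => by
      have e1 := h1.2.2 n hn hn'
      have e2 := h2.2.2 n hn hn'
      linear_combination (φ a) * e1 - (ψ a) * e2)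
  have h4 : ∑ n ∈ Finset.Icc a b, (φ a * ψ n - ψ a * φ n) * ψ n = 0 := by
    apply Finset.sum_eq_zero
    intro n hn
    rw [Finset.mem_Icc] at hn
    have := h3 n hn.2
    rw [this, zero_mul]
  have h5 : ∑ n ∈ Finset.Icc a b, (φ a * ψ n - ψ a * φ n) * ψ n =
      φ a * nsq a b ψ - ψ a * ∑ n ∈ Finset.Icc a b, ψ n * φ n := by
    rw [nsq, Finset.mul_sum, Finset.mul_sum, ← Finset.sum_sub_distrib]
    apply Finset.sum_congr rfl
    intro n _
    ring
  rw [h5, horth, h1.2.1] at h4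
  exact eig_ne_zero h2 (by linarith)

lemma eig_smul {V : ℤ → ℝ} {a b : ℤ} {E : ℝ} {ψ : ℤ → ℝ} (h : IsEig V a b E ψ) (σ : ℝ)
    (hσ : σ ^ 2 = 1) : IsEig V a b E (fun n => σ * ψ n) := by
  refine ⟨fun n hn => by simp [h.1 n hn], ?_, fun n h1 h2 => ?_⟩
  · rw [nsq]
    have := h.2.1
    rw [nsq] at this
    simp_rw [mul_pow, hσ, one_mul]
    exact this
  · have := h.2.2 n h1 h2
    simp only
    linear_combination σ * this

theorem taskStep (h : Compl2) : TaskStep := by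
  classical
  intro V L L' E τ d ψ hL hτ hd hbad hψ hr hl
  obtain ⟨e, B, h1, h2', h3⟩ := h V L'
  have h2 : ∀ i j, ∑ k ∈ Finset.Icc (-(L' : ℤ)) L', B i k * B j k = if i = j then 1 else 0 := by
    intro i j
    split_ifs with hij
    · subst hij
      have := (h1 i).2.1
      rw [nsq] at this
      rw [← this]
      exact Finset.sum_congr rfl fun n _ => by ring
    · exact h2' i j hij
  have hLL : (L : ℤ) < L' := by exact_mod_cast hL
  have hsupp : ∀ n, n < -(L' : ℤ) ∨ (L' : ℤ) < n → ψ n = 0 := by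
    intro n hn
    exact hψ.1 n (by omega)
  set c : Fin (2 * L' + 1) → ℝ := fun j => ∑ k ∈ Finset.Icc (-(L' : ℤ)) L', B j k * ψ k with hc
  have hfe : ∀ n, ψ n = ∑ j, c j * B j n := h3 ψ hsupp
  have hnsq : nsq (-(L' : ℤ)) L' ψ = 1 := by
    rw [← hψ.2.1, nsq, nsq]
    symm
    apply Finset.sum_subset
    · intro n hn
      rw [Finset.mem_Icc] at hn ⊢
      omega
    · intro n _ hn
      rw [Finset.mem_Icc] at hn
      rw [hψ.1 n (by omega)]
      norm_num
  have hsum1 : ∑ j, c j ^ 2 = 1 := by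
    rw [← J20.parseval h2 c, ← hnsq, nsq]
    exact Finset.sum_congr rfl fun n _ => by rw [← hfe n]
  have hres : ∑ n ∈ Finset.Icc (-(L' : ℤ)) L', (ψ (n + 1) + ψ (n - 1) + V n * ψ n - E * ψ n) ^ 2 ≤
      2 * τ ^ 2 := by
    have hsub : ({-(L : ℤ) - 1, (L : ℤ) + 1} : Finset ℤ) ⊆ Finset.Icc (-(L' : ℤ)) L' := by
      intro n hn
      rw [Finset.mem_insert, Finset.mem_singleton] at hn
      rw [Finset.mem_Icc]
      omega
    rw [← Finset.sum_subset hsub]
    · rw [Finset.sum_pair (by omega)]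
      have a1 : ψ (-(L : ℤ) - 1) = 0 := hψ.1 _ (by omega)
      have a2 : ψ (-(L : ℤ) - 1 - 1) = 0 := hψ.1 _ (by omega)
      have a3 : ψ ((L : ℤ) + 1) = 0 := hψ.1 _ (by omega)
      have a4 : ψ ((L : ℤ) + 1 + 1) = 0 := hψ.1 _ (by omega)
      have a5 : -(L : ℤ) - 1 + 1 = -L := by ring
      have a6 : (L : ℤ) + 1 - 1 = L := by ring
      rw [a1, a2, a3, a4, a5, a6]
      have b1 : ψ (-(L : ℤ)) ^ 2 ≤ τ ^ 2 := by
        rw [← sq_abs (ψ _)]
        exact pow_le_pow_left₀ (abs_nonneg _) hl 2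
      have b2 : ψ (L : ℤ) ^ 2 ≤ τ ^ 2 := by
        rw [← sq_abs (ψ _)]
        exact pow_le_pow_left₀ (abs_nonneg _) hr 2
      nlinarith
    · intro n hn hn'
      rw [Finset.mem_Icc] at hn
      rw [Finset.mem_insert, Finset.mem_singleton] at hn'
      push Not at hn'
      by_cases hin : -(L : ℤ) ≤ n ∧ n ≤ L
      · rw [hψ.2.2 n hin.1 hin.2]; ring
      · have a1 : ψ n = 0 := hψ.1 _ (by omega)
        have a2 : ψ (n + 1) = 0 := hψ.1 _ (by omega)
        have a3 : ψ (n - 1) = 0 := hψ.1 _ (by omega)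
        rw [a1, a2, a3]; ring
  obtain ⟨i0, hi0⟩ := J20.core h1 h2 h3 E (2 * τ) ψ (by positivity) hsupp
    (by rw [hnsq]; norm_num) (by rw [hnsq]; nlinarith)
  have hres2 : ∑ j, (c j * (e j - E)) ^ 2 ≤ 2 * τ ^ 2 := by
    refine le_trans (le_of_eq ?_) hres
    rw [← J20.parseval h2 (fun j => c j * (e j - E))]
    apply Finset.sum_congr rfl
    intro n hn
    rw [Finset.mem_Icc] at hn
    congr 1
    rw [hfe (n + 1), hfe (n - 1), hfe n, Finset.mul_sum, Finset.mul_sum,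
      ← Finset.sum_add_distrib, ← Finset.sum_add_distrib, ← Finset.sum_sub_distrib]
    apply Finset.sum_congr rfl
    intro j _
    have := (h1 j).2.2 n hn.1 hn.2
    linear_combination (-(c j)) * this
  have hdpos : 0 < d := by linarith
  have hfar : ∀ i, i ≠ i0 → (d / 2) ^ 2 ≤ (e i - E) ^ 2 := by
    intro i hi
    have hne : e i ≠ e i0 := by
      intro heq
      have hh := h1 i
      rw [heq] at hh
      exact simple hh (h1 i0) (h2' i i0 hi)
    have hgt : d < |e i - e i0| := by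
      by_contra hle
      push Not at hle
      exact hbad ⟨e i, B i, e i0, B i0, h1 i, h1 i0, hne, hle⟩
    have h5 : |e i - e i0| ≤ |e i - E| + |e i0 - E| := by
      have := abs_sub_le (e i) E (e i0)
      rwa [abs_sub_comm E] at this
    rw [← sq_abs (e i - E)]
    apply pow_le_pow_left₀ (by positivity)
    linarith
  set s : ℝ := ∑ j ∈ Finset.univ.erase i0, c j ^ 2 with hs
  have hs1 : c i0 ^ 2 + s = 1 := by
    rw [← hsum1, hs]
    exact Finset.add_sum_erase _ (fun j => c j ^ 2) (Finset.mem_univ i0)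
  have hs0 : 0 ≤ s := Finset.sum_nonneg fun _ _ => sq_nonneg _
  have hs2 : (d / 2) ^ 2 * s ≤ 2 * τ ^ 2 := by
    rw [hs, Finset.mul_sum]
    calc ∑ j ∈ Finset.univ.erase i0, (d / 2) ^ 2 * c j ^ 2
        ≤ ∑ j ∈ Finset.univ.erase i0, (c j * (e j - E)) ^ 2 := by
          apply Finset.sum_le_sum
          intro j hj
          rw [mul_pow, mul_comm]
          exact mul_le_mul_of_nonneg_left (hfar j (Finset.ne_of_mem_erase hj)) (sq_nonneg _)
      _ ≤ ∑ j, (c j * (e j - E)) ^ 2 :=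
          Finset.sum_le_sum_of_subset_of_nonneg (Finset.erase_subset _ _)
            fun _ _ _ => sq_nonneg _
      _ ≤ _ := hres2
  set σ : ℝ := if 0 ≤ c i0 then 1 else -1 with hσ
  have hσ2 : σ ^ 2 = 1 := by rw [hσ]; split_ifs <;> norm_num
  have hσc : σ * c i0 = |c i0| := by
    rw [hσ]
    split_ifs with h0
    · rw [abs_of_nonneg h0, one_mul]
    · rw [abs_of_neg (not_le.mp h0)]; ring
  refine ⟨e i0, fun n => σ * B i0 n, eig_smul (h1 i0) σ hσ2, hi0, ?_⟩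
  have hexp : ∀ n, ψ n - σ * B i0 n = ∑ j, (c j - if j = i0 then σ else 0) * B j n := by
    intro n
    simp_rw [sub_mul]
    rw [Finset.sum_sub_distrib, ← hfe n]
    simp
  calc ∑ n ∈ Finset.Icc (-(L' : ℤ)) L', (ψ n - σ * B i0 n) ^ 2
      = ∑ j, (c j - if j = i0 then σ else 0) ^ 2 := by
        rw [← J20.parseval h2 (fun j => c j - if j = i0 then σ else 0)]
        exact Finset.sum_congr rfl fun n _ => by rw [hexp n]
    _ = (c i0 - σ) ^ 2 + s := by
        rw [← Finset.add_sum_erase _ _ (Finset.mem_univ i0), if_pos rfl, hs]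
        congr 1
        apply Finset.sum_congr rfl
        intro j hj
        rw [if_neg (Finset.ne_of_mem_erase hj), sub_zero]
    _ ≤ 2 * s := by
        have e1 : (c i0 - σ) ^ 2 = (1 - |c i0|) ^ 2 := by
          rw [← hσc]
          have : (c i0 - σ) ^ 2 = c i0 ^ 2 - 2 * (σ * c i0) + σ ^ 2 := by ring
          rw [this]
          have h7 : (1 - σ * c i0) ^ 2 = 1 - 2 * (σ * c i0) + σ ^ 2 * c i0 ^ 2 := by ring
          rw [h7, hσ2]; ring
        have e2 : |c i0| ^ 2 + s = 1 := by rw [sq_abs]; exact hs1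
        have e3 : 0 ≤ |c i0| := abs_nonneg _
        have e4 : |c i0| ≤ 1 := by nlinarith
        rw [e1]
        nlinarith
    _ ≤ (4 * τ / d) ^ 2 := by
        rw [div_pow, le_div_iff₀ (by positivity)]
        nlinarith

/-! ### limits of chains -/

lemma memlp {f : ℤ → ℝ} (h : Summable fun n => f n ^ 2) : Memℓp f 2 := by
  apply memℓp_gen
  convert h using 2 with n
  norm_num

/-- a square summable function as an element of `ℓ²` -/
noncomputable def toL (f : ℤ → ℝ) (h : Summable fun n => f n ^ 2) : lp (fun _ : ℤ => ℝ) 2 :=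
  ⟨f, memlp h⟩

lemma norm_sq (f : lp (fun _ : ℤ => ℝ) 2) : ‖f‖ ^ 2 = ∑' n, f n ^ 2 := by
  have h := lp.norm_rpow_eq_tsum (p := 2) (by norm_num) f
  norm_num at h
  exact h

lemma summ_sq (f : lp (fun _ : ℤ => ℝ) 2) : Summable fun n => f n ^ 2 := by
  have h := (lp.memℓp f).summable (by norm_num)
  norm_num at h
  exact h

lemma eig_fin {V : ℤ → ℝ} {a b : ℤ} {E : ℝ} {ψ : ℤ → ℝ} (h : IsEig V a b E ψ) :
    Summable fun n => ψ n ^ 2 := by
  apply summable_of_ne_finset_zero (s := Finset.Icc a b)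
  intro n hn
  rw [Finset.mem_Icc] at hn
  rw [h.1 n (by omega)]
  norm_num

theorem taskChain (hstep : TaskStep) : TaskChain := by
  intro V L a τ d k₀ hL hpos hb1 hb2 h4 ha hsum hsumτ E ψ hψ hψ0
  set P : ℕ → ℝ × (ℤ → ℝ) → Prop := fun j p =>
    IsEig V (-(L (k₀ + j) : ℤ)) (L (k₀ + j)) p.1 p.2 ∧ a (k₀ + j) ≤ |p.2 0| with hP
  set δ : ℕ → ℝ := fun j => 4 * (τ (k₀ + j) / d (k₀ + j + 1)) with hδ
  have hδ0 : ∀ j, 0 ≤ δ j := fun j => by
    have h1 := (hpos (k₀ + j)).2.1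
    have h2 := (hpos (k₀ + j + 1)).2.2
    simp only [hδ]
    positivity
  have step : ∀ j (p : {p // P j p}), ∃ q : {q // P (j + 1) q},
      |q.1.1 - p.1.1| ≤ 2 * τ (k₀ + j) ∧
      ∑ n ∈ Finset.Icc (-(L (k₀ + (j + 1)) : ℤ)) (L (k₀ + (j + 1))), (p.1.2 n - q.1.2 n) ^ 2 ≤
        δ j ^ 2 := by
    rintro j ⟨⟨E1, ψ1⟩, h1, h2⟩
    simp only at h1 h2
    have hnb := hb1 (k₀ + j) (by omega)
    have hr : |ψ1 (L (k₀ + j))| ≤ τ (k₀ + j) := by
      by_contra hc
      push Not at hc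
      exact hnb ⟨E1, ψ1, h1, h2, Or.inl hc.le⟩
    have hl : |ψ1 (-(L (k₀ + j) : ℤ))| ≤ τ (k₀ + j) := by
      by_contra hc
      push Not at hc
      exact hnb ⟨E1, ψ1, h1, h2, Or.inr hc.le⟩
    obtain ⟨E', φ, g1, g2, g3⟩ := hstep V (L (k₀ + j)) (L (k₀ + j + 1)) E1 (τ (k₀ + j))
      (d (k₀ + j + 1)) ψ1 (hL (by omega)) (hpos _).2.1 (h4 _ (by omega)) (hb2 _ (by omega)) h1 hr hl
    have g3' : ∑ n ∈ Finset.Icc (-(L (k₀ + j + 1) : ℤ)) (L (k₀ + j + 1)), (ψ1 n - φ n) ^ 2 ≤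
        δ j ^ 2 := by
      refine le_trans g3 (le_of_eq ?_)
      rw [hδ]; ring
    have g4 : (ψ1 0 - φ 0) ^ 2 ≤ δ j ^ 2 := by
      refine le_trans ?_ g3'
      apply Finset.single_le_sum (f := fun n => (ψ1 n - φ n) ^ 2) (fun n _ => sq_nonneg _)
      rw [Finset.mem_Icc]; omega
    have g5 : |ψ1 0 - φ 0| ≤ δ j := abs_le_of_sq_le_sq g4 (hδ0 j)
    have g6 : |ψ1 0| ≤ |φ 0| + |ψ1 0 - φ 0| := by
      have := abs_add_le (φ 0) (ψ1 0 - φ 0)
      rwa [add_sub_cancel] at this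
    have g7 := ha (k₀ + j) (by omega)
    have g8 : 4 * τ (k₀ + j) / d (k₀ + j + 1) = δ j := by rw [hδ]; ring
    rw [g8] at g7
    exact ⟨⟨(E', φ), g1, by simp only [← add_assoc]; linarith⟩, g2, g3'⟩
  choose F hF using step
  let s : ∀ j, {p // P j p} := fun j => Nat.rec ⟨(E, ψ), hψ, hψ0⟩ (fun j p => F j p) j
  have hs0 : (s 0).1 = (E, ψ) := rfl
  have hsS : ∀ j, s (j + 1) = F j (s j) := fun j => rfl
  set e : ℕ → ℝ := fun j => (s j).1.1 with he
  set f : ℕ → ℤ → ℝ := fun j => (s j).1.2 with hf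
  have hfe : ∀ j, IsEig V (-(L (k₀ + j) : ℤ)) (L (k₀ + j)) (e j) (f j) := fun j => (s j).2.1
  have hE : ∀ j, dist (e j) (e (j + 1)) ≤ 2 * τ (k₀ + j) := by
    intro j
    rw [Real.dist_eq, abs_sub_comm]
    have := (hF j (s j)).1
    rw [← hsS] at this
    exact this
  have hfd : ∀ j, ∑ n ∈ Finset.Icc (-(L (k₀ + (j + 1)) : ℤ)) (L (k₀ + (j + 1))),
      (f j n - f (j + 1) n) ^ 2 ≤ δ j ^ 2 := by
    intro j
    have := (hF j (s j)).2
    rw [← hsS] at this
    exact this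
  have hsτ' : Summable fun j => 2 * τ (k₀ + j) := by
    have := (summable_nat_add_iff k₀).mpr hsumτ
    simp_rw [add_comm _ k₀] at this
    exact this.mul_left 2
  have hsδ : Summable δ := by
    have := (summable_nat_add_iff k₀).mpr hsum
    simp_rw [add_comm _ k₀] at this
    exact this.mul_left 4
  obtain ⟨e', he'⟩ := cauchySeq_tendsto_of_complete (cauchySeq_of_dist_le_of_summable _ hE hsτ')
  set Ψ : ℕ → lp (fun _ : ℤ => ℝ) 2 := fun j => toL (f j) (eig_fin (hfe j)) with hΨ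
  have hΨn : ∀ j n, Ψ j n = f j n := fun j n => rfl
  have hΨd : ∀ j, dist (Ψ j) (Ψ (j + 1)) ≤ δ j := by
    intro j
    rw [dist_eq_norm]
    apply abs_le_of_sq_le_sq' _ (hδ0 j) |>.2
    rw [norm_sq]
    refine le_trans (le_of_eq ?_) (hfd j)
    rw [tsum_eq_sum (s := Finset.Icc (-(L (k₀ + (j + 1)) : ℤ)) (L (k₀ + (j + 1))))]
    · rfl
    · intro n hn
      have hLj : L (k₀ + j) < L (k₀ + (j + 1)) := hL (by omega)
      rw [Finset.mem_Icc] at hn
      have e1 : f j n = 0 := (hfe j).1 n (by omega)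
      have e2 : f (j + 1) n = 0 := (hfe (j + 1)).1 n (by omega)
      show (f j n - f (j + 1) n) ^ 2 = 0
      rw [e1, e2]; norm_num
  obtain ⟨Φ, hΦ⟩ := cauchySeq_tendsto_of_complete (cauchySeq_of_dist_le_of_summable _ hΨd hsδ)
  have hpt : ∀ n, Filter.Tendsto (fun j => f j n) Filter.atTop (nhds (Φ n)) := by
    intro n
    have := (lp.evalCLM (𝕜 := ℝ) (fun _ : ℤ => ℝ) 2 n).continuous.tendsto Φ |>.comp hΦ
    exact this
  refine ⟨e', Φ, summ_sq Φ, ?_, ?_, ?_⟩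
  · intro n
    have ht1 : Filter.Tendsto (fun j => f j (n + 1) + f j (n - 1) + V n * f j n) Filter.atTop
        (nhds (Φ (n + 1) + Φ (n - 1) + V n * Φ n)) :=
      ((hpt _).add (hpt _)).add ((hpt n).const_mul _)
    have ht2 : Filter.Tendsto (fun j => e j * f j n) Filter.atTop (nhds (e' * Φ n)) :=
      he'.mul (hpt n)
    refine tendsto_nhds_unique_of_eventuallyEq ht1 ht2 ?_
    filter_upwards [Filter.eventually_ge_atTop n.natAbs] with j hj
    have hLj : j ≤ L (k₀ + j) := le_trans (Nat.le_add_left j k₀) (hL.id_le (k₀ + j))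
    exact (hfe j).2.2 n (by omega) (by omega)
  · have := summ_sq (Ψ 0 - Φ)
    exact this
  · have h1 := dist_le_tsum_of_dist_le_of_tendsto₀ _ hΨd hsδ hΦ
    rw [dist_eq_norm] at h1
    have h2 : ‖Ψ 0 - Φ‖ ^ 2 ≤ (∑' j, δ j) ^ 2 := pow_le_pow_left₀ (norm_nonneg _) h1 2
    rw [norm_sq] at h2
    rw [← tsum_mul_left]
    exact h2

end Pool.Agent.TH635.J22
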