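import Pool.Agent.H314.BK.C3
import Pool.Agent.Helper734.Tay

set_option autoImplicit false

open MeasureTheory Complex Filter Topology
open scoped ContDiff ComplexConjugate

namespace Pool.Agent.TH635.J215

open BK

/-- two everywhere convergent expansions with the same sum have the same coefficients -/
theorem coeff_unique (a b : ℕ → ℂ) (g : ℂ → ℂ) (ha : ∀ l : ℂ, HasSum (fun m => a m * l ^ m) (g l))
    (hb : ∀ l : ℂ, HasSum (fun m => b m * l ^ m) (g l)) : a = b := by
  have key : ∀ c : ℕ → ℂ, (∀ l : ℂ, HasSum (fun m => c m * l ^ m) (g l)) →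
      HasFPowerSeriesAt g (FormalMultilinearSeries.ofScalars ℂ c) 0 := by
    intro c hc
    rw [hasFPowerSeriesAt_iff]
    refine Eventually.of_forall fun l => ?_
    rw [zero_add]
    refine (hc l).congr_fun ?_ |> fun h => h
    intro m
    rw [FormalMultilinearSeries.coeff_ofScalars, smul_eq_mul, mul_comm]
  have h := (key a ha).eq_formalMultilinearSeries (key b hb)
  funext m
  have h1 := congrArg (fun p => FormalMultilinearSeries.coeff p m) h
  simpa only [FormalMultilinearSeries.coeff_ofScalars] using h1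

theorem taylor_poly {n : ℕ} (G : En n → ℂ) (hG : Differentiable ℂ G) :
    ∃ P : ℕ → MvPolynomial (Fin n) ℂ, ∀ (N : ℕ) (z : En n) (M : ℝ),
      (∀ l : ℂ, ‖l‖ = 2 → ‖G (l • z)‖ ≤ M) → ‖G z - MvPolynomial.eval z (P N)‖ ≤ (1 / 2) ^ N * M := by
  obtain ⟨c, -, hc⟩ := Pool.Agent.Helper734.Tay.taylor G hG
  let b : ℕ → MvPolynomial (Fin n) ℂ := fun m =>
    ∑ α ∈ Finset.piAntidiag (Finset.univ : Finset (Fin n)) m,
      MvPolynomial.C (c α) * ∏ i, MvPolynomial.X i ^ α i
  have hbe : ∀ m (z : En n), MvPolynomial.eval z (b m) =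
      ∑ α ∈ Finset.piAntidiag (Finset.univ : Finset (Fin n)) m, c α * ∏ i, z i ^ α i := by
    intro m z
    simp [b, map_sum, map_mul, map_prod, map_pow]
  refine ⟨fun N => ∑ m ∈ Finset.range (N + 1), b m, ?_⟩
  intro N z M hM
  -- the expansion along the line
  have hline : ∀ l : ℂ, HasSum (fun m => MvPolynomial.eval z (b m) * l ^ m) (G (l • z)) := by
    intro l
    have h1 := hc (l • z)
    let e := Equiv.sigmaFiberEquiv (fun α : Fin n → ℕ => ∑ i, α i)
    have h2 := (e.hasSum_iff).2 h1
    refine h2.sigma ?_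
    intro m
    haveI : Fintype {α : Fin n → ℕ // ∑ i, α i = m} :=
      Fintype.subtype (Finset.piAntidiag (Finset.univ : Finset (Fin n)) m) (by
        intro α
        simp)
    have h3 : MvPolynomial.eval z (b m) * l ^ m =
        ∑ α : {α : Fin n → ℕ // ∑ i, α i = m}, c α.1 * ∏ i, (l • z) i ^ α.1 i := by
      rw [hbe, Finset.sum_mul]
      rw [← Finset.sum_subtype (Finset.piAntidiag (Finset.univ : Finset (Fin n)) m)
        (p := fun α : Fin n → ℕ => ∑ i, α i = m) (by intro α; simp)
        (fun α : Fin n → ℕ => c α * ∏ i, (l • z) i ^ α i)]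
      refine Finset.sum_congr rfl fun α hα => ?_
      have h4 : ∑ i, α i = m := by
        simpa using hα
      have h5 : ∏ i, (l • z) i ^ α i = l ^ m * ∏ i, z i ^ α i := by
        simp only [Pi.smul_apply, smul_eq_mul, mul_pow]
        rw [Finset.prod_mul_distrib, Finset.prod_pow_eq_pow_sum, h4]
      rw [h5]
      ring
    rw [h3]
    exact hasSum_fintype _
  set g : ℂ → ℂ := fun l => G (l • z) with hg
  have hgd : Differentiable ℂ g := by
    intro l
    have h1 : DifferentiableAt ℂ (fun l : ℂ => l • z) l :=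
      (differentiableAt_id).smul_const z
    exact (hG (l • z)).comp l h1
  have hT : ∀ l : ℂ, HasSum (fun m => (iteratedDeriv m g 0 / (m.factorial : ℂ)) * l ^ m) (g l) := by
    intro l
    have h := Complex.hasSum_taylorSeries_of_entire hgd 0 l
    refine h.congr_fun ?_ |> fun h => h
    intro m
    simp only [sub_zero, smul_eq_mul]
    rw [div_eq_mul_inv]
    ring
  have hcoef := coeff_unique _ _ g hline hT
  have hMn : 0 ≤ M := (norm_nonneg _).trans (hM 2 (by norm_num))
  have hbound : ∀ m, ‖MvPolynomial.eval z (b m)‖ ≤ M * (1 / 2) ^ m := by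
    intro m
    have h1 : MvPolynomial.eval z (b m) = iteratedDeriv m g 0 / (m.factorial : ℂ) :=
      congrFun hcoef m
    rw [h1]
    have h2 := Complex.norm_iteratedDeriv_le_of_forall_mem_sphere_norm_le (c := 0) (R := 2) (C := M)
      m (by norm_num) (f := g) hgd.diffContOnCl (by
        intro l hl
        apply hM
        simpa using hl)
    have h3 : (0 : ℝ) < m.factorial := by positivity
    rw [norm_div, Complex.norm_natCast, div_le_iff₀ h3]
    calc ‖iteratedDeriv m g 0‖ ≤ m.factorial * M / 2 ^ m := h2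
      _ = M * (1 / 2) ^ m * m.factorial := by
        rw [one_div, inv_pow]
        ring
  have hz := hline 1
  simp only [one_pow, mul_one, one_smul] at hz
  have hz2 := (hasSum_nat_add_iff' (N + 1)).2 hz
  rw [map_sum]
  have hgeo : HasSum (fun i : ℕ => M * (1 / 2 : ℝ) ^ (i + (N + 1))) ((1 / 2) ^ N * M) := by
    have h1 := (hasSum_geometric_two).mul_left (M * (1 / 2 : ℝ) ^ (N + 1))
    have h2 : M * (1 / 2 : ℝ) ^ (N + 1) * 2 = (1 / 2) ^ N * M := by
      rw [pow_succ]; ring
    rw [h2] at h1
    refine h1.congr_fun ?_ |> fun h => h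
    intro i
    rw [pow_add]
    ring
  calc ‖G z - ∑ i ∈ Finset.range (N + 1), MvPolynomial.eval z (b i)‖
      = ‖∑' i : ℕ, MvPolynomial.eval z (b (i + (N + 1)))‖ := by rw [hz2.tsum_eq]
    _ ≤ (1 / 2) ^ N * M := by
        refine tsum_of_norm_bounded hgeo ?_
        intro i
        exact hbound _

end Pool.Agent.TH635.J215
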