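import Pool.Agent.TH349.HI.Defs
set_option autoImplicit false
open Finset Equiv
namespace Pool.Agent.TH635.J376

open Pool.Agent.TH349.HI

/-- adjacency of the standard polygon -/
def adj {m : ℕ} (i j : Fin m) : Prop := (i.val + 1) % m = j.val ∨ (j.val + 1) % m = i.val

/-- automorphisms of the standard polygon -/
def Au {m : ℕ} (g : Perm (Fin m)) : Prop := ∀ i j, adj (g i) (g j) ↔ adj i j

theorem adj_iff {n : ℕ} (hn : 2 ≤ n) (i j : Fin (n + 1)) : adj i j ↔ (i + 1 = j ∨ j + 1 = i) := by
  have h : ∀ i j : Fin (n + 1), (i.val + 1) % (n + 1) = j.val ↔ i + 1 = j := by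
    intro i j
    rw [Fin.ext_iff, Fin.val_add]
    have : ((1 : Fin (n + 1)).val) = 1 := by
      rw [Fin.val_one']
      exact Nat.mod_eq_of_lt (by omega)
    rw [this]
  unfold adj
  rw [h, h]

theorem Au.mul {m : ℕ} {g g' : Perm (Fin m)} (h : Au g) (h' : Au g') : Au (g * g') := fun i j => by
  rw [Perm.mul_apply, Perm.mul_apply, h, h']

theorem Au.inv {m : ℕ} {g : Perm (Fin m)} (h : Au g) : Au g⁻¹ := fun i j => by
  rw [← h, ← Perm.mul_apply, ← Perm.mul_apply, mul_inv_cancel]; rfl

theorem Au.one {m : ℕ} : Au (1 : Perm (Fin m)) := fun i j => Iff.rfl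

open scoped Fin.CommRing

theorem Au_add {n : ℕ} (hn : 2 ≤ n) (c : Fin (n + 1)) : Au (Equiv.addRight c) := by
  intro i j
  rw [adj_iff hn, adj_iff hn]
  show (i + c + 1 = j + c ∨ j + c + 1 = i + c) ↔ _
  have e : ∀ i : Fin (n + 1), i + c + 1 = i + 1 + c := fun i => by ring
  rw [e, e]
  simp only [add_left_inj]

theorem Au_neg {n : ℕ} (hn : 2 ≤ n) : Au (Equiv.neg (Fin (n + 1))) := by
  intro i j
  rw [adj_iff hn, adj_iff hn]
  show (-i + 1 = -j ∨ -j + 1 = -i) ↔ _
  have e : ∀ i j : Fin (n + 1), -i + 1 = -j ↔ j + 1 = i := fun i j => by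
    constructor
    · intro h
      have h2 : i = j + 1 := by linear_combination (-1) * h
      exact h2.symm
    · intro h
      rw [← h]; ring
  rw [e, e]
  exact or_comm

theorem two_ne {n : ℕ} (hn : 2 ≤ n) (i : Fin (n + 1)) : i + 1 + 1 ≠ i := by
  intro h
  have h1 : (1 : Fin (n + 1)) + 1 = 0 := by
    have : i + (1 + 1) = i + 0 := by rw [add_zero, ← add_assoc]; exact h
    exact add_left_cancel this
  have h2 := congrArg Fin.val h1
  rw [Fin.val_add, Fin.val_one', Nat.mod_eq_of_lt (show 1 < n + 1 by omega),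
    Nat.mod_eq_of_lt (show 1 + 1 < n + 1 by omega)] at h2
  simp at h2

theorem Au_fix {n : ℕ} (hn : 2 ≤ n) (g : Perm (Fin (n + 1))) (hg : Au g) (h0 : g 0 = 0)
    (h1 : g 1 = 1) : g = 1 := by
  have key : ∀ k : ℕ, g (Nat.cast k) = Nat.cast k ∧ g (Nat.cast (k + 1)) = Nat.cast (k + 1) := by
    intro k
    induction k with
    | zero => simpa using ⟨h0, h1⟩
    | succ k ih =>
      refine ⟨ih.2, ?_⟩
      obtain ⟨i1, i2⟩ := ih
      have e : ((k + 1 + 1 : ℕ) : Fin (n + 1)) = ((k + 1 : ℕ) : Fin (n + 1)) + 1 := by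
        push_cast; ring
      have h2 : adj ((k + 1 : ℕ) : Fin (n + 1)) ((k + 1 + 1 : ℕ) : Fin (n + 1)) := by
        rw [adj_iff hn]
        exact Or.inl e.symm
      have h3 := (hg _ _).2 h2
      rw [adj_iff hn, i2] at h3
      rcases h3 with h3 | h3
      · rw [← h3, e]
      · exfalso
        have h4 : g ((k + 1 + 1 : ℕ) : Fin (n + 1)) = g ((k : ℕ) : Fin (n + 1)) := by
          rw [i1]
          have : g ((k + 1 + 1 : ℕ) : Fin (n + 1)) + 1 = ((k : ℕ) : Fin (n + 1)) + 1 := by
            rw [h3]; push_cast; ring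
          exact add_right_cancel this
        have h5 := g.injective h4
        refine two_ne hn ((k : ℕ) : Fin (n + 1)) ?_
        push_cast at h5
        exact h5
  ext i
  have h2 := (key i.val).1
  rw [Fin.cast_val_eq_self] at h2
  rw [h2]
  rfl

theorem sign_rev (n : ℕ) : Perm.sign (Fin.revPerm : Perm (Fin n)) = (-1) ^ (∑ i ∈ range n, i) := by
  rw [Equiv.Perm.sign_eq_prod_prod_Iio]
  have h : ∀ i : Fin n, (∏ j ∈ Finset.Iio i, if Fin.revPerm j < Fin.revPerm i then (1 : ℤˣ)
      else -1) = (-1) ^ i.val := by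
    intro i
    rw [Finset.prod_congr rfl (g := fun _ => (-1 : ℤˣ))]
    · rw [prod_const, Fin.card_Iio]
    · intro j hj
      rw [Finset.mem_Iio] at hj
      rw [if_neg]
      simp only [Fin.revPerm_apply, Fin.rev_lt_rev, not_lt]
      exact hj.le
  rw [prod_congr rfl fun i _ => h i, Finset.prod_pow_eq_pow_sum,
    Fin.sum_univ_eq_sum_range (fun i => i)]

theorem sign_add {n : ℕ} (hn : Even n) (c : Fin (n + 1)) :
    Perm.sign (Equiv.addRight c : Perm (Fin (n + 1))) = 1 := by
  have h1 : (Equiv.addRight c : Perm (Fin (n + 1))) ^ (n + 1) = 1 := by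
    have key : ∀ k : ℕ, ∀ i : Fin (n + 1), ((Equiv.addRight c : Perm (Fin (n + 1))) ^ k) i =
        i + k * c := by
      intro k
      induction k with
      | zero => intro i; simp
      | succ k ih =>
        intro i
        rw [pow_succ', Perm.mul_apply, ih]
        show i + k * c + c = _
        push_cast
        ring
    ext i
    rw [key, Fin.natCast_self, zero_mul, add_zero]
    rfl
  have h2 := congrArg Perm.sign h1
  rw [map_pow, map_one] at h2
  rcases Int.units_eq_one_or (Perm.sign (Equiv.addRight c : Perm (Fin (n + 1)))) with h | h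
  · exact h
  · rw [h] at h2
    have h3 : Odd (n + 1) := hn.add_one
    rw [h3.neg_one_pow] at h2
    exact absurd h2 (by decide)

theorem rot_eq (n : ℕ) : (finRotate (n + 1)) = Equiv.addRight 1 := by
  ext i
  rw [finRotate_succ_apply]
  rfl

theorem neg_eq (n : ℕ) (hn : 1 ≤ n) :
    (Equiv.neg (Fin (n + 1))) = Equiv.addRight 1 * Fin.revPerm := by
  ext i
  congr 1
  show -i = Fin.rev i + 1
  have h : Fin.rev i + 1 + i = 0 := by
    apply Fin.ext
    have hi := i.isLt
    rw [Fin.val_add, Fin.val_add, Fin.val_rev, Fin.val_one', Nat.mod_eq_of_lt (show 1 < n + 1 by omega),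
      Nat.mod_add_mod]
    have e : n + 1 - (i.val + 1) + 1 + i.val = n + 1 := by omega
    rw [e, Nat.mod_self]
    rfl
  linear_combination (-1) * h

theorem sign_neg (n : ℕ) (hn : 1 ≤ n) (he : Even n) :
    Perm.sign (Equiv.neg (Fin (n + 1))) = (-1) ^ (n / 2) := by
  rw [neg_eq n hn, Perm.sign_mul, sign_add he, sign_rev, one_mul, Finset.sum_range_id]
  obtain ⟨k, rfl⟩ := he
  have e1 : (k + k + 1) * (k + k + 1 - 1) / 2 = k * (2 * k + 1) := by
    rw [show (k + k + 1) * (k + k + 1 - 1) = k * (2 * k + 1) * 2 by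
      rw [Nat.add_sub_cancel]; ring]
    exact Nat.mul_div_cancel _ (by norm_num)
  have e2 : (k + k) / 2 = k := by omega
  rw [e1, e2, pow_mul]
  rcases Nat.even_or_odd k with h | h
  · rw [h.neg_one_pow, one_pow]
  · rw [h.neg_one_pow]
    exact (odd_two_mul_add_one k).neg_one_pow

/-- every automorphism is a rotation, or a rotation composed with the reflection -/
theorem Au_classify {n : ℕ} (hn : 2 ≤ n) (g : Perm (Fin (n + 1))) (hg : Au g) :
    ∃ c, g = Equiv.addRight c ∨ g = Equiv.addRight c * Equiv.neg (Fin (n + 1)) := by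
  refine ⟨g 0, ?_⟩
  set c := g 0 with hc
  have hA := Au_add hn (-c)
  set g1 : Perm (Fin (n + 1)) := Equiv.addRight (-c) * g with hg1
  have hAg1 : Au g1 := hA.mul hg
  have h0 : g1 0 = 0 := by
    show g 0 + -c = 0
    rw [← hc, add_neg_cancel]
  have hgg : g = Equiv.addRight c * g1 := by
    ext i
    congr 1
    show g i = g i + -c + c
    rw [neg_add_cancel_right]
  have h2 : adj (g1 0) (g1 1) := by
    rw [hAg1, adj_iff hn]
    left
    rw [zero_add]
  rw [adj_iff hn, h0] at h2
  rcases h2 with h2 | h2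
  · left
    have h3 : g1 = 1 := Au_fix hn g1 hAg1 h0 (by rw [← h2, zero_add])
    rw [hgg, h3, mul_one]
  · right
    have h3 : g1 1 = -1 := by linear_combination h2
    have h4 : Equiv.neg (Fin (n + 1)) * g1 = 1 := by
      refine Au_fix hn _ ((Au_neg hn).mul hAg1) ?_ ?_
      · show -(g1 0) = 0
        rw [h0, neg_zero]
      · show -(g1 1) = 1
        rw [h3, neg_neg]
    have h5 : g1 = Equiv.neg (Fin (n + 1)) := by
      have : Equiv.neg (Fin (n + 1)) * (Equiv.neg (Fin (n + 1)) * g1) = g1 := by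
        ext i
        congr 1
        show - - g1 i = g1 i
        rw [neg_neg]
      rw [← this, h4, mul_one]
    rw [hgg, h5]

theorem Au_even {n : ℕ} (hn : 2 ≤ n) (h4 : n % 4 = 0) (g : Perm (Fin (n + 1))) (hg : Au g) :
    Perm.sign g = 1 := by
  have he : Even n := by
    rw [Nat.even_iff]; omega
  obtain ⟨c, h | h⟩ := Au_classify hn g hg
  · rw [h, sign_add he]
  · rw [h, Perm.sign_mul, sign_add he, sign_neg n (by omega) he, one_mul]
    have : Even (n / 2) := by
      rw [Nat.even_iff]; omega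
    exact this.neg_one_pow

theorem Au_odd {n : ℕ} (hn : 2 ≤ n) (h4 : n % 4 ≠ 0) :
    ∃ g : Perm (Fin (n + 1)), Au g ∧ Perm.sign g = -1 := by
  rcases Nat.even_or_odd n with he | ho
  · refine ⟨Equiv.neg _, Au_neg hn, ?_⟩
    rw [sign_neg n (by omega) he]
    have : Odd (n / 2) := by
      rw [Nat.even_iff] at he
      rw [Nat.odd_iff]; omega
    exact this.neg_one_pow
  · refine ⟨finRotate (n + 1), ?_, ?_⟩
    · rw [rot_eq]
      exact Au_add hn 1
    · rw [sign_finRotate, Nat.add_sub_cancel]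
      exact ho.neg_one_pow

theorem adj_iff' {n : ℕ} (hn : 2 ≤ n) (i j : Fin (n + 1)) : adj i j ↔ (j = i + 1 ∨ j = i - 1) := by
  rw [adj_iff hn]
  constructor
  · rintro (h | h)
    · exact Or.inl h.symm
    · exact Or.inr (by rw [← h]; ring)
  · rintro (h | h)
    · exact Or.inl h.symm
    · exact Or.inr (by rw [h]; ring)

/-- the polygon with labelling `f` -/
def PS (W : Type) {n : ℕ} (hn : 2 ≤ n) (f : Perm (Fin (n + 1))) : Str W (Fin (n + 1)) where
  A a b := adj (f.symm a) (f.symm b)
  T _ _ := False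
  symm a b h := Or.symm h
  irr a h := by
    rw [adj_iff hn] at h
    have h1 : f.symm a + 1 = f.symm a := by
      rcases h with h | h <;> exact h
    refine two_ne hn (f.symm a) ?_
    rw [h1, h1]
  deg a := by
    have h1 : Nat.card {w : W // False} = 0 := by simp
    rw [h1, add_zero]
    rw [Nat.subtype_card ({f (f.symm a + 1), f (f.symm a - 1)} : Finset (Fin (n + 1))) ?_]
    · rw [Finset.card_pair]
      intro h
      have h2 := f.injective h
      refine two_ne hn (f.symm a - 1) ?_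
      rw [sub_add_cancel]
      exact h2
    · intro b
      rw [adj_iff' hn, Finset.mem_insert, Finset.mem_singleton]
      rw [← Equiv.symm_apply_eq, ← Equiv.symm_apply_eq]

theorem PS_cyc (W : Type) {n : ℕ} (hn : 2 ≤ n) (f : Perm (Fin (n + 1))) : IsCyc (PS W hn f) f := by
  refine ⟨by omega, ?_, ?_⟩
  · intro i j
    show adj (f.symm (f i)) (f.symm (f j)) ↔ _
    rw [f.symm_apply_apply, f.symm_apply_apply]
    rfl
  · intro i w h
    exact h

theorem cyc_unique {W : Type} {m : ℕ} {C C' : Str W (Fin m)} {f : Perm (Fin m)}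
    (h : IsCyc C f) (h' : IsCyc C' f) : C = C' := by
  apply Str.ext
  · funext a b
    have h1 := h.2.1 (f.symm a) (f.symm b)
    have h2 := h'.2.1 (f.symm a) (f.symm b)
    rw [f.apply_symm_apply, f.apply_symm_apply] at h1 h2
    exact propext (h1.trans h2.symm)
  · funext a w
    have h1 := h.2.2 (f.symm a) w
    have h2 := h'.2.2 (f.symm a) w
    rw [f.apply_symm_apply] at h1 h2
    exact propext ⟨fun h => absurd h h1, fun h => absurd h h2⟩

theorem cyc_A {W : Type} {m : ℕ} {C : Str W (Fin m)} {f : Perm (Fin m)}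
    (h : IsCyc C f) (i j : Fin m) : C.A (f i) (f j) ↔ adj i j := h.2.1 i j

theorem cyc_T {W : Type} {m : ℕ} {C : Str W (Fin m)} {f : Perm (Fin m)}
    (h : IsCyc C f) (a : Fin m) (w : W) : ¬ C.T a w := by
  have h1 := h.2.2 (f.symm a) w
  rwa [f.apply_symm_apply] at h1

theorem cyc_iff {W : Type} {m : ℕ} {C : Str W (Fin m)} {f : Perm (Fin m)}
    (h : IsCyc C f) (g : Perm (Fin m)) : IsCyc C (f * g) ↔ Au g := by
  constructor
  · intro h' i j
    rw [← cyc_A h, ← cyc_A h' i j]
    rfl
  · intro hg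
    refine ⟨h.1, ?_, ?_⟩
    · intro i j
      show C.A (f (g i)) (f (g j)) ↔ _
      rw [cyc_A h, hg]
      rfl
    · intro i w
      exact cyc_T h _ _

theorem cyc_Fx {W : Type} {m : ℕ} {C : Str W (Fin m)} {f : Perm (Fin m)}
    (h : IsCyc C f) (τ : Perm W) (g : Perm (Fin m)) : C.Fx τ (f * g * f⁻¹) ↔ Au g := by
  have e : ∀ i, (f * g * f⁻¹) (f i) = f (g i) := by
    intro i
    show f (g (f.symm (f i))) = f (g i)
    rw [f.symm_apply_apply]
  constructor
  · intro h' i j
    have h1 := h'.1 (f i) (f j)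
    rw [e, e, cyc_A h, cyc_A h] at h1
    exact h1
  · intro hg
    refine ⟨?_, ?_⟩
    · intro a b
      have h1 : a = f (f.symm a) := (f.apply_symm_apply a).symm
      have h2 : b = f (f.symm b) := (f.apply_symm_apply b).symm
      rw [h1, h2, e, e, cyc_A h, cyc_A h, hg]
    · intro a w
      exact ⟨fun h' => absurd h' (cyc_T h _ _), fun h' => absurd h' (cyc_T h _ _)⟩

theorem cyc_e {W : Type} [Finite W] {m : ℕ} {C : Str W (Fin m)} {f : Perm (Fin m)}
    (h : IsCyc C f) : C.e = m := by
  unfold Str.e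
  have h1 : Nat.card {p : Fin m × W // C.T p.1 p.2} = 0 := by
    rw [Nat.card_eq_zero]
    left
    exact ⟨fun p => cyc_T h _ _ p.2⟩
  have h2 : Nat.card {p : Fin m × Fin m // C.A p.1 p.2} = 2 * m := by
    have e1 : {p : Fin m × Fin m // C.A p.1 p.2} ≃ Σ a : Fin m, {b // C.A a b} :=
      { toFun := fun p => ⟨p.1.1, p.1.2, p.2⟩
        invFun := fun p => ⟨(p.1, p.2.1), p.2.2⟩
        left_inv := fun p => rfl
        right_inv := fun p => rfl }
    rw [Nat.card_congr e1, Nat.card_sigma]
    have h3 : ∀ a, Nat.card {b // C.A a b} = 2 := by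
      intro a
      have h4 := C.deg a
      have h5 : Nat.card {w // C.T a w} = 0 := by
        rw [Nat.card_eq_zero]
        left
        exact ⟨fun p => cyc_T h _ _ p.2⟩
      rw [h5, add_zero] at h4
      exact h4
    simp only [h3, sum_const, card_univ, Fintype.card_fin, smul_eq_mul]
    ring
  rw [h1, h2, zero_add, Nat.mul_div_cancel_left _ (by norm_num)]

open Classical in
theorem cyc_sum {F : Type} [Field F] [CharZero F] (W : Type) [Fintype W] (τ : Perm W) (x : F)
    (m : ℕ) :
    (∑ ρ : Perm (Fin m), ∑ C : Str W (Fin m),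
      if (∃ f, IsCyc C f) ∧ C.Fx τ ρ then ((Perm.sign ρ : ℤ) : F) * x ^ C.e else 0) =
    if m % 4 = 1 ∧ 5 ≤ m then (m.factorial : F) * x ^ m else 0 := by
  rcases Nat.lt_or_ge m 3 with hm | hm
  · rw [if_neg (by omega)]
    refine Finset.sum_eq_zero fun ρ _ => Finset.sum_eq_zero fun C _ => ?_
    rw [if_neg]
    rintro ⟨⟨f, hf⟩, -⟩
    exact absurd hf.1 (by omega)
  obtain ⟨n, rfl⟩ : ∃ n, m = n + 1 := ⟨m - 1, by omega⟩
  have hn : 2 ≤ n := by omega
  set a : F := ∑ g : Perm (Fin (n + 1)), if Au g then 1 else 0 with ha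
  set G : F := ∑ g : Perm (Fin (n + 1)), if Au g then ((Perm.sign g : ℤ) : F) else 0 with hG
  have ha0 : a ≠ 0 := by
    rw [ha, Finset.sum_boole]
    rw [Nat.cast_ne_zero]
    rw [Finset.card_ne_zero]
    exact ⟨1, by rw [Finset.mem_filter]; exact ⟨Finset.mem_univ _, Au.one⟩⟩
  have hcnt : ∀ (C : Str W (Fin (n + 1))) (f0 : Perm (Fin (n + 1))), IsCyc C f0 →
      (∑ f : Perm (Fin (n + 1)), if IsCyc C f then (1 : F) else 0) = a := by
    intro C f0 h0
    rw [ha, ← Equiv.sum_comp (Equiv.mulLeft f0)]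
    refine Finset.sum_congr rfl fun g _ => ?_
    rw [Equiv.coe_mulLeft]
    simp only [cyc_iff h0]
  set S : F := (∑ ρ : Perm (Fin (n + 1)), ∑ C : Str W (Fin (n + 1)),
      if (∃ f, IsCyc C f) ∧ C.Fx τ ρ then ((Perm.sign ρ : ℤ) : F) * x ^ C.e else 0) with hS
  have h1 : a * S = ∑ f : Perm (Fin (n + 1)), ∑ C : Str W (Fin (n + 1)),
      ∑ ρ : Perm (Fin (n + 1)), if IsCyc C f ∧ C.Fx τ ρ then
        ((Perm.sign ρ : ℤ) : F) * x ^ C.e else 0 := by
    rw [Finset.sum_comm]
    rw [hS, Finset.sum_comm, Finset.mul_sum]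
    refine Finset.sum_congr rfl fun C _ => ?_
    rw [Finset.sum_comm, Finset.mul_sum]
    refine Finset.sum_congr rfl fun ρ _ => ?_
    by_cases hF : C.Fx τ ρ
    · by_cases hE : ∃ f, IsCyc C f
      · obtain ⟨f0, h0⟩ := hE
        rw [if_pos ⟨⟨f0, h0⟩, hF⟩]
        rw [← hcnt C f0 h0, Finset.sum_mul]
        refine Finset.sum_congr rfl fun f _ => ?_
        by_cases hf : IsCyc C f
        · rw [if_pos hf, if_pos ⟨hf, hF⟩, one_mul]
        · rw [if_neg hf, if_neg (fun h => hf h.1), zero_mul]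
      · rw [if_neg (fun h => hE h.1), mul_zero]
        symm
        refine Finset.sum_eq_zero fun f _ => ?_
        rw [if_neg (fun h => hE ⟨f, h.1⟩)]
    · rw [if_neg (fun h => hF h.2), mul_zero]
      symm
      refine Finset.sum_eq_zero fun f _ => ?_
      rw [if_neg (fun h => hF h.2)]
  have h2 : ∀ f : Perm (Fin (n + 1)), (∑ C : Str W (Fin (n + 1)),
      ∑ ρ : Perm (Fin (n + 1)), if IsCyc C f ∧ C.Fx τ ρ then
        ((Perm.sign ρ : ℤ) : F) * x ^ C.e else 0) = G * x ^ (n + 1) := by
    intro f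
    rw [Finset.sum_eq_single (PS W hn f)]
    · have hP := PS_cyc W hn f
      rw [← Equiv.sum_comp (Equiv.mulLeft f), ← Equiv.sum_comp (Equiv.mulRight f⁻¹), hG,
        Finset.sum_mul]
      refine Finset.sum_congr rfl fun g _ => ?_
      rw [Equiv.coe_mulLeft, Equiv.coe_mulRight]
      beta_reduce
      rw [← mul_assoc, cyc_e hP]
      simp only [hP, true_and, cyc_Fx hP]
      by_cases hg : Au g
      · rw [if_pos hg, if_pos hg, Perm.sign_mul, Perm.sign_mul, Perm.sign_inv,
          mul_comm (Perm.sign f), mul_assoc, Int.units_mul_self, mul_one]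
      · rw [if_neg hg, if_neg hg, zero_mul]
    · intro C _ hC
      refine Finset.sum_eq_zero fun ρ _ => ?_
      rw [if_neg]
      rintro ⟨h, -⟩
      exact hC (cyc_unique h (PS_cyc W hn f))
    · intro h
      exact absurd (Finset.mem_univ _) h
  rw [Finset.sum_congr rfl fun f _ => h2 f, Finset.sum_const, Finset.card_univ, Fintype.card_perm,
    Fintype.card_fin, nsmul_eq_mul] at h1
  by_cases h4 : n % 4 = 0
  · rw [if_pos (by omega)]
    have hGa : G = a := by
      rw [hG, ha]
      refine Finset.sum_congr rfl fun g _ => ?_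
      by_cases hg : Au g
      · rw [if_pos hg, if_pos hg, Au_even hn h4 g hg]
        simp
      · rw [if_neg hg, if_neg hg]
    rw [hGa] at h1
    apply mul_left_cancel₀ ha0
    rw [h1]
    ring
  · rw [if_neg (by omega)]
    have hG0 : G = 0 := by
      obtain ⟨g1, hg1, hs1⟩ := Au_odd hn h4
      have h5 : G = -G := by
        conv_lhs => rw [hG]
        rw [← Equiv.sum_comp (Equiv.mulRight g1), hG, ← Finset.sum_neg_distrib]
        refine Finset.sum_congr rfl fun g _ => ?_
        rw [Equiv.coe_mulRight]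
        have h6 : Au (g * g1) ↔ Au g := by
          constructor
          · intro h
            have := h.mul hg1.inv
            rwa [mul_inv_cancel_right] at this
          · intro h
            exact h.mul hg1
        by_cases hg : Au g
        · rw [if_pos (h6.2 hg), if_pos hg, Perm.sign_mul, hs1]
          simp
        · rw [if_neg (fun h => hg (h6.1 h)), if_neg hg, neg_zero]
      exact self_eq_neg.1 h5
    rw [hG0, zero_mul, mul_zero] at h1
    exact (mul_eq_zero.1 h1).resolve_left ha0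

end Pool.Agent.TH635.J376
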