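import Pool.Agent.TH349.HI.Defs
set_option autoImplicit false
open Finset Equiv
namespace Pool.Agent.TH635.J377

open Pool.Agent.TH349.HI

theorem IsPath.conn {W : Type} {m : ℕ} (C : Str W (Fin m)) (f : Perm (Fin m)) (u v : W)
    (h : IsPath C f u v) : C.Conn ∧ ¬ ∃ f, IsCyc C f := by
  obtain ⟨hA, hT⟩ := h
  refine ⟨?_, ?_⟩
  · intro X hX hcl
    obtain ⟨a, ha⟩ := hX
    have h1 : f (f.symm a) = a := f.apply_symm_apply a
    have key : ∀ d : ℕ, ∀ j : Fin m, (j.val = (f.symm a).val + d ∨ j.val + d = (f.symm a).val) →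
        f j ∈ X := by
      intro d
      induction d with
      | zero =>
        intro j hj
        have : j = f.symm a := Fin.ext (by omega)
        rw [this, h1]
        exact ha
      | succ d ih =>
        intro j hj
        have hj2 := j.isLt
        have hi2 := (f.symm a).isLt
        rcases hj with hj | hj
        · have h2 := ih ⟨j.val - 1, by omega⟩ (Or.inl (by simp only; omega))
          refine hcl _ _ h2 ((hA _ _).2 (Or.inl ?_))
          simp only
          omega
        · have h2 := ih ⟨j.val + 1, by omega⟩ (Or.inr (by simp only; omega))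
          refine hcl _ _ h2 ((hA _ _).2 (Or.inr ?_))
          simp only
    ext b
    refine ⟨fun _ => Set.mem_univ _, fun _ => ?_⟩
    have h3 : f (f.symm b) = b := f.apply_symm_apply b
    rw [← h3]
    rcases le_total (f.symm a).val (f.symm b).val with h | h
    · exact key ((f.symm b).val - (f.symm a).val) _ (Or.inl (by omega))
    · exact key ((f.symm a).val - (f.symm b).val) _ (Or.inr (by omega))
  · rintro ⟨g, hm, -, hT'⟩
    have h1 : C.T (f ⟨0, by omega⟩) u := (hT _ _).2 (Or.inl ⟨rfl, rfl⟩)
    have h2 := hT' (g.symm (f ⟨0, by omega⟩)) u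
    rw [g.apply_symm_apply] at h2
    exact h2 h1

theorem IsCyc.conn {W : Type} {m : ℕ} (C : Str W (Fin m)) (f : Perm (Fin m))
    (h : IsCyc C f) : C.Conn := by
  obtain ⟨hm, hA, -⟩ := h
  intro X hX hcl
  obtain ⟨a, ha⟩ := hX
  have h1 : f (f.symm a) = a := f.apply_symm_apply a
  have key : ∀ d : ℕ, ∀ j : Fin m, j.val = ((f.symm a).val + d) % m → f j ∈ X := by
    intro d
    induction d with
    | zero =>
      intro j hj
      have : j = f.symm a := by
        apply Fin.ext
        rw [hj, add_zero, Nat.mod_eq_of_lt (f.symm a).isLt]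
      rw [this, h1]
      exact ha
    | succ d ih =>
      intro j hj
      have h2 := ih ⟨((f.symm a).val + d) % m, Nat.mod_lt _ (by omega)⟩ rfl
      refine hcl _ _ h2 ((hA _ _).2 (Or.inl ?_))
      simp only
      rw [hj, Nat.mod_add_mod]
      rfl
  ext b
  refine ⟨fun _ => Set.mem_univ _, fun _ => ?_⟩
  have h3 : f (f.symm b) = b := f.apply_symm_apply b
  rw [← h3]
  have hi2 := (f.symm a).isLt
  have hj2 := (f.symm b).isLt
  refine key ((f.symm b).val + m - (f.symm a).val) _ ?_
  have e : (f.symm a).val + ((f.symm b).val + m - (f.symm a).val) = (f.symm b).val + m := by omega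
  rw [e, Nat.add_mod_right, Nat.mod_eq_of_lt hj2]

end Pool.Agent.TH635.J377
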