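import Pool.Agent.TH37.RF.Defs

set_option autoImplicit false

/-! Job RF-CORE for helper37 (MP_5aea19_al): counting commutators. -/

namespace Pool.Agent.TH635.RFCore

open Pool.Agent.TH37.RF

/-- extended alphabet: the generators and their commutators -/
abbrev Lam (r : ℕ) := Fin r ⊕ (Fin r × Fin r)

section
variable {C : Type} [Ring C] {r : ℕ} (b : Fin r → C)

/-- commutator of generators -/
def nu (q : Fin r × Fin r) : C := b q.1 * b q.2 - b q.2 * b q.1

/-- the value of a letter -/
def vv (s : Lam r) : C := Sum.elim b (nu b) s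

/-- number of commutator letters -/
def cn (l : List (Lam r)) : ℕ := l.countP Sum.isRight
/-- number of generator letters -/
def cb (l : List (Lam r)) : ℕ := l.countP Sum.isLeft

theorem cn_inr (q : Fin r × Fin r) (l : List (Lam r)) : cn (Sum.inr q :: l) = cn l + 1 := by
  unfold cn
  rw [List.countP_cons_of_pos (by rfl)]

theorem cn_inl (i : Fin r) (l : List (Lam r)) : cn (Sum.inl i :: l) = cn l := by
  unfold cn
  rw [List.countP_cons_of_neg (by simp)]

theorem cb_inr (q : Fin r × Fin r) (l : List (Lam r)) : cb (Sum.inr q :: l) = cb l := by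
  unfold cb
  rw [List.countP_cons_of_neg (by simp)]

theorem cb_inl (i : Fin r) (l : List (Lam r)) : cb (Sum.inl i :: l) = cb l + 1 := by
  unfold cb
  rw [List.countP_cons_of_pos (by rfl)]

theorem wd_app {Λ : Type} (v : Λ → C) (l l' : List Λ) : wd v (l ++ l') = wd v l * wd v l' := by
  simp [wd]

theorem wd_cons {Λ : Type} (v : Λ → C) (s : Λ) (l : List Λ) : wd v (s :: l) = v s * wd v l := by
  simp [wd]

theorem wd_nil {Λ : Type} (v : Λ → C) : wd v ([] : List Λ) = 1 := by
  simp [wd]

variable (F : Type) [Field F] [Algebra F C]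

/-- span of the values of words with at least `k` commutators and `n` generators -/
def II (k n : ℕ) : Submodule F C :=
  Submodule.span F {a | ∃ l : List (Lam r), k ≤ cn l ∧ n ≤ cb l ∧ a = wd (vv b) l}

theorem II_mono {k n k' n' : ℕ} (hk : k' ≤ k) (hn : n' ≤ n) : II b F k n ≤ II b F k' n' := by
  refine Submodule.span_mono ?_
  rintro _ ⟨l, h1, h2, rfl⟩
  exact ⟨l, hk.trans h1, hn.trans h2, rfl⟩

theorem wd_mem (l : List (Lam r)) : wd (vv b) l ∈ II b F (cn l) (cb l) :=
  Submodule.subset_span ⟨l, le_rfl, le_rfl, rfl⟩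

theorem II_mul {k n k' n' : ℕ} {a a' : C} (ha : a ∈ II b F k n) (ha' : a' ∈ II b F k' n') :
    a * a' ∈ II b F (k + k') (n + n') := by
  have h := Submodule.mul_mem_mul ha ha'
  rw [II, II, Submodule.span_mul_span] at h
  refine Submodule.span_mono ?_ h
  rintro _ ⟨_, ⟨l, hk, hn, rfl⟩, _, ⟨l', hk', hn', rfl⟩, rfl⟩
  refine ⟨l ++ l', ?_, ?_, (wd_app _ _ _).symm⟩
  · unfold cn at *
    rw [List.countP_append]
    omega
  · unfold cb at *
    rw [List.countP_append]
    omega

theorem one_mem : (1 : C) ∈ II b F 0 0 :=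
  Submodule.subset_span ⟨[], le_rfl, le_rfl, (wd_nil _).symm⟩

theorem II_mul_00 {a a' : C} (ha : a ∈ II b F 0 0) (ha' : a' ∈ II b F 0 0) :
    a * a' ∈ II b F 0 0 := by
  have h := II_mul b F ha ha'
  rwa [Nat.add_zero] at h

theorem II_top (hgen : Algebra.adjoin F (Set.range b) = ⊤) (a : C) : a ∈ II b F 0 0 := by
  have ha : a ∈ Algebra.adjoin F (Set.range b) := by rw [hgen]; exact Algebra.mem_top
  induction ha using Algebra.adjoin_induction with
  | mem x hx =>
    obtain ⟨i, rfl⟩ := hx
    refine Submodule.subset_span ⟨[Sum.inl i], Nat.zero_le _, Nat.zero_le _, ?_⟩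
    simp [wd, vv]
  | algebraMap t =>
    rw [Algebra.algebraMap_eq_smul_one]
    exact Submodule.smul_mem _ _ (one_mem b F)
  | add x y _ _ hx hy => exact Submodule.add_mem _ hx hy
  | mul x y _ _ hx hy => exact II_mul_00 b F hx hy

theorem II_mul_l (hgen : Algebra.adjoin F (Set.range b) = ⊤) {k n : ℕ} (a : C) {a' : C}
    (ha' : a' ∈ II b F k n) : a * a' ∈ II b F k n := by
  have h := II_mul b F (II_top b F hgen a) ha'
  rwa [Nat.zero_add, Nat.zero_add] at h

theorem II_mul_r (hgen : Algebra.adjoin F (Set.range b) = ⊤) {k n : ℕ} {a : C} (a' : C)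
    (ha : a ∈ II b F k n) : a * a' ∈ II b F k n := by
  have h := II_mul b F ha (II_top b F hgen a')
  rwa [Nat.add_zero, Nat.add_zero] at h

theorem nu_mem (q : Fin r × Fin r) : nu b q ∈ II b F 1 0 := by
  refine Submodule.subset_span ⟨[Sum.inr q], ?_, Nat.zero_le _, ?_⟩
  · simp [cn]
  · simp [wd, vv]

theorem comm_mem (hgen : Algebra.adjoin F (Set.range b) = ⊤) (u v : C) :
    u * v - v * u ∈ II b F 1 0 := by
  have h1 : ∀ i, ∀ v : C, b i * v - v * b i ∈ II b F 1 0 := by
    intro i v
    have hv : v ∈ Algebra.adjoin F (Set.range b) := by rw [hgen]; exact Algebra.mem_top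
    induction hv using Algebra.adjoin_induction with
    | mem x hx =>
      obtain ⟨j, rfl⟩ := hx
      exact nu_mem b F (i, j)
    | algebraMap t =>
      rw [Algebra.commutes, sub_self]
      exact Submodule.zero_mem _
    | add x y _ _ hx hy =>
      have : b i * (x + y) - (x + y) * b i = (b i * x - x * b i) + (b i * y - y * b i) := by
        noncomm_ring
      rw [this]
      exact Submodule.add_mem _ hx hy
    | mul x y _ _ hx hy =>
      have : b i * (x * y) - (x * y) * b i = (b i * x - x * b i) * y + x * (b i * y - y * b i) := by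
        noncomm_ring
      rw [this]
      exact Submodule.add_mem _ (II_mul_r b F hgen y hx) (II_mul_l b F hgen x hy)
  have hu : u ∈ Algebra.adjoin F (Set.range b) := by rw [hgen]; exact Algebra.mem_top
  induction hu using Algebra.adjoin_induction with
  | mem x hx =>
    obtain ⟨j, rfl⟩ := hx
    exact h1 j v
  | algebraMap t =>
    rw [Algebra.commutes, sub_self]
    exact Submodule.zero_mem _
  | add x y _ _ hx hy =>
    have : (x + y) * v - v * (x + y) = (x * v - v * x) + (y * v - v * y) := by
      noncomm_ring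
    rw [this]
    exact Submodule.add_mem _ hx hy
  | mul x y _ _ hx hy =>
    have : (x * y) * v - v * (x * y) = x * (y * v - v * y) + (x * v - v * x) * y := by
      noncomm_ring
    rw [this]
    exact Submodule.add_mem _ (II_mul_l b F hgen x hy) (II_mul_r b F hgen y hx)

theorem commIdeal_le (hgen : Algebra.adjoin F (Set.range b) = ⊤) {a : C} (ha : a ∈ commIdeal C) :
    a ∈ II b F 1 0 := by
  let J : TwoSidedIdeal C := TwoSidedIdeal.mk' (II b F 1 0 : Set C) (Submodule.zero_mem _)
    (fun hx hy => Submodule.add_mem _ hx hy) (fun hx => Submodule.neg_mem _ hx)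
    (fun {x y} hy => II_mul_l b F hgen x hy)
    (fun {x y} hx => II_mul_r b F hgen y hx)
  have hJ : commIdeal C ≤ J := by
    unfold commIdeal
    rw [TwoSidedIdeal.span_le]
    rintro _ ⟨u, v, rfl⟩
    show u * v - v * u ∈ J
    rw [TwoSidedIdeal.mem_mk']
    exact comm_mem b F hgen u v
  have h := hJ ha
  rwa [TwoSidedIdeal.mem_mk'] at h

theorem nu_comm (q : Fin r × Fin r) : nu b q ∈ commIdeal C :=
  TwoSidedIdeal.subset_span ⟨b q.1, b q.2, rfl⟩

/-- products of a family -/
theorem ofFn_mem {m : ℕ} (f : Fin m → C) (κ μ : Fin m → ℕ) (hf : ∀ i, f i ∈ II b F (κ i) (μ i)) :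
    (List.ofFn f).prod ∈ II b F (∑ i, κ i) (∑ i, μ i) := by
  induction m with
  | zero => simpa using one_mem b F
  | succ m ih =>
    rw [List.ofFn_succ, List.prod_cons, Fin.sum_univ_succ, Fin.sum_univ_succ]
    exact II_mul b F (hf 0) (ih _ _ _ fun i => hf i.succ)

/-- a word with `n` commutator letters is a product of `n` elements of the commutator ideal -/
theorem word_prod (l : List (Lam r)) : ∀ n, n ≤ cn l → ∃ (a : C) (x : Fin n → C),
    (∀ i, x i ∈ commIdeal C) ∧ wd (vv b) l = a * (List.ofFn x).prod := by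
  induction l with
  | nil =>
    intro n hn
    have h0 : n = 0 := by simpa [cn] using hn
    subst h0
    exact ⟨1, fun i => i.elim0, fun i => i.elim0, by simp [wd]⟩
  | cons s l ih =>
    intro n hn
    rcases s with i | q
    · have h1 : n ≤ cn l := by rwa [cn_inl] at hn
      obtain ⟨a, x, hx, e⟩ := ih n h1
      exact ⟨b i * a, x, hx, by rw [wd_cons, e, mul_assoc]; rfl⟩
    · rcases n with _ | n
      · exact ⟨wd (vv b) (Sum.inr q :: l), fun i => i.elim0, fun i => i.elim0, by simp⟩
      · have h1 : n ≤ cn l := by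
          rw [cn_inr] at hn
          omega
        obtain ⟨a, x, hx, e⟩ := ih n h1
        refine ⟨1, Fin.cons (nu b q * a) x, ?_, ?_⟩
        · intro i
          refine Fin.cases ?_ (fun i => ?_) i
          · rw [Fin.cons_zero]
            exact (commIdeal C).mul_mem_right _ _ (nu_comm b q)
          · rw [Fin.cons_succ]
            exact hx i
        · rw [wd_cons, e, List.ofFn_succ, List.prod_cons, Fin.cons_zero, one_mul]
          simp only [Fin.cons_succ]
          rw [mul_assoc]
          rfl

/-- decomposition of a word with exactly `k` commutator letters -/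
theorem decomp (l : List (Lam r)) : ∀ k, cn l = k → ∃ (q : Fin k → Fin r × Fin r)
    (w : Fin (k + 1) → List (Fin r)), ∑ i, (w i).length = cb l ∧
      wd (vv b) l = TT (fun i => nu b (q i)) (fun i => wd b (w i)) := by
  induction l with
  | nil =>
    intro k hk
    have h0 : k = 0 := by simpa [cn] using hk.symm
    subst h0
    exact ⟨fun i => i.elim0, fun _ => [], by simp [cb], by simp [wd, TT]⟩
  | cons s l ih =>
    intro k hk
    rcases s with i | q
    · have h1 : cn l = k := by rwa [cn_inl] at hk
      obtain ⟨q, w, hs, e⟩ := ih k h1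
      refine ⟨q, Fin.cons (i :: w 0) (fun j => w j.succ), ?_, ?_⟩
      · rw [Fin.sum_univ_succ] at hs ⊢
        simp only [Fin.cons_zero, Fin.cons_succ, List.length_cons]
        rw [cb_inl]
        omega
      · rw [wd_cons, e]
        unfold TT
        simp only [Fin.cons_zero, Fin.cons_succ, wd_cons]
        rw [mul_assoc]
        rfl
    · rcases k with _ | k
      · rw [cn_inr] at hk
        omega
      · have h1 : cn l = k := by
          rw [cn_inr] at hk
          omega
        obtain ⟨q', w, hs, e⟩ := ih k h1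
        refine ⟨Fin.cons q q', Fin.cons [] w, ?_, ?_⟩
        · rw [Fin.sum_univ_succ]
          simp only [Fin.cons_zero, Fin.cons_succ, List.length_nil, zero_add]
          rw [hs, cb_inr]
        · rw [wd_cons, e]
          unfold TT
          rw [List.ofFn_succ, List.prod_cons]
          simp only [Fin.cons_zero, Fin.cons_succ, wd_nil, one_mul]
          rw [← mul_assoc]
          rfl

theorem exists_ofFn {α : Type} (p : List α) (n : ℕ) (h : p.length = n) :
    ∃ p' : Fin n → α, List.ofFn p' = p := by
  subst h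
  exact ⟨p.get, List.ofFn_get p⟩

/-- values of words in two elements of the filtration -/
theorem word_mem {a m a' m' : ℕ} {X Y : C} (hX : X ∈ II b F a m) (hY : Y ∈ II b F a' m') (z : C)
    (hgen : Algebra.adjoin F (Set.range b) = ⊤) (w : List (Fin 3)) :
    (w.map ![X, Y, z]).prod ∈ II b F (w.count 0 * a + w.count 1 * a')
      (w.count 0 * m + w.count 1 * m') := by
  induction w with
  | nil => simpa using one_mem b F
  | cons s w ih =>
    rw [List.map_cons, List.prod_cons]
    fin_cases s
    · have h := II_mul b F hX ih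
      have e1 : (List.count 0 ((0 : Fin 3) :: w)) = w.count 0 + 1 := by simp
      have e2 : (List.count 1 ((0 : Fin 3) :: w)) = w.count 1 := by simp
      show X * _ ∈ II b F (List.count 0 ((0 : Fin 3) :: w) * a + List.count 1 ((0 : Fin 3) :: w) * a')
        (List.count 0 ((0 : Fin 3) :: w) * m + List.count 1 ((0 : Fin 3) :: w) * m')
      rw [e1, e2]
      refine II_mono b F (le_of_eq ?_) (le_of_eq ?_) h <;> ring
    · have h := II_mul b F hY ih
      have e1 : (List.count 0 ((1 : Fin 3) :: w)) = w.count 0 := by simp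
      have e2 : (List.count 1 ((1 : Fin 3) :: w)) = w.count 1 + 1 := by simp
      show Y * _ ∈ II b F (List.count 0 ((1 : Fin 3) :: w) * a + List.count 1 ((1 : Fin 3) :: w) * a')
        (List.count 0 ((1 : Fin 3) :: w) * m + List.count 1 ((1 : Fin 3) :: w) * m')
      rw [e1, e2]
      refine II_mono b F (le_of_eq ?_) (le_of_eq ?_) h <;> ring
    · have h := II_mul b F (II_top b F hgen z) ih
      have e1 : (List.count 0 ((2 : Fin 3) :: w)) = w.count 0 := by simp
      have e2 : (List.count 1 ((2 : Fin 3) :: w)) = w.count 1 := by simp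
      show z * _ ∈ II b F (List.count 0 ((2 : Fin 3) :: w) * a + List.count 1 ((2 : Fin 3) :: w) * a')
        (List.count 0 ((2 : Fin 3) :: w) * m + List.count 1 ((2 : Fin 3) :: w) * m')
      rw [e1, e2]
      refine II_mono b F (le_of_eq ?_) (le_of_eq ?_) h <;> ring

theorem TT_mem (hgen : Algebra.adjoin F (Set.range b) = ⊤) {k : ℕ} (x : Fin k → C)
    (a m : Fin k → ℕ) (hx : ∀ i, x i ∈ II b F (a i) (m i)) (u : Fin (k + 1) → C) (g : Fin (k + 1))
    (hu : u g ∈ commIdeal C) : TT x u ∈ II b F ((∑ i, a i) + 1) (∑ i, m i) := by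
  have hu' : ∀ i, u i ∈ II b F (if i = g then 1 else 0) 0 := by
    intro i
    split_ifs with h
    · rw [h]; exact commIdeal_le b F hgen hu
    · exact II_top b F hgen _
  have h1 := ofFn_mem b F (fun i : Fin k => x i * u i.succ)
    (fun i => a i + if i.succ = g then 1 else 0) (fun i => m i + 0)
    (fun i => II_mul b F (hx i) (hu' i.succ))
  have h2 := II_mul b F (hu' 0) h1
  unfold TT
  refine II_mono b F (le_of_eq ?_) (le_of_eq ?_) h2
  · have h3 : ∑ i : Fin (k + 1), (if i = g then 1 else 0) = 1 := by simp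
    rw [Fin.sum_univ_succ] at h3
    rw [Finset.sum_add_distrib]
    omega
  · simp

theorem ofFn_last_mul {m : ℕ} (f f' : Fin (m + 1) → C) (t : C)
    (h : ∀ i, i ≠ Fin.last m → f' i = f i) (hl : f' (Fin.last m) = f (Fin.last m) * t) :
    (List.ofFn f').prod = (List.ofFn f).prod * t := by
  rw [List.ofFn_succ', List.ofFn_succ']
  simp only [List.concat_eq_append, List.prod_append, List.prod_cons, List.prod_nil, mul_one]
  rw [hl, ← mul_assoc]
  congr 3
  congr 1
  funext i
  exact h _ (Fin.castSucc_lt_last i).ne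

theorem zword_inj : Function.Injective zword := by
  intro e e' h
  obtain ⟨i, j, k⟩ := e
  obtain ⟨i', j', k'⟩ := e'
  have key : ∀ i j k : ℕ, (zword (i, j, k)).idxOf 0 = i ∧ (zword (i, j, k)).idxOf 1 = i + (j + 1) ∧
      (zword (i, j, k)).length = i + (j + (k + 1) + 1) := by
    intro i j k
    refine ⟨?_, ?_, ?_⟩
    · unfold zword
      rw [List.idxOf_append_of_notMem (by simp)]
      simp
    · unfold zword
      rw [List.idxOf_append_of_notMem (by simp), List.idxOf_cons_ne _ (by simp),
        List.idxOf_append_of_notMem (by simp)]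
      simp
    · simp [zword]
  obtain ⟨a1, a2, a3⟩ := key i j k
  obtain ⟨b1, b2, b3⟩ := key i' j' k'
  rw [h] at a1 a2 a3
  have e1 : i = i' := by omega
  have e2 : j = j' := by omega
  have e3 : k = k' := by omega
  rw [e1, e2, e3]

theorem h2_lemma (ε : C →ₐ[F] F) (hgen : Algebra.adjoin F (Set.range b) = ⊤)
    (c : List (Fin 3) →₀ F) (hc : Cond c) (hid : Ident c ε)
    (α : ℕ × ℕ × ℕ →₀ F) (hα : ∀ e, α e = c (zword e)) {k n1 : ℕ}
    (hL : ∀ a ∈ II b F (k + 1) n1, a = 0) (x : Fin k → C) (hε : ∀ i, ε (x i) = 0)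
    (m : Fin k → ℕ) (hx : ∀ i, x i ∈ II b F 1 (m i)) (hm : n1 ≤ ∑ i, m i)
    (u : Fin (k + 1) → C) (g : Fin (k + 1)) (hg0 : g ≠ 0) (hgl : g ≠ Fin.last k) (z : C)
    (hz : ε z = 0) :
    α.sum (fun e a => a • TT x (fun i => (if i = 0 then z ^ e.1 else 1) * u i *
          (if i = g then z ^ e.2.1 else 1) * (if i = Fin.last k then z ^ e.2.2 else 1))) = 0 := by
  obtain ⟨m', n', rfl, hg⟩ : ∃ m' n', k = m' + 1 + (n' + 1) ∧ g.val = m' + 1 := by
    have h1 : g.val ≠ 0 := fun h => hg0 (Fin.ext h)
    have h2 : g.val ≠ k := fun h => hgl (Fin.ext h)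
    have h3 := g.isLt
    exact ⟨g.val - 1, k - g.val - 1, by omega, by omega⟩
  set X : C := u 0 * (List.ofFn fun i : Fin (m' + 1) => x (Fin.castAdd (n' + 1) i) *
    u (Fin.castAdd (n' + 1) i).succ).prod with hX
  set Y : C := (List.ofFn fun j : Fin (n' + 1) => x (Fin.natAdd (m' + 1) j) *
    u (Fin.natAdd (m' + 1) j).succ).prod with hY
  have hXm : X ∈ II b F (m' + 1) (∑ i : Fin (m' + 1), m (Fin.castAdd (n' + 1) i)) := by
    have h1 := ofFn_mem b F (fun i : Fin (m' + 1) => x (Fin.castAdd (n' + 1) i) *
      u (Fin.castAdd (n' + 1) i).succ) (fun _ => 1) (fun i => m (Fin.castAdd (n' + 1) i))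
      (fun i => II_mul_r b F hgen _ (hx _))
    have h2 := II_mul_l b F hgen (u 0) h1
    have hs : ∑ _i : Fin (m' + 1), 1 = m' + 1 := by simp
    rw [hs] at h2
    exact h2
  have hYm : Y ∈ II b F (n' + 1) (∑ j : Fin (n' + 1), m (Fin.natAdd (m' + 1) j)) := by
    have h1 := ofFn_mem b F (fun j : Fin (n' + 1) => x (Fin.natAdd (m' + 1) j) *
      u (Fin.natAdd (m' + 1) j).succ) (fun _ => 1) (fun j => m (Fin.natAdd (m' + 1) j))
      (fun i => II_mul_r b F hgen _ (hx _))
    have hs : ∑ _i : Fin (n' + 1), 1 = n' + 1 := by simp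
    rw [hs] at h1
    exact h1
  have hεX : ε X = 0 := by
    rw [hX, map_mul, map_list_prod, List.ofFn_succ, List.map_cons, List.prod_cons, map_mul, hε]
    simp
  have hεY : ε Y = 0 := by
    rw [hY, map_list_prod, List.ofFn_succ, List.map_cons, List.prod_cons, map_mul, hε]
    simp
  have hTT : ∀ e : ℕ × ℕ × ℕ, TT x (fun i => (if i = 0 then z ^ e.1 else 1) * u i *
          (if i = g then z ^ e.2.1 else 1) *
          (if i = Fin.last (m' + 1 + (n' + 1)) then z ^ e.2.2 else 1)) =
        ((zword e).map ![X, Y, z]).prod := by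
    intro e
    unfold TT
    rw [List.ofFn_add, List.prod_append]
    rw [ofFn_last_mul (fun i : Fin (m' + 1) => x (Fin.castAdd (n' + 1) i) *
      u (Fin.castAdd (n' + 1) i).succ) _ (z ^ e.2.1) ?_ ?_]
    rw [ofFn_last_mul (fun j : Fin (n' + 1) => x (Fin.natAdd (m' + 1) j) *
      u (Fin.natAdd (m' + 1) j).succ) _ (z ^ e.2.2) ?_ ?_]
    · rw [← hY]
      have h0g : (0 : Fin (m' + 1 + (n' + 1) + 1)) ≠ g := fun h => hg0 h.symm
      have h0l : (0 : Fin (m' + 1 + (n' + 1) + 1)) ≠ Fin.last _ := by
        intro h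
        have := congrArg Fin.val h
        simp at this
      simp only [if_true, if_neg h0g, if_neg h0l, mul_one]
      simp only [zword, List.map_append, List.map_cons, List.map_replicate, List.prod_append,
        List.prod_cons, List.prod_replicate]
      show z ^ e.1 * u 0 * _ = z ^ e.1 * (X * (z ^ e.2.1 * (Y * z ^ e.2.2)))
      rw [hX]
      simp only [mul_assoc]
    · intro i hi
      have h1 : (Fin.natAdd (m' + 1) i).succ ≠ (0 : Fin (m' + 1 + (n' + 1) + 1)) :=
        Fin.succ_ne_zero _
      have h2 : (Fin.natAdd (m' + 1) i).succ ≠ g := by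
        intro h
        have := congrArg Fin.val h
        simp [hg] at this
        omega
      have h3 : (Fin.natAdd (m' + 1) i).succ ≠ Fin.last (m' + 1 + (n' + 1)) := by
        intro h
        apply hi
        have := congrArg Fin.val h
        simp at this
        apply Fin.ext
        simp
        omega
      simp only [if_neg h1, if_neg h2, if_neg h3, one_mul, mul_one]
    · have h1 : (Fin.natAdd (m' + 1) (Fin.last n')).succ ≠ (0 : Fin (m' + 1 + (n' + 1) + 1)) :=
        Fin.succ_ne_zero _
      have h2 : (Fin.natAdd (m' + 1) (Fin.last n')).succ ≠ g := by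
        intro h
        have := congrArg Fin.val h
        simp [hg] at this
        omega
      have h3 : (Fin.natAdd (m' + 1) (Fin.last n')).succ = Fin.last (m' + 1 + (n' + 1)) := by
        apply Fin.ext
        simp
        omega
      simp only [if_neg h1, if_neg h2, if_pos h3, one_mul, mul_one]
      rw [mul_assoc]
    · intro i hi
      have h1 : (Fin.castAdd (n' + 1) i).succ ≠ (0 : Fin (m' + 1 + (n' + 1) + 1)) :=
        Fin.succ_ne_zero _
      have h2 : (Fin.castAdd (n' + 1) i).succ ≠ g := by
        intro h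
        apply hi
        have := congrArg Fin.val h
        simp [hg] at this
        exact Fin.ext (by simpa using this)
      have h3 : (Fin.castAdd (n' + 1) i).succ ≠ Fin.last (m' + 1 + (n' + 1)) := by
        intro h
        have := congrArg Fin.val h
        have h4 := i.isLt
        simp at this
        omega
      change x (Fin.castAdd (n' + 1) i) * ((if (Fin.castAdd (n' + 1) i).succ = 0 then z ^ e.1
        else 1) * u (Fin.castAdd (n' + 1) i).succ *
        (if (Fin.castAdd (n' + 1) i).succ = g then z ^ e.2.1 else 1) *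
        (if (Fin.castAdd (n' + 1) i).succ = Fin.last (m' + 1 + (n' + 1)) then z ^ e.2.2
          else 1)) = _
      simp only [if_neg h1, if_neg h2, if_neg h3, one_mul, mul_one]
    · have h1 : (Fin.castAdd (n' + 1) (Fin.last m')).succ ≠ (0 : Fin (m' + 1 + (n' + 1) + 1)) :=
        Fin.succ_ne_zero _
      have h2 : (Fin.castAdd (n' + 1) (Fin.last m')).succ = g := by
        apply Fin.ext
        simp [hg]
      have h3 : (Fin.castAdd (n' + 1) (Fin.last m')).succ ≠ Fin.last (m' + 1 + (n' + 1)) := by
        intro h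
        have := congrArg Fin.val h
        simp at this
      change x (Fin.castAdd (n' + 1) (Fin.last m')) *
        ((if (Fin.castAdd (n' + 1) (Fin.last m')).succ = 0 then z ^ e.1
        else 1) * u (Fin.castAdd (n' + 1) (Fin.last m')).succ *
        (if (Fin.castAdd (n' + 1) (Fin.last m')).succ = g then z ^ e.2.1 else 1) *
        (if (Fin.castAdd (n' + 1) (Fin.last m')).succ = Fin.last (m' + 1 + (n' + 1)) then z ^ e.2.2
          else 1)) = _
      simp only [if_neg h1, if_pos h2, if_neg h3, one_mul, mul_one]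
      rw [mul_assoc]
  have hI := hid X Y z hεX hεY hz
  unfold ev3 at hI
  simp only [hTT]
  rw [Finsupp.sum] at hI ⊢
  rw [← hI]
  have himg : ∑ w ∈ α.support.image zword, c w • (w.map ![X, Y, z]).prod =
      ∑ e ∈ α.support, α e • ((zword e).map ![X, Y, z]).prod := by
    rw [Finset.sum_image (fun a _ a' _ h => zword_inj h)]
    refine Finset.sum_congr rfl fun e _ => ?_
    rw [hα]
  rw [← himg]
  refine Finset.sum_subset ?_ ?_
  · intro w hw
    rw [Finset.mem_image] at hw
    obtain ⟨e, he, rfl⟩ := hw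
    rw [Finsupp.mem_support_iff] at he ⊢
    rwa [hα] at he
  · intro w hw hw2
    obtain ⟨h0, h1⟩ := hc.two w hw
    have c0 : 1 ≤ w.count 0 := List.count_pos_iff.2 h0
    have c1 : 1 ≤ w.count 1 := List.count_pos_iff.2 h1
    have c3 : ¬ (w.count 0 = 1 ∧ w.count 1 = 1) := by
      rintro ⟨e0, e1⟩
      obtain ⟨i, j, l, rfl⟩ := hc.lin w hw e0 e1
      apply hw2
      rw [Finset.mem_image]
      refine ⟨(i, j, l), ?_, rfl⟩
      rw [Finsupp.mem_support_iff, hα]
      exact Finsupp.mem_support_iff.1 hw
    have hmem := word_mem b F hXm hYm z hgen w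
    rw [hL _ (II_mono b F ?_ ?_ hmem), smul_zero]
    · rcases Nat.lt_or_ge (w.count 0) 2 with h | h
      · have h2 : 2 ≤ w.count 1 := by
          by_contra h3
          exact c3 ⟨by omega, by omega⟩
        nlinarith
      · nlinarith
    · rw [Fin.sum_univ_add] at hm
      nlinarith [Nat.zero_le (∑ i : Fin (m' + 1), m (Fin.castAdd (n' + 1) i)),
        Nat.zero_le (∑ j : Fin (n' + 1), m (Fin.natAdd (m' + 1) j))]

theorem wd_inl (p : List (Fin r)) : wd (vv b) (p.map Sum.inl) = wd b p ∧
    cb (p.map (Sum.inl : Fin r → Lam r)) = p.length := by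
  induction p with
  | nil => exact ⟨rfl, rfl⟩
  | cons i p ih =>
    obtain ⟨h1, h2⟩ := ih
    refine ⟨?_, ?_⟩
    · rw [List.map_cons, wd_cons, wd_cons, h1]
      rfl
    · rw [List.map_cons, cb_inl, h2, List.length_cons]

theorem wd_b_mem (p : List (Fin r)) : wd b p ∈ II b F 0 p.length := by
  obtain ⟨h1, h2⟩ := wd_inl b p
  exact Submodule.subset_span ⟨p.map Sum.inl, Nat.zero_le _, h2.ge, h1.symm⟩

/-- the saturated families -/
def xx {k n1 : ℕ} (t : Fin (k + 1) × (Fin k → Fin r × Fin r) × (Fin n1 → Fin r)) (i : Fin k) : C :=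
  (if t.1 = 0 ∧ i.val = 0 then wd b (List.ofFn t.2.2) else 1) * nu b (t.2.1 i) *
    (if t.1 = i.succ then wd b (List.ofFn t.2.2) else 1)

/-- number of generator letters in the families -/
def mm {k n1 : ℕ} (t : Fin (k + 1) × (Fin k → Fin r × Fin r) × (Fin n1 → Fin r)) (i : Fin k) : ℕ :=
  (if t.1 = 0 ∧ i.val = 0 then n1 else 0) + (if t.1 = i.succ then n1 else 0)

theorem xx_mem {k n1 : ℕ} (t : Fin (k + 1) × (Fin k → Fin r × Fin r) × (Fin n1 → Fin r))
    (i : Fin k) : xx b t i ∈ II b F 1 (mm t i) := by
  have hP : wd b (List.ofFn t.2.2) ∈ II b F 0 n1 := by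
    have h := wd_b_mem b F (List.ofFn t.2.2)
    rwa [List.length_ofFn] at h
  unfold xx mm
  have h1 : (if t.1 = 0 ∧ i.val = 0 then wd b (List.ofFn t.2.2) else 1) ∈
      II b F 0 (if t.1 = 0 ∧ i.val = 0 then n1 else 0) := by
    split_ifs
    · exact hP
    · exact one_mem b F
  have h2 : (if t.1 = i.succ then wd b (List.ofFn t.2.2) else 1) ∈
      II b F 0 (if t.1 = i.succ then n1 else 0) := by
    split_ifs
    · exact hP
    · exact one_mem b F
  have h3 := II_mul b F (II_mul b F h1 (nu_mem b F (t.2.1 i))) h2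
  refine II_mono b F (by omega) (by omega) h3

theorem mm_sum {k n1 : ℕ} (hk : 1 ≤ k)
    (t : Fin (k + 1) × (Fin k → Fin r × Fin r) × (Fin n1 → Fin r)) : ∑ i, mm t i = n1 := by
  unfold mm
  rw [Finset.sum_add_distrib]
  obtain ⟨k, rfl⟩ : ∃ k', k = k' + 1 := ⟨k - 1, by omega⟩
  rcases Fin.eq_zero_or_eq_succ t.1 with h | ⟨j, h⟩
  · rw [h]
    have h1 : ∀ i : Fin (k + 1), (0 : Fin (k + 1 + 1)) ≠ i.succ := fun i => (Fin.succ_ne_zero i).symm
    simp only [h1, if_false, Finset.sum_const_zero, add_zero, true_and]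
    rw [Fin.sum_univ_succ]
    simp
  · rw [h]
    have h1 : j.succ ≠ 0 := Fin.succ_ne_zero j
    simp only [h1, false_and, if_false, Finset.sum_const_zero, zero_add, Fin.succ_inj]
    simp

theorem eps_nu (ε : C →ₐ[F] F) (q : Fin r × Fin r) : ε (nu b q) = 0 := by
  unfold nu
  rw [map_sub, map_mul, map_mul, mul_comm, sub_self]

theorem step (ε : C →ₐ[F] F) (hgen : Algebra.adjoin F (Set.range b) = ⊤)
    (c : List (Fin 3) →₀ F) (hc : Cond c) (hid : Ident c ε)
    (α : ℕ × ℕ × ℕ →₀ F) (hα : ∀ e, α e = c (zword e))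
    (hS : ∀ (k : ℕ) (x : Fin k → C), 1 ≤ k → (∀ i, ε (x i) = 0) →
      (∀ (u : Fin (k + 1) → C) (g : Fin (k + 1)), u g ∈ commIdeal C → TT x u = 0) →
      (∀ (u : Fin (k + 1) → C) (g : Fin (k + 1)), g ≠ 0 → g ≠ Fin.last k → ∀ z, ε z = 0 →
        α.sum (fun e a => a • TT x (fun i => (if i = 0 then z ^ e.1 else 1) * u i *
          (if i = g then z ^ e.2.1 else 1) * (if i = Fin.last k then z ^ e.2.2 else 1))) = 0) →
      ∃ n, ∀ w : Fin (k + 1) → List (Fin r), n ≤ ∑ i, (w i).length →
        TT x (fun i => wd b (w i)) = 0) {k n1 : ℕ} (hk : 1 ≤ k)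
    (hL : ∀ a ∈ II b F (k + 1) n1, a = 0) : ∃ n, ∀ a ∈ II b F k n, a = 0 := by
  have key : ∀ t : Fin (k + 1) × (Fin k → Fin r × Fin r) × (Fin n1 → Fin r),
      ∃ n, ∀ w : Fin (k + 1) → List (Fin r), n ≤ ∑ i, (w i).length →
        TT (xx b t) (fun i => wd b (w i)) = 0 := by
    intro t
    have hε : ∀ i, ε (xx b t i) = 0 := by
      intro i
      unfold xx
      rw [map_mul, map_mul, eps_nu]
      simp
    refine hS k (xx b t) hk hε ?_ ?_
    · intro u g hu
      have h := TT_mem b F hgen (xx b t) (fun _ => 1) (mm t) (xx_mem b F t) u g hu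
      have hs : ∑ _i : Fin k, 1 = k := by simp
      rw [hs, mm_sum hk] at h
      exact hL _ h
    · intro u g hg0 hgl z hz
      exact h2_lemma b F ε hgen c hc hid α hα hL (xx b t) hε (mm t) (xx_mem b F t)
        (mm_sum hk t).ge u g hg0 hgl z hz
  choose nn hnn using key
  refine ⟨(k + 1) * n1 + Finset.univ.sup nn, ?_⟩
  intro a ha
  unfold II at ha
  induction ha using Submodule.span_induction with
  | zero => rfl
  | add x y _ _ hx hy => rw [hx, hy, add_zero]
  | smul t x _ hx => rw [hx, smul_zero]
  | mem a ha =>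
    obtain ⟨l, hl1, hl2, rfl⟩ := ha
    rcases Nat.lt_or_ge k (cn l) with h | h
    · refine hL _ (II_mono b F (Nat.succ_le_of_lt h) ?_ (wd_mem b F l))
      have : n1 ≤ (k + 1) * n1 := Nat.le_mul_of_pos_left _ (Nat.succ_pos _)
      omega
    · obtain ⟨q, w, hw, e⟩ := decomp b l k (le_antisymm h hl1)
      rw [e]
      obtain ⟨j, hj⟩ : ∃ j, n1 ≤ (w j).length := by
        by_contra hcon
        push Not at hcon
        have h1 : ∑ i, (w i).length < ∑ _i : Fin (k + 1), n1 :=
          Finset.sum_lt_sum_of_nonempty Finset.univ_nonempty (fun i _ => hcon i)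
        rw [Finset.sum_const, Finset.card_univ, Fintype.card_fin, smul_eq_mul] at h1
        omega
      have hlen : ∀ v : List (Fin r), v.length + n1 = (w j).length →
          (k + 1) * n1 + Finset.univ.sup nn ≤
            ∑ i, (Function.update w j v i).length + n1 := by
        intro v hv
        rw [← hw] at hl2
        refine hl2.trans (le_of_eq ?_)
        rw [← Finset.add_sum_erase _ _ (Finset.mem_univ j),
          ← Finset.add_sum_erase _ (fun i => (Function.update w j v i).length) (Finset.mem_univ j)]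
        have h1 : ∑ i ∈ Finset.univ.erase j, (Function.update w j v i).length =
            ∑ i ∈ Finset.univ.erase j, (w i).length := by
          refine Finset.sum_congr rfl fun i hi => ?_
          rw [Function.update_of_ne (Finset.ne_of_mem_erase hi)]
        simp only [Function.update_self] at *
        rw [h1]
        omega
      have hlen' : ∀ (t : Fin (k + 1) × (Fin k → Fin r × Fin r) × (Fin n1 → Fin r))
          (v : List (Fin r)), v.length + n1 = (w j).length →
          nn t ≤ ∑ i, (Function.update w j v i).length := by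
        intro t v hv
        have h1 := hlen v hv
        have h2 : nn t ≤ Finset.univ.sup nn := Finset.le_sup (Finset.mem_univ t)
        have h3 : n1 ≤ (k + 1) * n1 := Nat.le_mul_of_pos_left _ (Nat.succ_pos _)
        omega
      rcases Fin.eq_zero_or_eq_succ j with h0 | ⟨i0, h0⟩
      · obtain ⟨p, hp⟩ := exists_ofFn ((w j).drop ((w j).length - n1)) n1 (by
          rw [List.length_drop]; omega)
        set v := (w j).take ((w j).length - n1) with hv
        have hvl : v.length + n1 = (w j).length := by
          rw [hv, List.length_take]; omega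
        have hwj : w j = v ++ List.ofFn p := by
          rw [hp, hv, List.take_append_drop]
        have h1 := hnn (0, q, p) (Function.update w j v) (hlen' _ v hvl)
        rw [← h1]
        obtain ⟨k, rfl⟩ : ∃ k', k = k' + 1 := ⟨k - 1, by omega⟩
        subst h0
        unfold TT
        rw [List.ofFn_succ, List.ofFn_succ, List.prod_cons, List.prod_cons]
        beta_reduce
        rw [Function.update_self]
        have h2 : ∀ i : Fin (k + 1), Function.update w 0 v i.succ = w i.succ := fun i =>
          Function.update_of_ne (Fin.succ_ne_zero i) _ _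
        simp only [h2]
        rw [hwj, wd_app]
        have h3 : xx b ((0, q, p) : Fin (k + 1 + 1) × (Fin (k + 1) → Fin r × Fin r) ×
            (Fin n1 → Fin r)) 0 = wd b (List.ofFn p) * nu b (q 0) := by
          unfold xx
          simp only [Fin.val_zero, and_self, if_true]
          rw [if_neg (Fin.succ_ne_zero 0).symm, mul_one]
        have h4 : ∀ i : Fin k, xx b ((0, q, p) : Fin (k + 1 + 1) × (Fin (k + 1) → Fin r × Fin r) ×
            (Fin n1 → Fin r)) i.succ = nu b (q i.succ) := by
          intro i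
          unfold xx
          rw [if_neg (by simp), if_neg (Fin.succ_ne_zero _).symm, mul_one, one_mul]
        rw [h3]
        simp only [h4]
        noncomm_ring
      · obtain ⟨p, hp⟩ := exists_ofFn ((w j).take n1) n1 (by
          rw [List.length_take]; omega)
        set v := (w j).drop n1 with hv
        have hvl : v.length + n1 = (w j).length := by
          rw [hv, List.length_drop]; omega
        have hwj : w j = List.ofFn p ++ v := by
          rw [hp, hv, List.take_append_drop]
        have h1 := hnn (j, q, p) (Function.update w j v) (hlen' _ v hvl)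
        rw [← h1]
        unfold TT
        have hj0 : (0 : Fin (k + 1)) ≠ j := by rw [h0]; exact (Fin.succ_ne_zero _).symm
        beta_reduce
        rw [Function.update_of_ne hj0]
        congr 3
        funext i
        unfold xx
        have h2 : ¬ (j = 0 ∧ i.val = 0) := fun h => hj0 h.1.symm
        simp only [if_neg h2, one_mul]
        by_cases h3 : j = i.succ
        · rw [if_pos h3, ← h3, Function.update_self, hwj, wd_app]
          simp only [mul_assoc]
        · rw [if_neg h3, mul_one, Function.update_of_ne (fun h => h3 h.symm)]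

end

/-- JOB CORE -/
theorem core_words {F C : Type} [Field F] [Ring C] [Algebra F C] (ε : C →ₐ[F] F)
    (r : ℕ) (b : Fin r → C) (hb : ∀ i, ε (b i) = 0) (hgen : Algebra.adjoin F (Set.range b) = ⊤)
    (hnil : NilpId (commIdeal C)) (c : List (Fin 3) →₀ F) (hc : Cond c) (hid : Ident c ε)
    (α : ℕ × ℕ × ℕ →₀ F) (hα : ∀ e, α e = c (zword e))
    (hS : ∀ (k : ℕ) (x : Fin k → C), 1 ≤ k → (∀ i, ε (x i) = 0) →
      (∀ (u : Fin (k + 1) → C) (g : Fin (k + 1)), u g ∈ commIdeal C → TT x u = 0) →
      (∀ (u : Fin (k + 1) → C) (g : Fin (k + 1)), g ≠ 0 → g ≠ Fin.last k → ∀ z, ε z = 0 →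
        α.sum (fun e a => a • TT x (fun i => (if i = 0 then z ^ e.1 else 1) * u i *
          (if i = g then z ^ e.2.1 else 1) * (if i = Fin.last k then z ^ e.2.2 else 1))) = 0) →
      ∃ n, ∀ w : Fin (k + 1) → List (Fin r), n ≤ ∑ i, (w i).length →
        TT x (fun i => wd b (w i)) = 0) :
    ∃ n, ∀ w : List (Fin r), n ≤ w.length → wd b w = 0 := by
  -- the case of many commutators
  obtain ⟨c0, hc0⟩ := hnil
  have hbase : ∀ a ∈ II b F (c0 + 1) 0, a = 0 := by
    intro a ha
    unfold II at ha
    induction ha using Submodule.span_induction with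
    | zero => rfl
    | add x y _ _ hx hy => rw [hx, hy, add_zero]
    | smul t x _ hx => rw [hx, smul_zero]
    | mem a ha =>
      obtain ⟨l, hl1, hl2, rfl⟩ := ha
      obtain ⟨a, x, hx, e⟩ := word_prod b l c0 (by omega)
      rw [e, hc0 x hx, mul_zero]
  have hdesc : ∀ j, j ≤ c0 → ∃ n, ∀ a ∈ II b F (c0 + 1 - j) n, a = 0 := by
    intro j
    induction j with
    | zero => intro _; exact ⟨0, hbase⟩
    | succ j ih =>
      intro hj
      obtain ⟨n, hn⟩ := ih (by omega)
      have e : c0 + 1 - j = (c0 + 1 - (j + 1)) + 1 := by omega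
      rw [e] at hn
      exact step b F ε hgen c hc hid α hα hS (by omega) hn
  obtain ⟨n0, hn0⟩ := hdesc c0 le_rfl
  have e : c0 + 1 - c0 = 1 := by omega
  rw [e] at hn0
  have hn1 : ∀ a ∈ II b F 1 (n0 + 1), a = 0 := fun a ha =>
    hn0 a (II_mono b F le_rfl (Nat.le_succ _) ha)
  have key : ∀ p : Fin (n0 + 1) → Fin r, ∃ n, ∀ w : Fin (1 + 1) → List (Fin r),
      n ≤ ∑ i, (w i).length →
        TT (fun _ : Fin 1 => wd b (List.ofFn p)) (fun i => wd b (w i)) = 0 := by
    intro p
    refine hS 1 (fun _ => wd b (List.ofFn p)) le_rfl ?_ ?_ ?_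
    · intro i
      rw [List.ofFn_succ, wd_cons, map_mul, hb, zero_mul]
    · intro u g hu
      have hP : wd b (List.ofFn p) ∈ II b F 0 (n0 + 1) := by
        have h := wd_b_mem b F (List.ofFn p)
        rwa [List.length_ofFn] at h
      have h := TT_mem b F hgen (fun _ : Fin 1 => wd b (List.ofFn p)) (fun _ => 0)
        (fun _ => n0 + 1) (fun _ => hP) u g hu
      simp only [Finset.sum_const_zero, Finset.sum_const, Finset.card_univ, Fintype.card_fin,
        one_smul, zero_add] at h
      exact hn1 _ h
    · intro u g hg0 hgl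
      exfalso
      have h1 := g.isLt
      have h2 : g.val ≠ 0 := fun h => hg0 (Fin.ext h)
      have h3 : g.val ≠ 1 := fun h => hgl (Fin.ext h)
      omega
  choose nn hnn using key
  refine ⟨(n0 + 1) + Finset.univ.sup nn, ?_⟩
  intro w hw
  obtain ⟨p, hp⟩ := exists_ofFn (w.take (n0 + 1)) (n0 + 1) (by
    rw [List.length_take]; omega)
  have h1 := hnn p (Fin.cons [] fun _ => w.drop (n0 + 1)) (by
    rw [Fin.sum_univ_succ]
    simp only [Fin.cons_zero, Fin.cons_succ, List.length_nil, zero_add, Finset.sum_const,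
      Finset.card_univ, Fintype.card_fin, one_smul, List.length_drop]
    have h2 : nn p ≤ Finset.univ.sup nn := Finset.le_sup (Finset.mem_univ p)
    omega)
  rw [hp] at h1
  unfold TT at h1
  simp only [Fin.cons_zero, Fin.cons_succ, List.ofFn_succ, List.ofFn_zero, List.prod_cons,
    List.prod_nil, mul_one, wd_nil, one_mul] at h1
  rw [← wd_app, List.take_append_drop] at h1
  exact h1

end Pool.Agent.TH635.RFCore
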