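import Mathlib

set_option autoImplicit false

namespace Pool.Agent.TH635.J3
open Finset

/-- fuelled search for the largest admissible `m`; the value `q + 1` signals failure -/
def cnt (r u q j : ℕ) : ℕ → ℕ → ℕ
  | 0, _ => q + 1
  | f + 1, m => if r ^ (u * (m + 1)) ≤ r ^ j * q ^ (u * (m + 1)) then cnt r u q j f (m + 1) else m

/-- sum of the bounds over `j = 1, ..., n` -/
def tot (r u q : ℕ) : ℕ → ℕ
  | 0 => 0
  | n + 1 => tot r u q n + cnt r u q (n + 1) 40 0

/-- check for all `q ≤ n` (with `q ≥ 2`) -/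
def chkq (r u : ℕ) : ℕ → Bool
  | 0 => true
  | n + 1 => chkq r u n && (Nat.ble (n + 1) 1 || Nat.ble ((n + 1) * (n + 1) + 1) r ||
      (Nat.ble (n + 1) r && Nat.ble (tot r u (n + 1) u) (n + 1)))

/-- check for one `k` -/
def chk (k r : ℕ) : Bool :=
  (Nat.ble ((r - 1) ^ (k - 2)) ((k.choose 2 - 1) ^ (k - 1)) || Nat.ble ((r - 1) ^ 3) (3 ^ (k - 1)))
    && chkq r (k - 1) (k.choose 2 - 1)

/-- least admissible `r` for `4 ≤ k ≤ 36` -/
def tab : List (ℕ × ℕ) :=
  [(4, 12), (5, 19), (6, 28), (7, 37), (8, 47), (9, 59), (10, 71), (11, 85), (12, 99), (13, 115),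
   (14, 131), (15, 169), (16, 244), (17, 351), (18, 506), (19, 730), (20, 1052), (21, 1517),
   (22, 2188), (23, 3155), (24, 4550), (25, 6562), (26, 9463), (27, 13648), (28, 19684),
   (29, 28388), (30, 40943), (31, 59050), (32, 85164), (33, 122827), (34, 177148), (35, 255491),
   (36, 368481)]

lemma tab_ok : (tab.all fun p => chk p.1 p.2) = true := by decide +kernel

lemma cond_anti {r u q j m m' : ℕ} (hr : 0 < r) (hqr : q ≤ r) (hm : m ≤ m')
    (h : r ^ (u * m') ≤ r ^ j * q ^ (u * m')) : r ^ (u * m) ≤ r ^ j * q ^ (u * m) := by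
  by_contra hc
  push Not at hc
  obtain ⟨d, rfl⟩ := Nat.exists_eq_add_of_le hm
  rw [Nat.mul_add, pow_add, pow_add] at h
  have h1 : r ^ j * q ^ (u * m) * r ^ (u * d) < r ^ (u * m) * r ^ (u * d) :=
    Nat.mul_lt_mul_of_pos_right hc (pow_pos hr _)
  have h2 : r ^ j * q ^ (u * m) * q ^ (u * d) ≤ r ^ j * q ^ (u * m) * r ^ (u * d) :=
    Nat.mul_le_mul_left _ (Nat.pow_le_pow_left hqr _)
  have h3 : r ^ (u * m) * r ^ (u * d) ≤ r ^ j * q ^ (u * m) * q ^ (u * d) := by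
    calc _ ≤ _ := h
      _ = _ := by ring
  omega

lemma cnt_sound {r u q j : ℕ} (hr : 0 < r) (hqr : q ≤ r) (f : ℕ) :
    ∀ m m' : ℕ, cnt r u q j f m ≤ q → r ^ (u * m') ≤ r ^ j * q ^ (u * m') →
      m' ≤ cnt r u q j f m := by
  induction f with
  | zero => intro m m' h; simp [cnt] at h
  | succ f ih =>
    intro m m' h hc
    rw [cnt] at h ⊢
    split_ifs at h ⊢ with h1
    · exact ih _ _ h hc
    · by_contra hlt
      push Not at hlt
      exact h1 (cond_anti hr hqr hlt hc)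

lemma cond_transfer {r r1 q j n : ℕ} (hr1 : 0 < r1) (hr : r1 ≤ r) (hq : 0 < q)
    (h : r ^ n ≤ r ^ j * q ^ n) : r1 ^ n ≤ r1 ^ j * q ^ n := by
  rcases le_total n j with hnj | hnj
  · calc r1 ^ n ≤ r1 ^ j := Nat.pow_le_pow_right hr1 hnj
      _ = r1 ^ j * 1 := (Nat.mul_one _).symm
      _ ≤ r1 ^ j * q ^ n := Nat.mul_le_mul_left _ (Nat.pow_pos hq)
  · obtain ⟨d, rfl⟩ := Nat.exists_eq_add_of_le hnj
    have h1 : r ^ d ≤ q ^ (j + d) := by
      rw [pow_add r] at h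
      exact Nat.le_of_mul_le_mul_left h (Nat.pow_pos (lt_of_lt_of_le hr1 hr))
    rw [pow_add r1]
    exact Nat.mul_le_mul_left _ (le_trans (Nat.pow_le_pow_left hr _) h1)

lemma cube_le (q : ℕ) (hq : 1 ≤ q) : q ^ 3 ≤ 3 ^ q := by
  rcases Nat.lt_or_ge q 3 with h | h
  · interval_cases q <;> norm_num
  · induction q, h using Nat.le_induction with
    | base => norm_num
    | succ n hn ih =>
      have := ih (by omega)
      have h2 : (n + 1) ^ 3 ≤ 3 * n ^ 3 := by
        have e1 : 3 * (n * n) ≤ n * (n * n) := Nat.mul_le_mul_right _ hn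
        have e2 : 3 * n ≤ n * n := Nat.mul_le_mul_right _ hn
        have e3 : 3 * n ≥ 9 := by omega
        nlinarith
      calc (n + 1) ^ 3 ≤ 3 * n ^ 3 := h2
        _ ≤ 3 * 3 ^ n := Nat.mul_le_mul_left _ this
        _ = 3 ^ (n + 1) := by ring

/-- the case `q ^ 2 < r` -/
lemma caseA (u r q : ℕ) (hu : 1 ≤ u) (h2 : 3 ^ u < r ^ 3) (hq2 : 1 ≤ q) (hqr : q * q + 1 ≤ r)
    (m : ℕ → ℕ)
    (hm : ∀ j, 1 ≤ j → j ≤ u → r ^ (u * m j) ≤ r ^ j * q ^ (u * m j)) :
    ∑ j ∈ Finset.Icc 1 u, m j ≤ q := by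
  have hr : 0 < r := by omega
  have hqr' : q ≤ r := by nlinarith
  have key : ∀ j ∈ Finset.Icc 1 u, m j ≤ if u < j + q then 1 else 0 := by
    intro j hj
    rw [Finset.mem_Icc] at hj
    have hc := hm j hj.1 hj.2
    have hle1 : m j ≤ 1 := by
      by_contra hlt
      push Not at hlt
      have h3 := cond_anti (m := 2) hr hqr' hlt hc
      have h4 : r ^ (u * 2) ≤ r ^ u * q ^ (u * 2) :=
        le_trans h3 (Nat.mul_le_mul_right _ (Nat.pow_le_pow_right hr hj.2))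
      have h5 : r ^ u ≤ (q * q) ^ u := by
        have e1 : r ^ (u * 2) = r ^ u * r ^ u := by rw [Nat.mul_two, pow_add]
        have e2 : q ^ (u * 2) = (q * q) ^ u := by rw [Nat.mul_two, pow_add, mul_pow]
        rw [e1, e2] at h4
        exact Nat.le_of_mul_le_mul_left h4 (Nat.pow_pos hr)
      have h6 : (q * q) ^ u < r ^ u := Nat.pow_lt_pow_left (by omega) (by omega)
      omega
    split_ifs with hlt
    · exact hle1
    · by_contra hne
      have hm1 : m j = 1 := by omega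
      rw [hm1, Nat.mul_one] at hc
      push Not at hlt
      obtain ⟨d, hd⟩ := Nat.exists_eq_add_of_le hj.2
      have h3 : r ^ d ≤ q ^ u := by
        rw [hd, pow_add r] at hc
        rw [hd]
        exact Nat.le_of_mul_le_mul_left hc (Nat.pow_pos hr)
      have hdq : q ≤ d := by omega
      have h4 : (3 ^ u) ^ d < (r ^ 3) ^ d := Nat.pow_lt_pow_left h2 (by omega)
      have h5 : (r ^ 3) ^ d ≤ (q ^ 3) ^ u := by
        rw [← pow_mul, ← pow_mul, Nat.mul_comm 3 d, Nat.mul_comm 3 u, pow_mul, pow_mul]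
        exact Nat.pow_le_pow_left h3 _
      have h6 : (q ^ 3) ^ u ≤ (3 ^ q) ^ u := Nat.pow_le_pow_left (cube_le q hq2) _
      have h7 : (3 ^ q) ^ u ≤ (3 ^ u) ^ d := by
        rw [← pow_mul, ← pow_mul]
        exact Nat.pow_le_pow_right (by norm_num) (by
          rw [Nat.mul_comm]; exact Nat.mul_le_mul_left _ hdq)
      omega
  calc ∑ j ∈ Finset.Icc 1 u, m j ≤ ∑ j ∈ Finset.Icc 1 u, (if u < j + q then 1 else 0) :=
        Finset.sum_le_sum key
    _ = ((Finset.Icc 1 u).filter fun j => u < j + q).card := by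
        rw [Finset.card_filter]
    _ ≤ (Finset.Ioc (u - q) u).card := by
        apply Finset.card_le_card
        intro j hj
        rw [Finset.mem_filter, Finset.mem_Icc] at hj
        rw [Finset.mem_Ioc]
        omega
    _ ≤ q := by
        rw [Nat.card_Ioc]; omega

lemma big_k (k : ℕ) (hk : 37 ≤ k) : (k.choose 2 - 1) ^ 6 ≤ 3 ^ (k - 1) := by
  induction k, hk using Nat.le_induction with
  | base => norm_num [Nat.choose]
  | succ n hn ih =>
    have e0 : (n + 1).choose 2 = n.choose 2 + n := by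
      rw [Nat.choose_succ_succ' n 1, Nat.choose_one_right]
      ring
    have hc : 18 * n ≤ n.choose 2 := by
      rw [Nat.choose_two_right, Nat.le_div_iff_mul_le (by norm_num)]
      have : 36 * n ≤ (n - 1) * n := Nat.mul_le_mul_right _ (by omega)
      calc 18 * n * 2 = 36 * n := by ring
        _ ≤ _ := this
        _ = _ := by ring
    set b := n.choose 2 - 1 with hb
    have hb' : n.choose 2 = b + 1 := by omega
    have e1 : (n + 1).choose 2 - 1 = b + n := by omega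
    rw [e1]
    have h5 : 5 * (b + n) ≤ 6 * b := by omega
    have h6 : (5 * (b + n)) ^ 6 ≤ (6 * b) ^ 6 := Nat.pow_le_pow_left h5 _
    rw [mul_pow, mul_pow] at h6
    have h7 : (b + n) ^ 6 ≤ 3 * b ^ 6 := by
      norm_num at h6
      omega
    calc (b + n) ^ 6 ≤ 3 * b ^ 6 := h7
      _ ≤ 3 * 3 ^ (n - 1) := Nat.mul_le_mul_left _ ih
      _ = 3 ^ (n - 1 + 1) := by ring
      _ = 3 ^ (n + 1 - 1) := by congr 1; omega

lemma cnt_le_tot (r u q : ℕ) (n : ℕ) : ∀ j, 1 ≤ j → j ≤ n → cnt r u q j 40 0 ≤ tot r u q n := by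
  induction n with
  | zero => intro j h1 h2; omega
  | succ n ih =>
    intro j h1 h2
    rw [tot]
    rcases Nat.lt_or_ge j (n + 1) with h | h
    · exact le_trans (ih j h1 (by omega)) (Nat.le_add_right _ _)
    · have : j = n + 1 := by omega
      subst this
      exact Nat.le_add_left _ _

lemma sum_le_tot (r u q : ℕ) (m : ℕ → ℕ) (n : ℕ)
    (h : ∀ j, 1 ≤ j → j ≤ n → m j ≤ cnt r u q j 40 0) :
    ∑ j ∈ Finset.Icc 1 n, m j ≤ tot r u q n := by
  induction n with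
  | zero => simp
  | succ n ih =>
    rw [Finset.sum_Icc_succ_top (by omega), tot]
    exact Nat.add_le_add (ih fun j h1 h2 => h j h1 (by omega)) (h _ (by omega) le_rfl)

lemma caseB (u r r1 q : ℕ) (hr1 : 0 < r1) (hr : r1 ≤ r) (hq : 0 < q) (hqr : q ≤ r1)
    (ht : tot r1 u q u ≤ q) (m : ℕ → ℕ)
    (hm : ∀ j, 1 ≤ j → j ≤ u → r ^ (u * m j) ≤ r ^ j * q ^ (u * m j)) :
    ∑ j ∈ Finset.Icc 1 u, m j ≤ q := by
  refine le_trans (sum_le_tot r1 u q m u fun j h1 h2 => ?_) ht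
  exact cnt_sound hr1 hqr 40 0 (m j) (le_trans (cnt_le_tot r1 u q u j h1 h2) ht)
    (cond_transfer hr1 hr hq (hm j h1 h2))

lemma chkq_spec (r u : ℕ) (n : ℕ) : chkq r u n = true → ∀ q, 1 ≤ q → q ≤ n →
    q ≤ 1 ∨ q * q + 1 ≤ r ∨ (q ≤ r ∧ tot r u q u ≤ q) := by
  induction n with
  | zero => intro _ q h1 h2; omega
  | succ n ih =>
    intro h q h1 h2
    rw [chkq, Bool.and_eq_true] at h
    rcases Nat.lt_or_ge q (n + 1) with hq | hq
    · exact ih h.1 q h1 (by omega)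
    · have : q = n + 1 := by omega
      subst this
      have h3 := h.2
      rw [Bool.or_eq_true, Bool.or_eq_true, Bool.and_eq_true] at h3
      simp only [Nat.ble_eq] at h3
      tauto

theorem arith_small (k r1 r : ℕ) (hk : 4 ≤ k) (hr1 : 1 ≤ r1) (hchk : chk k r1 = true)
    (h1 : (k.choose 2 - 1) ^ (k - 1) < r ^ (k - 2))
    (h2 : 3 ^ (k - 1) < r ^ 3) (q : ℕ) (hq2 : 2 ≤ q) (hq : q ≤ k.choose 2 - 1) (m : ℕ → ℕ)
    (hm : ∀ j, 1 ≤ j → j ≤ k - 1 → r ^ ((k - 1) * m j) ≤ r ^ j * q ^ ((k - 1) * m j)) :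
    ∑ j ∈ Finset.Icc 1 (k - 1), m j ≤ q := by
  rw [chk, Bool.and_eq_true, Bool.or_eq_true, Nat.ble_eq, Nat.ble_eq] at hchk
  obtain ⟨ha, hb⟩ := hchk
  have hr : r1 ≤ r := by
    by_contra hlt
    push Not at hlt
    have hle : r ≤ r1 - 1 := by omega
    rcases ha with ha | ha
    · have := Nat.pow_le_pow_left hle (k - 2)
      omega
    · have := Nat.pow_le_pow_left hle 3
      omega
  rcases chkq_spec r1 (k - 1) _ hb q (by omega) hq with h | h | ⟨h, h'⟩
  · omega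
  · exact caseA (k - 1) r q (by omega) h2 (by omega) (by omega) m hm
  · exact caseB (k - 1) r r1 q (by omega) hr (by omega) h h' m hm

theorem arith (k r : ℕ) (hk : 4 ≤ k) (h1 : (k.choose 2 - 1) ^ (k - 1) < r ^ (k - 2))
    (h2 : 3 ^ (k - 1) < r ^ 3) (q : ℕ) (hq2 : 2 ≤ q) (hq : q ≤ k.choose 2 - 1) (m : ℕ → ℕ)
    (hm : ∀ j, 1 ≤ j → j ≤ k - 1 → r ^ ((k - 1) * m j) ≤ r ^ j * q ^ ((k - 1) * m j)) :
    ∑ j ∈ Finset.Icc 1 (k - 1), m j ≤ q := by
  rcases Nat.lt_or_ge k 37 with hk' | hk'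
  · have hall : ∀ p ∈ tab, chk p.1 p.2 = true := by
      have := tab_ok
      rw [List.all_eq_true] at this
      exact this
    have hex : ∃ r1, 1 ≤ r1 ∧ (k, r1) ∈ tab := by
      have hd : ∀ j : Fin 37, 4 ≤ j.val →
          (tab.any fun p => p.1 == j.val && Nat.ble 1 p.2) = true := by decide +kernel
      have h5 := hd ⟨k, hk'⟩ hk
      rw [List.any_eq_true] at h5
      obtain ⟨⟨a, b⟩, hmem, hab⟩ := h5
      simp only [Bool.and_eq_true, beq_iff_eq, Nat.ble_eq] at hab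
      obtain ⟨rfl, hb⟩ := hab
      exact ⟨b, hb, hmem⟩
    obtain ⟨r1, hr1, hmem⟩ := hex
    exact arith_small k r1 r hk hr1 (hall _ hmem) h1 h2 q hq2 hq m hm
  · have hbig := big_k k hk'
    have h3 : ((k.choose 2 - 1) * (k.choose 2 - 1)) ^ 3 < r ^ 3 := by
      calc ((k.choose 2 - 1) * (k.choose 2 - 1)) ^ 3 = (k.choose 2 - 1) ^ 6 := by ring
        _ ≤ 3 ^ (k - 1) := hbig
        _ < r ^ 3 := h2
    have h4 : (k.choose 2 - 1) * (k.choose 2 - 1) < r := lt_of_pow_lt_pow_left₀ 3 (by omega) h3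
    have h5 : q * q ≤ (k.choose 2 - 1) * (k.choose 2 - 1) := Nat.mul_le_mul hq hq
    exact caseA (k - 1) r q (by omega) h2 (by omega) (by omega) m hm

end Pool.Agent.TH635.J3
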