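import Pool.Agent.TH981.LO.Bas

set_option autoImplicit false

open Pool.Agent.TH981.LO
open scoped BigOperators symmDiff MeasureTheory

namespace Pool.Agent.TH635.J450

variable {V E : Type} [DecidableEq V] [DecidableEq E] (G : MG V E)

theorem Z_pos {w : E → ℝ} {F : Finset E} (hw : ∀ e ∈ F, 0 ≤ w e) : 0 < G.Z w F 0 :=
  lt_of_lt_of_le one_pos (G.one_le_Z_zero hw)

theorem corr_insert (w : E → ℝ) {F : Finset E} {e : E} (he : e ∉ F)
    (hw : ∀ f ∈ insert e F, 0 ≤ w f) (A : V → ZMod 2) :
    G.corr w (insert e F) A = (G.Z w F 0 / G.Z w (insert e F) 0) *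
      (G.corr w F A + w e * G.corr w F (A + G.inc e)) := by
  have h1 := Z_pos G (w := w) (F := F) (fun f hf => hw f (Finset.mem_insert_of_mem hf))
  have h2 := Z_pos G hw
  unfold MG.corr
  rw [G.Z_insert w he A]
  field_simp

theorem rho_eq (w : E → ℝ) {F : Finset E} {e : E} (he : e ∉ F)
    (hw : ∀ f ∈ insert e F, 0 ≤ w f) :
    G.Z w (insert e F) 0 / G.Z w F 0 = 1 + w e * G.corr w F (G.inc e) := by
  have h1 := Z_pos G (w := w) (F := F) (fun f hf => hw f (Finset.mem_insert_of_mem hf))
  unfold MG.corr
  rw [G.Z_insert w he 0, zero_add]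
  field_simp

theorem ins_insert (F : Finset E) (S : Finset V) (e : E) (h : G.s e ∈ S ∧ G.t e ∈ S) :
    G.ins (insert e F) S = insert e (G.ins F S) := by
  unfold MG.ins
  rw [Finset.filter_insert, if_pos h]

theorem ins_insert' (F : Finset E) (S : Finset V) (e : E) (h : ¬ (G.s e ∈ S ∧ G.t e ∈ S)) :
    G.ins (insert e F) S = G.ins F S := by
  unfold MG.ins
  rw [Finset.filter_insert, if_neg h]

theorem cut_insert (F : Finset E) (S : Finset V) (e : E)
    (h : (G.s e ∈ S ∧ G.t e ∉ S) ∨ (G.s e ∉ S ∧ G.t e ∈ S)) :
    G.cut (insert e F) S = insert e (G.cut F S) := by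
  unfold MG.cut
  rw [Finset.filter_insert, if_pos h]

theorem cut_insert' (F : Finset E) (S : Finset V) (e : E)
    (h : ¬ ((G.s e ∈ S ∧ G.t e ∉ S) ∨ (G.s e ∉ S ∧ G.t e ∈ S))) :
    G.cut (insert e F) S = G.cut F S := by
  unfold MG.cut
  rw [Finset.filter_insert, if_neg h]

theorem simonLieb (h : S_CMONO) : S_SL := by
  classical
  intro V E _ _ G w F S a b hw0 hw1 ha hb
  induction hn : F.card generalizing F a with
  | zero =>
    rw [Finset.card_eq_zero] at hn
    subst hn
    have hab : a ≠ b := fun h => hb (h ▸ ha)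
    have h1 : G.Z w ∅ (two a b) = 0 := by
      classical
      unfold MG.Z MG.L
      refine Finset.sum_eq_zero fun η hη => ?_
      rw [Finset.mem_filter, Finset.mem_powerset, Finset.subset_empty] at hη
      exfalso
      rw [hη.1, G.bd_empty] at hη
      have h2 := congrFun hη.2 a
      simp [two, hab] at h2
    have h3 : G.corr w ∅ (two a b) = 0 := by
      unfold MG.corr
      rw [h1, zero_div]
    rw [h3]
    refine Finset.sum_nonneg fun e he => ?_
    simp [MG.cut] at he
  | succ n ih =>
    have hcn : ∀ (F' : Finset E) (A : V → ZMod 2), F' ⊆ F → 0 ≤ G.corr w F' A := fun F' A hF =>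
      G.corr_nonneg A (fun e he => hw0 e (hF he))
    have hRnn : 0 ≤ ∑ e ∈ G.cut F S, G.corr w (G.ins F S) (two a (G.inn S e)) * w e *
        G.corr w F (two (G.out S e) b) := by
      refine Finset.sum_nonneg fun e he => ?_
      have he' : e ∈ F := (Finset.mem_filter.1 he).1
      exact mul_nonneg (mul_nonneg (hcn _ _ (Finset.filter_subset _ _)) (hw0 e he'))
        (hcn _ _ (Finset.Subset.refl _))
    by_cases htouch : ∃ e ∈ F, G.s e = a ∨ G.t e = a
    swap
    · -- no edge touches a
      have hab : a ≠ b := fun h => hb (h ▸ ha)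
      have h1 : G.Z w F (two a b) = 0 := by
        classical
        unfold MG.Z MG.L
        refine Finset.sum_eq_zero fun η hη => ?_
        rw [Finset.mem_filter, Finset.mem_powerset] at hη
        exfalso
        have h2 := congrFun hη.2 a
        rw [G.bd_eq_zero_of_not_touch (fun e he => ⟨fun h => htouch ⟨e, hη.1 he, Or.inl h⟩,
          fun h => htouch ⟨e, hη.1 he, Or.inr h⟩⟩)] at h2
        simp [two, hab] at h2
      have h3 : G.corr w F (two a b) = 0 := by
        unfold MG.corr
        rw [h1, zero_div]
      rw [h3]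
      exact hRnn
    obtain ⟨e, heF, hea⟩ := htouch
    obtain ⟨a', ha', hinc⟩ : ∃ a', ((G.s e = a ∧ G.t e = a') ∨ (G.s e = a' ∧ G.t e = a)) ∧
        G.inc e = two a a' := by
      rcases hea with hea | hea
      · exact ⟨G.t e, Or.inl ⟨hea, rfl⟩, by unfold MG.inc; rw [hea]⟩
      · exact ⟨G.s e, Or.inr ⟨rfl, hea⟩, by unfold MG.inc; rw [hea, MG.J339.two_comm]⟩
    set F' := F.erase e with hF'
    have heF' : e ∉ F' := Finset.notMem_erase e F
    have hFi : insert e F' = F := Finset.insert_erase heF
    have hsub : F' ⊆ F := Finset.erase_subset e F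
    have hcard : F'.card = n := by
      rw [hF', Finset.card_erase_of_mem heF, hn]; rfl
    have hw0' : ∀ f ∈ F', 0 ≤ w f := fun f hf => hw0 f (hsub hf)
    have hw1' : ∀ f ∈ F', w f ≤ 1 := fun f hf => hw1 f (hsub hf)
    have hwi : ∀ f ∈ insert e F', 0 ≤ w f := by rw [hFi]; exact hw0
    have hab' : two a b + G.inc e = two a' b := by
      rw [hinc, MG.J339.two_comm a b, MG.J339.two_add, MG.J339.two_comm]
    have hmain : G.corr w F (two a b) = (G.Z w F' 0 / G.Z w F 0) *
        (G.corr w F' (two a b) + w e * G.corr w F' (two a' b)) := by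
      have h1 := corr_insert G w heF' hwi (two a b)
      rw [hFi, hab'] at h1
      exact h1
    have hmono : ∀ A, G.corr w F' A ≤ G.corr w F A := fun A =>
      h G w w F' F A hsub hw0' (fun f _ => le_rfl) hw0 hw1
    have hZF := Z_pos G hw0
    have hZF' := Z_pos G hw0'
    have hrho : G.Z w F 0 / G.Z w F' 0 = 1 + w e * G.corr w F' (G.inc e) := by
      have h1 := rho_eq G w heF' hwi
      rwa [hFi] at h1
    have hwe0 := hw0 e heF
    by_cases haS : a' ∈ S
    · -- e is an inner edge
      have heS : G.s e ∈ S ∧ G.t e ∈ S := by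
        rcases ha' with ⟨h1, h2⟩ | ⟨h1, h2⟩
        · rw [h1, h2]; exact ⟨ha, haS⟩
        · rw [h1, h2]; exact ⟨haS, ha⟩
      have hins : G.ins F S = insert e (G.ins F' S) := by
        rw [← hFi]; exact ins_insert G F' S e heS
      have hcut : G.cut F S = G.cut F' S := by
        rw [← hFi]; exact cut_insert' G F' S e (by tauto)
      have heI : e ∉ G.ins F' S := fun h => heF' (Finset.mem_filter.1 h).1
      have hIsub : G.ins F S ⊆ F := Finset.filter_subset _ _
      have hIsub' : G.ins F' S ⊆ F' := Finset.filter_subset _ _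
      have hwI : ∀ f ∈ insert e (G.ins F' S), 0 ≤ w f := by
        rw [← hins]; exact fun f hf => hw0 f (hIsub hf)
      have hwI' : ∀ f ∈ G.ins F' S, 0 ≤ w f := fun f hf => hw0' f (hIsub' hf)
      have hZI := Z_pos G hwI
      have hZI' := Z_pos G hwI'
      have hrhoI := rho_eq G w heI hwI
      have hIH1 := ih F' a hw0' hw1' ha hcard
      have hIH2 := ih F' a' hw0' hw1' haS hcard
      have hbr : ∀ f, G.corr w (G.ins F' S) (two a (G.inn S f)) +
          w e * G.corr w (G.ins F' S) (two a' (G.inn S f)) =
          (G.Z w (insert e (G.ins F' S)) 0 / G.Z w (G.ins F' S) 0) *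
            G.corr w (G.ins F S) (two a (G.inn S f)) := by
        intro f
        have h1 := corr_insert G w heI hwI (two a (G.inn S f))
        rw [← hins] at h1 ⊢
        rw [hinc, MG.J339.two_comm a (G.inn S f), MG.J339.two_add, MG.J339.two_comm (G.inn S f) a',
          MG.J339.two_comm (G.inn S f) a] at h1
        have hZI2 : 0 < G.Z w (G.ins F S) 0 := by rw [hins]; exact hZI
        rw [h1]
        field_simp
      have hcI : G.corr w (G.ins F' S) (G.inc e) ≤ G.corr w F' (G.inc e) :=
        h G w w (G.ins F' S) F' _ hIsub' hwI' (fun f _ => le_rfl) hw0' hw1'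
      have hratio : (G.Z w F' 0 / G.Z w F 0) *
          (G.Z w (insert e (G.ins F' S)) 0 / G.Z w (G.ins F' S) 0) ≤ 1 := by
        rw [hrhoI, ← inv_div, hrho]
        rw [inv_mul_le_iff₀ (by
          have := mul_nonneg hwe0 (G.corr_nonneg (G.inc e) hw0')
          linarith)]
        have := mul_le_mul_of_nonneg_left hcI hwe0
        linarith
      rw [hmain, hcut]
      calc (G.Z w F' 0 / G.Z w F 0) * (G.corr w F' (two a b) + w e * G.corr w F' (two a' b))
          ≤ (G.Z w F' 0 / G.Z w F 0) * ((∑ f ∈ G.cut F' S,
              G.corr w (G.ins F' S) (two a (G.inn S f)) * w f * G.corr w F' (two (G.out S f) b)) +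
              w e * ∑ f ∈ G.cut F' S, G.corr w (G.ins F' S) (two a' (G.inn S f)) * w f *
                G.corr w F' (two (G.out S f) b)) := by
            gcongr
        _ = ∑ f ∈ G.cut F' S, ((G.Z w F' 0 / G.Z w F 0) *
              (G.Z w (insert e (G.ins F' S)) 0 / G.Z w (G.ins F' S) 0)) *
              (G.corr w (G.ins F S) (two a (G.inn S f)) * w f *
                G.corr w F' (two (G.out S f) b)) := by
            rw [Finset.mul_sum, ← Finset.sum_add_distrib, Finset.mul_sum]
            refine Finset.sum_congr rfl fun f _ => ?_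
            have h1 := hbr f
            linear_combination (G.Z w F' 0 / G.Z w F 0) * w f *
              G.corr w F' (two (G.out S f) b) * h1
        _ ≤ ∑ f ∈ G.cut F' S, 1 *
              (G.corr w (G.ins F S) (two a (G.inn S f)) * w f *
                G.corr w F (two (G.out S f) b)) := by
            refine Finset.sum_le_sum fun f hf => ?_
            have hf' : f ∈ F' := (Finset.mem_filter.1 hf).1
            have h1 := hw0' f hf'
            have h2 := hcn (G.ins F S) (two a (G.inn S f)) hIsub
            have h3 := hcn F' (two (G.out S f) b) hsub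
            have h4 := hmono (two (G.out S f) b)
            have h5 : G.corr w (G.ins F S) (two a (G.inn S f)) * w f *
                G.corr w F' (two (G.out S f) b) ≤ G.corr w (G.ins F S) (two a (G.inn S f)) * w f *
                G.corr w F (two (G.out S f) b) :=
              mul_le_mul_of_nonneg_left h4 (mul_nonneg h2 h1)
            exact mul_le_mul hratio h5 (mul_nonneg (mul_nonneg h2 h1) h3) zero_le_one
        _ = _ := by simp only [one_mul]
    · -- e is a cut edge
      have hecut : (G.s e ∈ S ∧ G.t e ∉ S) ∨ (G.s e ∉ S ∧ G.t e ∈ S) := by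
        rcases ha' with ⟨h1, h2⟩ | ⟨h1, h2⟩
        · left; rw [h1, h2]; exact ⟨ha, haS⟩
        · right; rw [h1, h2]; exact ⟨haS, ha⟩
      have hins : G.ins F S = G.ins F' S := by
        rw [← hFi]; exact ins_insert' G F' S e (by tauto)
      have hcut : G.cut F S = insert e (G.cut F' S) := by
        rw [← hFi]; exact cut_insert G F' S e hecut
      have heC : e ∉ G.cut F' S := fun h => heF' (Finset.mem_filter.1 h).1
      have hinn : G.inn S e = a ∧ G.out S e = a' := by
        unfold MG.inn MG.out
        rcases ha' with ⟨h1, h2⟩ | ⟨h1, h2⟩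
        · rw [h1, if_pos ha, if_pos ha, h2]; exact ⟨rfl, rfl⟩
        · rw [h1, if_neg haS, if_neg haS, h2]; exact ⟨rfl, rfl⟩
      have hIsub : G.ins F S ⊆ F := Finset.filter_subset _ _
      have hIH1 := ih F' a hw0' hw1' ha hcard
      have hr1 : G.Z w F' 0 / G.Z w F 0 ≤ 1 := by
        rw [← inv_div, hrho]
        apply inv_le_one_of_one_le₀
        have := mul_nonneg hwe0 (G.corr_nonneg (G.inc e) hw0')
        linarith
      have hnn1 := hcn F' (two a b) hsub
      have hnn2 := hcn F' (two a' b) hsub
      rw [hcut, Finset.sum_insert heC, hinn.1, hinn.2, MG.J339.two_self,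
        G.corr_zero (fun f hf => hw0 f (hIsub hf)), one_mul]
      calc G.corr w F (two a b) = (G.Z w F' 0 / G.Z w F 0) *
            (G.corr w F' (two a b) + w e * G.corr w F' (two a' b)) := hmain
        _ ≤ 1 * (G.corr w F' (two a b) + w e * G.corr w F' (two a' b)) :=
            mul_le_mul_of_nonneg_right hr1 (add_nonneg hnn1 (mul_nonneg hwe0 hnn2))
        _ ≤ w e * G.corr w F (two a' b) + ∑ f ∈ G.cut F' S,
              G.corr w (G.ins F S) (two a (G.inn S f)) * w f *
                G.corr w F (two (G.out S f) b) := by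
            have h1 : w e * G.corr w F' (two a' b) ≤ w e * G.corr w F (two a' b) :=
              mul_le_mul_of_nonneg_left (hmono _) hwe0
            have h2 : G.corr w F' (two a b) ≤ ∑ f ∈ G.cut F' S,
                G.corr w (G.ins F S) (two a (G.inn S f)) * w f *
                G.corr w F (two (G.out S f) b) := by
              refine hIH1.trans (Finset.sum_le_sum fun f hf => ?_)
              have hf' : f ∈ F' := (Finset.mem_filter.1 hf).1
              rw [hins]
              refine mul_le_mul_of_nonneg_left (hmono _) (mul_nonneg ?_ (hw0' f hf'))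
              rw [← hins]
              exact hcn _ _ hIsub
            linarith

end Pool.Agent.TH635.J450
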