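import Pool.Agent.TH981.LO.Bas

set_option autoImplicit false

open Pool.Agent.TH981.LO
open scoped BigOperators symmDiff MeasureTheory

namespace Pool.Agent.TH635.J453

section
variable {E : Type} [DecidableEq E]

theorem bw_split (w : E → ℝ) {F S ω : Finset E} (hS : S ⊆ F) (hω : ω ⊆ F) :
    bw w F ω = bw w S (ω ∩ S) * bw w (F \ S) (ω \ S) := by
  unfold bw
  have h1 : ∏ e ∈ ω, w e = (∏ e ∈ ω ∩ S, w e) * ∏ e ∈ ω \ S, w e :=
    (Finset.prod_inter_mul_prod_diff ω S _).symm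
  have h2 : ∏ e ∈ F \ ω, (1 - w e) = (∏ e ∈ S \ (ω ∩ S), (1 - w e)) *
      ∏ e ∈ (F \ S) \ (ω \ S), (1 - w e) := by
    rw [← Finset.prod_union]
    · congr 1
      ext e
      simp only [Finset.mem_sdiff, Finset.mem_union, Finset.mem_inter]
      constructor
      · rintro ⟨h1, h2⟩
        by_cases h3 : e ∈ S
        · exact Or.inl ⟨h3, fun h => h2 h.1⟩
        · exact Or.inr ⟨⟨h1, h3⟩, fun h => h2 h.1⟩
      · rintro (⟨h1, h2⟩ | ⟨⟨h1, h2⟩, h3⟩)
        · exact ⟨hS h1, fun h => h2 ⟨h, h1⟩⟩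
        · exact ⟨h1, fun h => h3 ⟨h, h2⟩⟩
    · rw [Finset.disjoint_left]
      intro e he he'
      simp only [Finset.mem_sdiff] at he he'
      exact he'.1.2 he.1
  rw [h1, h2]
  ring

theorem bw_congr {w w' : E → ℝ} {F ω : Finset E} (hω : ω ⊆ F) (h : ∀ e ∈ F, w e = w' e) :
    bw w F ω = bw w' F ω := by
  unfold bw
  congr 1
  · exact Finset.prod_congr rfl fun e he => h e (hω he)
  · exact Finset.prod_congr rfl fun e he => by rw [h e (Finset.mem_sdiff.1 he).1]

/-- degenerate weights -/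
theorem bw_det {w : E → ℝ} {F ω ω₂ : Finset E} (hω : ω ⊆ F) (hω₂ : ω₂ ⊆ F)
    (h1 : ∀ e ∈ ω₂, w e = 1) (h0 : ∀ e ∈ F, e ∉ ω₂ → w e = 0) :
    bw w F ω = if ω = ω₂ then 1 else 0 := by
  split_ifs with h
  · subst h
    unfold bw
    rw [Finset.prod_congr rfl (fun e he => h1 e he), Finset.prod_const_one, one_mul]
    rw [Finset.prod_congr rfl (g := fun _ => (1 : ℝ)), Finset.prod_const_one]
    intro e he
    rw [Finset.mem_sdiff] at he
    rw [h0 e he.1 he.2, sub_zero]
  · unfold bw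
    by_cases h2 : ω ⊆ ω₂
    · have h3 : ∃ e ∈ ω₂, e ∉ ω := by
        by_contra hcon
        push Not at hcon
        exact h (Finset.Subset.antisymm h2 hcon)
      obtain ⟨e, he, he'⟩ := h3
      rw [Finset.prod_eq_zero (i := e) (s := F \ ω), mul_zero]
      · exact Finset.mem_sdiff.2 ⟨hω₂ he, he'⟩
      · rw [h1 e he, sub_self]
    · obtain ⟨e, he, he'⟩ := Finset.not_subset.1 h2
      rw [Finset.prod_eq_zero he (h0 e (hω he) he'), zero_mul]

end

open Classical in
theorem qi (h : S_HOLLEY) : S_QI := by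
  intro V E _ _ G w F S P Q hS hw0 hw1 hP hPS hQS
  set w1 : E → ℝ := fun e => if e ∈ S then w e else 1 with hw1d
  -- the weights for a fixed configuration outside S
  let w2 : Finset E → E → ℝ := fun ω₂ e => if e ∈ S then w e else if e ∈ ω₂ then 1 else 0
  have hterm : ∀ ω₂ ∈ (F \ S).powerset, ∀ ω ∈ F.powerset,
      (if ω \ S = ω₂ then bw w F ω else 0) = bw w (F \ S) ω₂ * bw (w2 ω₂) F ω := by
    intro ω₂ h2 ω hω
    rw [Finset.mem_powerset] at h2 hω
    rw [bw_split w hS hω, bw_split (w2 ω₂) hS hω]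
    have e1 : bw (w2 ω₂) S (ω ∩ S) = bw w S (ω ∩ S) :=
      bw_congr Finset.inter_subset_right (fun e he => by simp only [w2, if_pos he])
    have e2 : bw (w2 ω₂) (F \ S) (ω \ S) = if ω \ S = ω₂ then 1 else 0 := by
      refine bw_det (Finset.sdiff_subset_sdiff hω (Finset.Subset.refl _)) h2 ?_ ?_
      · intro e he
        have h3 := (Finset.mem_sdiff.1 (h2 he)).2
        simp only [w2, if_neg h3, if_pos he]
      · intro e he he'
        have h3 := (Finset.mem_sdiff.1 he).2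
        simp only [w2, if_neg h3, if_neg he']
    rw [e1, e2]
    split_ifs with h3
    · rw [h3]; ring
    · ring
  obtain ⟨cy, hPSw⟩ : ∃ cy : Finset E → ℝ, ∀ (w : E → ℝ) (g : Finset E → ℝ),
      G.PS w F 0 (fun ω _ => g ω) = ∑ ω ∈ F.powerset, bw w F ω * (cy ω * g ω) := by
    refine ⟨fun ω => ∑ η ∈ ω.powerset with G.bd η = 0, (1 : ℝ), ?_⟩
    intro w g
    unfold MG.PS
    refine Finset.sum_congr rfl fun ω _ => ?_
    rw [Finset.sum_mul]
    simp only [one_mul]
  -- decomposition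
  have hdec : ∀ R : Finset E → Prop,
      G.PS w F 0 (fun ω _ => if (R ω ∧ Q ω) then (1 : ℝ) else 0) =
      ∑ ω₂ ∈ (F \ S).powerset, (if Q ω₂ then (1 : ℝ) else 0) * (bw w (F \ S) ω₂ *
        G.PS (w2 ω₂) F 0 (fun ω _ => if R ω then (1 : ℝ) else 0)) := by
    intro R
    simp only [hPSw]
    have h1 : ∀ ω ∈ F.powerset, bw w F ω * (cy ω *
        (if (R ω ∧ Q ω) then (1 : ℝ) else 0)) = ∑ ω₂ ∈ (F \ S).powerset,
        (if Q ω₂ then (1 : ℝ) else 0) * ((if ω \ S = ω₂ then bw w F ω else 0) *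
          (cy ω * (if R ω then (1 : ℝ) else 0))) := by
      intro ω hω
      rw [Finset.mem_powerset] at hω
      rw [Finset.sum_eq_single (ω \ S)]
      · rw [if_pos rfl]
        have h2 := hQS ω hω
        by_cases h3 : Q ω
        · rw [if_pos (h2.1 h3)]
          simp only [h3, and_true, one_mul]
        · rw [if_neg (fun h => h3 (h2.2 h))]
          simp only [h3, and_false, if_false, mul_zero, zero_mul]
      · intro ω₂ _ hne
        have h3 : ¬ (ω \ S = ω₂) := fun h => hne h.symm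
        simp only [if_neg h3, zero_mul, mul_zero]
      · intro hne
        exfalso
        apply hne
        rw [Finset.mem_powerset]
        exact Finset.sdiff_subset_sdiff hω (Finset.Subset.refl _)
    rw [Finset.sum_congr rfl h1, Finset.sum_comm]
    refine Finset.sum_congr rfl fun ω₂ h2 => ?_
    rw [Finset.mul_sum, Finset.mul_sum]
    refine Finset.sum_congr rfl fun ω hω => ?_
    rw [hterm ω₂ h2 ω hω]
    ring
  have hw10 : ∀ e ∈ F, 0 ≤ w1 e := by
    intro e he
    simp only [hw1d]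
    split_ifs
    · exact hw0 e he
    · exact zero_le_one
  have hw11 : ∀ e ∈ F, w1 e ≤ 1 := by
    intro e he
    simp only [hw1d]
    split_ifs
    · exact hw1 e he
    · exact le_rfl
  have hw20 : ∀ ω₂, ∀ e ∈ F, 0 ≤ w2 ω₂ e := by
    intro ω₂ e he
    simp only [w2]
    split_ifs
    · exact hw0 e he
    · exact zero_le_one
    · exact le_rfl
  have hw21 : ∀ ω₂, ∀ e ∈ F, w2 ω₂ e ≤ w1 e := by
    intro ω₂ e he
    simp only [w2, hw1d]
    split_ifs
    · exact le_rfl
    · exact le_rfl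
    · exact zero_le_one
  have hbound : ∀ ω₂, G.PS (w2 ω₂) F 0 (fun ω _ => if P ω then (1 : ℝ) else 0) ≤
      G.fkp w1 F P * G.Z (w2 ω₂) F 0 := by
    intro ω₂
    have h1 := h G (w2 ω₂) w1 F P (hw20 ω₂) (hw21 ω₂) hw11 hP
    have hZ : 0 < G.Z (w2 ω₂) F 0 := lt_of_lt_of_le one_pos (G.one_le_Z_zero (hw20 ω₂))
    have h2 : G.PS (w2 ω₂) F 0 (fun ω _ => if P ω then (1 : ℝ) else 0) =
        G.fkp (w2 ω₂) F P * G.Z (w2 ω₂) F 0 := by
      unfold MG.fkp
      rw [div_mul_cancel₀ _ hZ.ne']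
    rw [h2]
    exact mul_le_mul_of_nonneg_right h1 hZ.le
  have hZF : 0 < G.Z w F 0 := lt_of_lt_of_le one_pos (G.one_le_Z_zero hw0)
  have hfin : G.PS w F 0 (fun ω _ => if (P ω ∧ Q ω) then (1 : ℝ) else 0) ≤
      G.fkp w1 F P * G.PS w F 0 (fun ω _ => if Q ω then (1 : ℝ) else 0) := by
    have h1 := hdec (fun _ => True)
    simp only [true_and, if_true] at h1
    have hZ2 : ∀ ω₂, G.PS (w2 ω₂) F 0 (fun _ _ => (1 : ℝ)) = G.Z (w2 ω₂) F 0 := fun ω₂ =>
      G.PS_eta (w2 ω₂) F 0 (fun _ => 1)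
    simp only [hZ2] at h1
    rw [hdec P, h1, Finset.mul_sum]
    refine Finset.sum_le_sum fun ω₂ h2 => ?_
    rw [Finset.mem_powerset] at h2
    have h3 : 0 ≤ bw w (F \ S) ω₂ := by
      unfold bw
      refine mul_nonneg (Finset.prod_nonneg fun e he => hw0 e (Finset.sdiff_subset (h2 he))) ?_
      refine Finset.prod_nonneg fun e he => ?_
      have := hw1 e (Finset.sdiff_subset (Finset.mem_sdiff.1 he).1)
      linarith
    split_ifs with h4
    · have h5 := mul_le_mul_of_nonneg_left (hbound ω₂) h3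
      linarith
    · simp
  have e1 : G.fkp w F (fun ω => P ω ∧ Q ω) =
      G.PS w F 0 (fun ω _ => if (P ω ∧ Q ω) then (1 : ℝ) else 0) / G.Z w F 0 := by
    unfold MG.fkp
    congr!
  have e2 : G.fkp w F Q = G.PS w F 0 (fun ω _ => if Q ω then (1 : ℝ) else 0) / G.Z w F 0 := by
    unfold MG.fkp
    congr!
  rw [e1, e2, ← mul_div_assoc]
  exact div_le_div_of_nonneg_right hfin hZF.le

end Pool.Agent.TH635.J453
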