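import Pool.Agent.TH981.LO.Bas

set_option autoImplicit false

open Pool.Agent.TH981.LO
open scoped BigOperators symmDiff MeasureTheory

namespace Pool.Agent.TH635.J459

theorem maglb (d : ℕ) (hd : 2 ≤ d) (h1 : S_DER) (h2 : S_DERLB) (h3 : S_MWD d) : S_MAGLB d := by
  intro x x' n hx hxx hx1 hphi
  have hH : EH d n ⊆ EB d (n + 1) := Finset.filter_subset _ _
  have hww0 : ∀ s, 0 ≤ s → ∀ e ∈ EB d (n + 1), 0 ≤ ww d n s e := by
    intro s hs e _
    unfold ww
    split_ifs
    · exact hs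
    · exact zero_le_one
  have hww1 : ∀ s, s ≤ 1 → ∀ e ∈ EB d (n + 1), ww d n s e ≤ 1 := by
    intro s hs e _
    unfold ww
    split_ifs
    · exact hs
    · exact le_rfl
  have key : ∀ s, x ≤ s → s < 1 → ∃ D, HasDerivAt (fun r => mw d n r) D s ∧
      1 / 4 * (1 - mw d n s) ≤ D := by
    intro s hxs hs1
    have hs0 : 0 < s := lt_of_lt_of_le hx hxs
    have hD := h1 (lat d) (fun _ => 1) (EB d (n + 1)) (EH d n) (two 0 (gh d n)) s hH
      (fun _ _ => zero_le_one) hs0 hs1
    refine ⟨_, hD, ?_⟩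
    have hM := h3 x s n hx hxs hs1 hphi
    have h4 : (1 / 4 : ℝ) * (1 - mw d n s) ≤ 1 / 4 * ∑ e ∈ EH d n,
        ((lat d).fkp (ww d n s) (EB d (n + 1)) (fun ω => (lat d).Cn ω 0 ((lat d).s e) ∧
            (lat d).Cn ω ((lat d).t e) (gh d n) ∧ ¬ (lat d).Cn ω 0 (gh d n)) +
          (lat d).fkp (ww d n s) (EB d (n + 1)) (fun ω => (lat d).Cn ω 0 ((lat d).t e) ∧
            (lat d).Cn ω ((lat d).s e) (gh d n) ∧ ¬ (lat d).Cn ω 0 (gh d n))) :=
      mul_le_mul_of_nonneg_left hM (by norm_num)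
    refine h4.trans ?_
    rw [Finset.mul_sum]
    refine Finset.sum_le_sum fun e he => ?_
    exact h2 (lat d) (ww d n s) (EB d (n + 1)) e 0 (gh d n) (hH he) (hww0 s hs0.le) (hww1 s hs1.le)
  have hanti : AntitoneOn (fun s => (1 - mw d n s) * Real.exp (s / 4)) (Set.Icc x x') := by
    have hder : ∀ s ∈ Set.Icc x x', ∃ D', HasDerivAt
        (fun s => (1 - mw d n s) * Real.exp (s / 4)) D' s ∧ D' ≤ 0 := by
      intro s hs
      obtain ⟨D, hD, hD'⟩ := key s hs.1 (lt_of_le_of_lt hs.2 hx1)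
      have h5 : HasDerivAt (fun s : ℝ => Real.exp (s / 4)) (Real.exp (s / 4) * (1 / 4)) s :=
        ((hasDerivAt_id s).div_const 4).exp
      have h6 := (hD.const_sub 1).mul h5
      refine ⟨_, h6, ?_⟩
      have h7 : 0 < Real.exp (s / 4) := Real.exp_pos _
      have h8 : -D * Real.exp (s / 4) + (1 - mw d n s) * (Real.exp (s / 4) * (1 / 4)) =
          Real.exp (s / 4) * (1 / 4 * (1 - mw d n s) - D) := by ring
      rw [h8]
      exact mul_nonpos_of_nonneg_of_nonpos h7.le (by linarith)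
    refine antitoneOn_of_deriv_nonpos (convex_Icc x x') ?_ ?_ ?_
    · intro s hs
      obtain ⟨D', hD', -⟩ := hder s hs
      exact hD'.continuousAt.continuousWithinAt
    · intro s hs
      obtain ⟨D', hD', -⟩ := hder s (interior_subset hs)
      exact hD'.differentiableAt.differentiableWithinAt
    · intro s hs
      obtain ⟨D', hD', h9⟩ := hder s (interior_subset hs)
      rw [hD'.deriv]
      exact h9
  have h10 := hanti (Set.left_mem_Icc.2 hxx.le) (Set.right_mem_Icc.2 hxx.le) hxx.le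
  simp only at h10
  have h11 : 0 ≤ mw d n x := (lat d).corr_nonneg _ (hww0 x hx.le)
  have h12 : (1 - mw d n x) * Real.exp (x / 4) ≤ Real.exp (x / 4) := by
    have := Real.exp_pos (x / 4)
    nlinarith
  have h13 : (1 - mw d n x') * Real.exp (x' / 4) ≤ Real.exp (x / 4) := h10.trans h12
  have h14 : Real.exp (-(x' - x) / 4) = Real.exp (x / 4) / Real.exp (x' / 4) := by
    rw [← Real.exp_sub]
    congr 1
    ring
  have h15 : 1 - mw d n x' ≤ Real.exp (-(x' - x) / 4) := by
    rw [h14, le_div_iff₀ (Real.exp_pos _)]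
    exact h13
  linarith

end Pool.Agent.TH635.J459
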