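import Pool.Agent.TH981.LO.Bas

set_option autoImplicit false

open Pool.Agent.TH981.LO
open scoped BigOperators symmDiff MeasureTheory

namespace Pool.Agent.TH635.J466

theorem inB_mono {d : ℕ} (v : Vt d) (k : ℕ) {ω ω' : Finset (Ed d)} (h : ω ⊆ ω') :
    inB v k ω ⊆ inB v k ω' := Finset.filter_subset_filter _ h

theorem Bad_mono {d : ℕ} (k : ℕ) (j : Vt d) {ω ω' : Finset (Ed d)} (h : ω ⊆ ω')
    (hB : Bad k j ω) : Bad k j ω' := by
  obtain ⟨v, hv, u, hu, hc⟩ := hB
  exact ⟨v, hv, u, hu, (lat d).Cn_mono (inB_mono v k h) hc⟩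

theorem Bad_congr {d : ℕ} (k : ℕ) (j : Vt d) {ω ω' : Finset (Ed d)}
    (h : ∀ v, blk k v = j → inB v k ω = inB v k ω') : Bad k j ω ↔ Bad k j ω' := by
  constructor
  · rintro ⟨v, hv, u, hu, hc⟩
    exact ⟨v, hv, u, hu, by rw [← h v hv]; exact hc⟩
  · rintro ⟨v, hv, u, hu, hc⟩
    exact ⟨v, hv, u, hu, by rw [h v hv]; exact hc⟩

theorem blk_close {d : ℕ} {k : ℕ} (hk : 1 ≤ k) {v v' : Vt d} (h : nm (v - v') ≤ 2 * k) :
    nm (blk k v - blk k v') ≤ 2 := by
  rw [nm_le_iff] at h ⊢
  intro i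
  have h1 := h i
  rw [Pi.sub_apply] at h1 ⊢
  unfold blk
  have hk' : (0 : ℤ) < k := by exact_mod_cast hk
  have h2 : v i - v' i ≤ 2 * k ∧ -(2 * k) ≤ v i - v' i := by omega
  have h3 : v i / (k : ℤ) ≤ v' i / (k : ℤ) + 2 := by
    rw [← Int.add_mul_ediv_right _ _ hk'.ne']
    exact Int.ediv_le_ediv hk' (by linarith)
  have h4 : v' i / (k : ℤ) ≤ v i / (k : ℤ) + 2 := by
    rw [← Int.add_mul_ediv_right _ _ hk'.ne']
    exact Int.ediv_le_ediv hk' (by linarith)
  omega

theorem bads (h1 : S_QI) (d : ℕ) (x : ℝ) (hx0 : 0 < x) (hx1 : x < 1) (h2 : S_BADP d x) :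
    S_BADS d x := by
  classical
  intro ε hε
  obtain ⟨k, hk, hB⟩ := h2 ε hε
  refine ⟨k, hk, ?_⟩
  intro D J
  have hw0 : ∀ e ∈ D, (0 : ℝ) ≤ (fun _ : Ed d => x) e := fun _ _ => hx0.le
  have hw1 : ∀ e ∈ D, (fun _ : Ed d => x) e ≤ 1 := fun _ _ => hx1.le
  induction J using Finset.induction_on with
  | empty =>
    intro _
    rw [Finset.card_empty, pow_zero]
    exact (lat d).fkp_le_one _ hw0 hw1
  | insert j0 J hj0 ih =>
    intro hsep
    have hih := ih (fun j hj j' hj' hne => hsep j (Finset.mem_insert_of_mem hj) j'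
      (Finset.mem_insert_of_mem hj') hne)
    set S : Finset (Ed d) := D.filter (fun e => ∃ v : Vt d, blk k v = j0 ∧ nm (e.1 - v) ≤ k ∧
      nm (e.1 + ev e.2 - v) ≤ k) with hS
    have hSD : S ⊆ D := Finset.filter_subset _ _
    have hQI := h1 (lat d) (fun _ => x) D S (Bad k j0) (fun ω => ∀ j ∈ J, Bad k j ω) hSD hw0 hw1
      (fun ω ω' hωω' _ hb => Bad_mono k j0 hωω' hb) ?_ ?_
    · have hP := hB D (fun e => if e ∈ S then x else 1) j0 (by
        intro e _
        split_ifs
        · exact hx0.le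
        · exact zero_le_one) (by
        intro e _
        split_ifs
        · exact hx1.le
        · exact le_rfl) (by
        intro e he hv
        have he' : e ∈ S := Finset.mem_filter.2 ⟨he, hv⟩
        simp only [if_pos he', le_refl])
      have h3 : (lat d).fkp (fun _ => x) D (fun ω => ∀ j ∈ insert j0 J, Bad k j ω) ≤
          (lat d).fkp (fun _ => x) D (fun ω => Bad k j0 ω ∧ ∀ j ∈ J, Bad k j ω) := by
        refine (lat d).fkp_imp hw0 hw1 ?_
        intro ω _ h
        exact ⟨h j0 (Finset.mem_insert_self _ _), fun j hj => h j (Finset.mem_insert_of_mem hj)⟩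
      have h4 : 0 ≤ (lat d).fkp (fun _ => x) D (fun ω => ∀ j ∈ J, Bad k j ω) :=
        (lat d).fkp_nonneg _ hw0 hw1
      rw [Finset.card_insert_of_notMem hj0, pow_succ']
      refine h3.trans (hQI.trans ?_)
      exact mul_le_mul hP hih h4 hε.le
    · intro ω hω
      refine Bad_congr k j0 fun v hv => ?_
      ext e
      simp only [inB, Finset.mem_filter, Finset.mem_inter]
      constructor
      · rintro ⟨h3, h4⟩
        exact ⟨⟨h3, Finset.mem_filter.2 ⟨hω h3, v, hv, h4⟩⟩, h4⟩
      · rintro ⟨⟨h3, -⟩, h4⟩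
        exact ⟨h3, h4⟩
    · intro ω hω
      have key : ∀ j ∈ J, (Bad k j ω ↔ Bad k j (ω \ S)) := by
        intro j hj
        refine Bad_congr k j fun v hv => ?_
        ext e
        simp only [inB, Finset.mem_filter, Finset.mem_sdiff]
        constructor
        · rintro ⟨h3, h4⟩
          refine ⟨⟨h3, fun h5 => ?_⟩, h4⟩
          obtain ⟨-, v0, hv0, h6, -⟩ := Finset.mem_filter.1 h5
          have hne : j0 ≠ j := fun h => hj0 (h ▸ hj)
          have h7 := hsep j0 (Finset.mem_insert_self _ _) j (Finset.mem_insert_of_mem hj) hne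
          have h8 : nm (v0 - v) ≤ 2 * k := by
            have h9 : v0 - v = (e.1 - v) - (e.1 - v0) := by abel
            rw [h9]
            have h10 := nm_sub_le (e.1 - v) (e.1 - v0)
            have h11 := h4.1
            omega
          have h12 := blk_close hk h8
          rw [hv0, hv] at h12
          omega
        · rintro ⟨⟨h3, -⟩, h4⟩
          exact ⟨h3, h4⟩
      constructor
      · intro h j hj
        exact (key j hj).1 (h j hj)
      · intro h j hj
        exact (key j hj).2 (h j hj)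

end Pool.Agent.TH635.J466
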